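import Pool.Agent.Q287.SD.TwoC
import Pool.Agent.Q295.BD.Quad

/-!
# Second moment in a small set: exchange of two points and independence of two orbits
-/

set_option autoImplicit false
set_option linter.unusedSectionVars false

namespace Pool.Agent.Q287.SD

open Finset Equiv
open Pool.Agent.Y998.ST
open Pool.Agent.Y998.LP (NN NN_nonneg law_inv)
open Pool.Agent.Y998.CN (law_sum)
open Pool.Agent.Q295.TP (sm sm_nonneg sm_le_one)
open Pool.Agent.Q295.BD (bf bf_nonneg bf_symm sm_toggle sm_symm e_add e_mul)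
open Pool.Agent.Y799.PD.PR2 (qq_col)

variable {V : Type} [Fintype V] [DecidableEq V]

/-- the mean of `a` after time `s` -/
noncomputable def mu (J : V → V → ℝ) (s : ℝ) (a : V → ℝ) (x : V) : ℝ := ∑ v, qq J s x v * a v

/-- the centred value of `a` after `K` steps -/
noncomputable def et (J : V → V → ℝ) (K : ℕ) (t : ℝ) (a : V → ℝ) (g : Perm V) (x : V) : ℝ :=
  a ((g ^ K) x) - mu J (K * t) a x

theorem mu_nonneg {J : V → V → ℝ} (hJ : ∀ x y, 0 ≤ J x y) {s : ℝ} (hs : 0 ≤ s) {a : V → ℝ}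
    (ha : ∀ v, 0 ≤ a v) (x : V) : 0 ≤ mu J s a x :=
  Finset.sum_nonneg fun v _ => mul_nonneg (qq_nonneg hJ hs x v) (ha v)

theorem mu_le {J : V → V → ℝ} (hJ : ∀ x y, 0 ≤ J x y) {s : ℝ} (hs : 0 ≤ s) {a : V → ℝ} {A : ℝ}
    (ha : ∀ v, a v ≤ A) (x : V) : mu J s a x ≤ A := by
  unfold mu
  calc ∑ v, qq J s x v * a v ≤ ∑ v, qq J s x v * A :=
        Finset.sum_le_sum fun v _ => mul_le_mul_of_nonneg_left (ha v) (qq_nonneg hJ hs x v)
    _ = A := by rw [← Finset.sum_mul, qq_row, one_mul]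

theorem et_abs {J : V → V → ℝ} (hJ : ∀ x y, 0 ≤ J x y) (K : ℕ) {t : ℝ} (ht : 0 ≤ t) {a : V → ℝ}
    {A : ℝ} (ha0 : ∀ v, 0 ≤ a v) (ha : ∀ v, a v ≤ A) (g : Perm V) (x : V) :
    |et J K t a g x| ≤ A := by
  have h1 := mu_nonneg hJ (show 0 ≤ (K : ℝ) * t by positivity) ha0 x
  have h2 := mu_le hJ (show 0 ≤ (K : ℝ) * t by positivity) ha x
  have h3 := ha0 ((g ^ K) x)
  have h4 := ha ((g ^ K) x)
  unfold et
  rw [abs_le]
  constructor <;> linarith

theorem right_tv (J : V → V → ℝ) (t : ℝ) (x y : V) :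
    ∑ g, |stirLaw J t (g * swap x y) - stirLaw J t g| = NN J t (swap x y) := by
  unfold NN
  rw [← Equiv.sum_comp (Equiv.inv (Perm V))]
  refine Finset.sum_congr rfl fun g _ => ?_
  have e1 : (Equiv.inv (Perm V)) g = g⁻¹ := rfl
  rw [e1, law_inv, ← law_inv J t (g⁻¹ * swap x y), mul_inv_rev, inv_inv]

theorem exp_right (J : V → V → ℝ) (t : ℝ) (x y : V) (F : Perm V → ℝ) (C : ℝ)
    (hF : ∀ g, |F g| ≤ C) :
    |stirExp J t (fun g => F (g * swap x y)) - stirExp J t F| ≤ C * NN J t (swap x y) := by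
  have h1 : stirExp J t (fun g => F (g * swap x y)) = ∑ g, stirLaw J t (g * swap x y) * F g := by
    unfold stirExp
    rw [← Equiv.sum_comp (Equiv.mulRight (swap x y))]
    refine Finset.sum_congr rfl fun g _ => ?_
    have e1 : (Equiv.mulRight (swap x y)) g = g * swap x y := rfl
    have e2 : g * swap x y * swap x y = g := by rw [mul_assoc, swap_mul_self, mul_one]
    rw [e1]
    beta_reduce
    rw [e2]
  rw [h1, ← right_tv, Finset.mul_sum]
  unfold stirExp
  rw [← Finset.sum_sub_distrib]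
  refine (Finset.abs_sum_le_sum_abs _ _).trans (Finset.sum_le_sum fun g _ => ?_)
  rw [← sub_mul, abs_mul, mul_comm C]
  exact mul_le_mul_of_nonneg_left (hF g) (abs_nonneg _)

theorem mu_close {J : V → V → ℝ} (s : ℝ) {a : V → ℝ} {A : ℝ} (ha : ∀ v, |a v| ≤ A) (x y : V) :
    |mu J s a x - mu J s a y| ≤ A * NN J s (swap x y) := by
  have h1 : ∀ z, mu J s a z = stirExp J s (fun g => a (g z)) := by
    intro z
    unfold mu qq hop
    have h2 : ∀ v, stirExp J s (fun g => if g z = v then 1 else 0) * a v =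
        stirExp J s (fun g => if g z = v then a v else 0) := by
      intro v
      unfold stirExp
      rw [Finset.sum_mul]
      refine Finset.sum_congr rfl fun g _ => ?_
      beta_reduce
      split_ifs <;> ring
    simp only [h2]
    rw [exp_sum]
    congr 1
    funext g
    rw [Finset.sum_ite_eq, if_pos (Finset.mem_univ _)]
  have h2 := exp_right J s x y (fun g => a (g y)) A (fun g => ha _)
  have h3 : (fun g : Perm V => a ((g * swap x y) y)) = fun g => a (g x) := by
    funext g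
    rw [Perm.mul_apply, swap_apply_right]
  rw [h3] at h2
  rw [h1, h1]
  exact h2

/-- the orbits do not come back -/
def Good (K : ℕ) (g : Perm V) (x y : V) : Prop :=
  ∀ i, 1 ≤ i → i < K → (g ^ i) x ≠ x ∧ (g ^ i) x ≠ y ∧ (g ^ i) y ≠ x ∧ (g ^ i) y ≠ y

theorem Good.symm {K : ℕ} {g : Perm V} {x y : V} (h : Good K g x y) : Good K g y x :=
  fun i h1 h2 => ⟨(h i h1 h2).2.2.2, (h i h1 h2).2.2.1, (h i h1 h2).2.1, (h i h1 h2).1⟩

theorem pow_swap {K : ℕ} {g : Perm V} {x y : V} (h : Good K g x y) :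
    ∀ i, 1 ≤ i → i ≤ K → ((g * swap x y) ^ i) x = (g ^ i) y := by
  intro i
  induction i with
  | zero => intro h1; omega
  | succ i ih =>
    intro _ h2
    by_cases hi : i = 0
    · subst hi
      rw [zero_add, pow_one, pow_one, Perm.mul_apply, swap_apply_left]
    · have h3 := ih (by omega) (by omega)
      have h4 := h i (by omega) (by omega)
      rw [pow_succ', Perm.mul_apply, h3, Perm.mul_apply,
        swap_apply_of_ne_of_ne h4.2.2.1 h4.2.2.2, pow_succ', Perm.mul_apply]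

theorem swap_pow {K : ℕ} (hK : 0 < K) {g : Perm V} {x y : V} (h : Good K g x y) :
    ((g * swap x y) ^ K) x = (g ^ K) y ∧ ((g * swap x y) ^ K) y = (g ^ K) x := by
  refine ⟨pow_swap h K hK le_rfl, ?_⟩
  have h1 := pow_swap h.symm K hK le_rfl
  rwa [swap_comm] at h1

/-- the exchange inequality for two points -/
theorem exch {J : V → V → ℝ} (hJ : ∀ x y, 0 ≤ J x y) {K : ℕ} (hK : 0 < K) {t : ℝ}
    (ht : 0 ≤ t) {a : V → ℝ} {A : ℝ} (ha0 : ∀ v, 0 ≤ a v) (ha : ∀ v, a v ≤ A)
    {x y : V} (hxy : x ≠ y) {η κ P : ℝ} (hη : NN J t (swap x y) ≤ η)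
    (hκ : |mu J (K * t) a x - mu J (K * t) a y| ≤ A * κ)
    (hP : stirExp J t (fun g => open Classical in if Good K g x y then 0 else 1) ≤ P) :
    stirExp J t (fun g => et J K t a g x * et J K t a g y * sm g x y) ≤
      (1 / 2) * stirExp J t (fun g => et J K t a g x * et J K t a g y) +
        (1 / 2) * (A ^ 2 * (η + κ + 2 * P)) := by
  classical
  have hA : 0 ≤ A := (ha0 x).trans (ha x)
  have hab := et_abs hJ K ht ha0 ha
  obtain ⟨Φ, hΦ⟩ : ∃ Φ : Perm V → ℝ, Φ = fun g =>
    et J K t a g x * et J K t a g y * sm g x y := ⟨_, rfl⟩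
  obtain ⟨Ψ, hΨ⟩ : ∃ Ψ : Perm V → ℝ, Ψ = fun g => et J K t a g x * et J K t a g y := ⟨_, rfl⟩
  have hΨA : ∀ g, |Ψ g| ≤ A ^ 2 := by
    intro g
    rw [hΨ]
    beta_reduce
    rw [abs_mul, sq]
    exact mul_le_mul (hab g x) (hab g y) (abs_nonneg _) hA
  have hΦe : ∀ g, Φ g = Ψ g * sm g x y := fun g => by rw [hΦ, hΨ]
  have hΦA : ∀ g, |Φ g| ≤ A ^ 2 * sm g x y := by
    intro g
    rw [hΦe, abs_mul, abs_of_nonneg (sm_nonneg g x y)]
    exact mul_le_mul_of_nonneg_right (hΨA g) (sm_nonneg g x y)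
  have hΦA' : ∀ g, |Φ g| ≤ A ^ 2 := fun g => (hΦA g).trans
    (mul_le_of_le_one_right (sq_nonneg A) (sm_le_one g x y))
  have h1 := exp_right J t x y Φ (A ^ 2) hΦA'
  have h2 : ∀ g, Φ g + Φ (g * swap x y) ≤ Ψ g + (A ^ 2 * κ + 2 * A ^ 2 *
      (if Good K g x y then 0 else 1)) := by
    intro g
    have hκ0 : 0 ≤ A * κ := (abs_nonneg _).trans hκ
    have hAκ : 0 ≤ A ^ 2 * κ := by rw [sq, mul_assoc]; exact mul_nonneg hA hκ0
    by_cases hg : Good K g x y
    · rw [if_pos hg, mul_zero, add_zero]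
      obtain ⟨e1, e2⟩ := swap_pow hK hg
      have e3 : Φ (g * swap x y) = (a ((g ^ K) y) - mu J (K * t) a x) *
          (a ((g ^ K) x) - mu J (K * t) a y) * (1 - sm g x y) := by
        rw [hΦ]
        beta_reduce
        unfold et
        rw [e1, e2, sm_toggle g hxy]
      have e4 : Ψ g = (a ((g ^ K) x) - mu J (K * t) a x) *
          (a ((g ^ K) y) - mu J (K * t) a y) := by rw [hΨ]; rfl
      have e5 : Φ g + Φ (g * swap x y) = Ψ g + (a ((g ^ K) x) - a ((g ^ K) y)) *
          (mu J (K * t) a y - mu J (K * t) a x) * (1 - sm g x y) := by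
        rw [e3, hΦe, e4]
        ring
      rw [e5]
      have h6 : |(a ((g ^ K) x) - a ((g ^ K) y)) *
          (mu J (K * t) a y - mu J (K * t) a x) * (1 - sm g x y)| ≤ A * (A * κ) * 1 := by
        rw [abs_mul, abs_mul]
        refine mul_le_mul (mul_le_mul ?_ ?_ (abs_nonneg _) hA) ?_ (abs_nonneg _) (by positivity)
        · have := ha0 ((g ^ K) x)
          have := ha0 ((g ^ K) y)
          have := ha ((g ^ K) x)
          have := ha ((g ^ K) y)
          rw [abs_le]
          constructor <;> linarith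
        · rw [abs_sub_comm]; exact hκ
        · have := sm_nonneg g x y
          have := sm_le_one g x y
          rw [abs_le]
          constructor <;> linarith
      have := le_abs_self ((a ((g ^ K) x) - a ((g ^ K) y)) *
          (mu J (K * t) a y - mu J (K * t) a x) * (1 - sm g x y))
      nlinarith
    · rw [if_neg hg, mul_one]
      have h3 := hΦA g
      have h4 := hΦA (g * swap x y)
      rw [sm_toggle g hxy] at h4
      have h5 := hΨA g
      have h6 := le_abs_self (Φ g)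
      have h7 := le_abs_self (Φ (g * swap x y))
      have h8 := neg_abs_le (Ψ g)
      nlinarith
  have h3 := exp_mono hJ ht h2
  rw [e_add, e_add, e_add, exp_const, e_mul] at h3
  have h4 := mul_le_mul_of_nonneg_left hP (show 0 ≤ 2 * A ^ 2 by positivity)
  have h5 := mul_le_mul_of_nonneg_left hη (sq_nonneg A)
  rw [abs_le] at h1
  have e1 : stirExp J t Φ = stirExp J t (fun g => et J K t a g x * et J K t a g y * sm g x y) := by
    rw [hΦ]
  have e2 : stirExp J t Ψ = stirExp J t (fun g => et J K t a g x * et J K t a g y) := by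
    rw [hΨ]
  rw [← e1, ← e2]
  have h6 : stirExp J t (fun g => if Good K g x y then (0 : ℝ) else 1) ≤ P := by
    refine le_trans (le_of_eq ?_) hP
    congr!
  nlinarith [h1.1, h1.2]

end Pool.Agent.Q287.SD
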