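import Pool.Agent.Q287.SD.Two
import Pool.Agent.Q295.TP.Conv
import Pool.Agent.Q295.TP.Sq

/-!
# From the two-point function to many points and to sets
-/

set_option autoImplicit false
set_option linter.unusedSectionVars false

namespace Pool.Agent.Q287.SD

open Finset Equiv
open Pool.Agent.Y998.ST
open Pool.Agent.Y998.LP (NN NN_nonneg law_inv tdist bfrac)
open Pool.Agent.Y998.CN (law_sum nn_trans)
open Pool.Agent.Q295.TP
open Pool.Agent.TH268.PD (top Cyc cyOf ret ret_spec pdm pdm_close lip_approx)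

variable {V : Type} [Fintype V] [DecidableEq V]

/-- points with small exchange cost -/
theorem uR_close (J : V → V → ℝ) (t : ℝ) {k : ℕ}
    (R : Fin k → Fin k → Prop) (c : Fin k → V) (hinj : Function.Injective c) (η : ℝ)
    (hη : 0 ≤ η) (h : ∀ i j, NN J t (swap (c i) (c j)) ≤ η) :
    |uR R - PR J t R c| ≤ k * η := by
  classical
  have h2 := Pool.Agent.Y998.LQ.ind_mean J t c hinj η hη h
    (fun π => if Ev R π id then 1 else 0) 1 zero_le_one (by
      intro π
      split_ifs <;> norm_num)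
  have h3 : ∑ g, stirLaw J t g * (if Ev R (ret k c g) id then (1 : ℝ) else 0) =
      PR J t R c := by
    unfold PR stirExp ei
    refine Finset.sum_congr rfl fun g _ => ?_
    have h4 : Ev R (ret k c g) id ↔ Ev R g c := by
      unfold Ev
      refine forall_congr' fun i => forall_congr' fun j => ?_
      have := (ret_spec k c hinj).2.2.2 g i j
      simp only [id]
      rw [this]
    simp only [h4]
  rw [h3] at h2
  rw [abs_sub_comm]
  unfold uR
  rw [one_mul] at h2
  linarith

theorem exp_ov_ag (J : V → V → ℝ) (t : ℝ) (A B : Finset V) :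
    stirExp J t (fun g => ov A B g) = ag J t A B := exp_ov J t A B

/-- expected squared distance of two sets -/
theorem dd_le {J : V → V → ℝ} {t : ℝ}
    (A B : Finset V) (hA : 0 < A.card) (hB : 0 < B.card) {δ : ℝ} (hδ : 0 ≤ δ)
    (h : ∀ x ∈ A ∪ B, ∀ y ∈ A ∪ B, x ≠ y → |gg J t x y - 1 / 2| ≤ δ) :
    stirExp J t (fun g => dd A B g) ≤ 4 * δ + 1 / A.card + 1 / B.card := by
  have hAR : (0 : ℝ) < A.card := by exact_mod_cast hA
  have hBR : (0 : ℝ) < B.card := by exact_mod_cast hB
  have hup : ∀ X : Finset V, 0 < X.card → (∀ x ∈ X, x ∈ A ∪ B) →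
      ag J t X X ≤ 1 / 2 + δ + 1 / X.card := by
    intro X hX hXs
    have hXR : (0 : ℝ) < X.card := by exact_mod_cast hX
    unfold ag
    rw [div_le_iff₀ (by positivity)]
    have h2 : ∀ x ∈ X, ∑ y ∈ X, gg J t x y ≤ X.card * (1 / 2 + δ) + 1 := by
      intro x hx
      have h3 : ∀ y ∈ X, gg J t x y ≤ (1 / 2 + δ) + (if x = y then 1 else 0) := by
        intro y hy
        by_cases hxy : x = y
        · rw [if_pos hxy, hxy, gg_refl]
          linarith
        · rw [if_neg hxy]
          have := (abs_le.1 (h x (hXs x hx) y (hXs y hy) hxy)).2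
          linarith
      refine (Finset.sum_le_sum h3).trans ?_
      rw [Finset.sum_add_distrib, Finset.sum_const, nsmul_eq_mul, Finset.sum_ite_eq, if_pos hx]
    refine (Finset.sum_le_sum h2).trans (le_of_eq ?_)
    rw [Finset.sum_const, nsmul_eq_mul]
    field_simp
  have hlow : 1 / 2 - δ ≤ ag J t A B := by
    unfold ag
    rw [le_div_iff₀ (by positivity)]
    have h2 : ∀ x ∈ A, ∀ y ∈ B, 1 / 2 - δ ≤ gg J t x y := by
      intro x hx y hy
      by_cases hxy : x = y
      · rw [hxy, gg_refl]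
        linarith
      · have := (abs_le.1 (h x (Finset.mem_union_left _ hx) y (Finset.mem_union_right _ hy) hxy)).1
        linarith
    have h3 := Finset.sum_le_sum fun x hx => Finset.sum_le_sum fun y hy => h2 x hx y hy
    simp only [Finset.sum_const, nsmul_eq_mul] at h3
    linarith
  rw [exp_dd, exp_ov_ag, exp_ov_ag, exp_ov_ag]
  have h1 := hup A hA fun x hx => Finset.mem_union_left _ hx
  have h2 := hup B hB fun x hx => Finset.mem_union_right _ hx
  linarith

/-- many points -/
theorem k_pts {J : V → V → ℝ} (hJ : ∀ x y, 0 ≤ J x y) {t : ℝ} (ht : 0 ≤ t) {k : ℕ}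
    (R : Fin k → Fin k → Prop) (b : Fin k → V) (hb : Function.Injective b)
    {A : Fin k → Finset V} {n : ℕ} (hn : 0 < n) (hA : ∀ i, (A i).card = n) (η : ℝ) (hη : 0 ≤ η)
    (hbA : ∀ i, b i ∈ A i) (h : ∀ i, ∀ x ∈ A i, ∀ y ∈ A i, NN J t (swap x y) ≤ η) {δ : ℝ}
    (hδ : 0 ≤ δ) (hg : ∀ i j, ∀ x ∈ A i, ∀ y ∈ A j, x ≠ y → |gg J t x y - 1 / 2| ≤ δ) :
    |PR J t R b - uR R| ≤ 3 * k * η + 3 * ((k : ℝ) ^ 2 / n) +
      k * Real.sqrt (4 * δ + 2 * (1 / n)) := by
  rcases Nat.eq_zero_or_pos k with hk | hk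
  · subst hk
    have h1 := uR_close J t R b hb 0 le_rfl (fun i => i.elim0)
    rw [abs_sub_comm]
    simpa using h1
  · have hA' : ∀ i, 0 < (A i).card := fun i => by rw [hA i]; exact hn
    obtain ⟨B, hB⟩ : ∃ B : Finset V, B = A ⟨0, hk⟩ := ⟨_, rfl⟩
    have hBc : B.card = n := by rw [hB]; exact hA _
    have hBp : 0 < B.card := by omega
    have h1 := stepA hJ ht R b hb hn hA η hη (fun i v hv => h i _ (hbA i) _ hv)
    have h4 := stepC hJ ht R hn hBc η hη (by rw [hB]; exact h _)
    have h2 : |av A (PR J t R) - av (fun _ : Fin k => B) (PR J t R)| ≤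
        k * Real.sqrt (4 * δ + 2 * (1 / n)) := by
      have h1 : ∀ S : Fin k → Finset V,
          av S (PR J t R) = stirExp J t (fun g => av S (ei R g)) := by
        intro S
        unfold av PR
        simp only [exp_sum]
        unfold stirExp
        rw [Finset.sum_div]
        exact Finset.sum_congr rfl fun g _ => by ring
      rw [h1, h1]
      have h2 : |stirExp J t (fun g => av A (ei R g)) -
          stirExp J t (fun g => av (fun _ : Fin k => B) (ei R g))| ≤
          ∑ i, stirExp J t (fun g => Real.sqrt (dd (A i) B g)) := by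
        rw [exp_sum]
        unfold stirExp
        rw [← Finset.sum_sub_distrib]
        refine (Finset.abs_sum_le_sum_abs _ _).trans (Finset.sum_le_sum fun g _ => ?_)
        rw [← mul_sub, abs_mul, abs_of_nonneg (law_nonneg hJ ht g)]
        exact mul_le_mul_of_nonneg_left (av_all R g hA' B hBp) (law_nonneg hJ ht g)
      refine h2.trans ?_
      have h3 : ∀ i, stirExp J t (fun g => Real.sqrt (dd (A i) B g)) ≤
          Real.sqrt (4 * δ + 2 * (1 / n)) := by
        intro i
        refine (exp_sq_le hJ ht _ (fun g => dd_nonneg _ _ g)).trans (Real.sqrt_le_sqrt ?_)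
        have h4 := dd_le (J := J) (t := t) (A i) B (hA' i) hBp hδ (by
          intro x hx y hy hxy
          rw [hB] at hx hy
          rcases Finset.mem_union.1 hx with hx | hx <;> rcases Finset.mem_union.1 hy with hy | hy
          · exact hg _ _ x hx y hy hxy
          · exact hg _ _ x hx y hy hxy
          · exact hg _ _ x hx y hy hxy
          · exact hg _ _ x hx y hy hxy)
        rw [hA i, hBc] at h4
        linarith
      refine (Finset.sum_le_sum fun i _ => h3 i).trans (le_of_eq ?_)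
      rw [Finset.sum_const, Finset.card_univ, Fintype.card_fin, nsmul_eq_mul]
    rw [abs_le] at h1 h2 h4 ⊢
    constructor <;> linarith [h1.1, h1.2, h2.1, h2.2, h4.1, h4.2]

/-- The Poisson-Dirichlet law for a set close to a set with nearly exchangeable points. -/
theorem pd_pair (m : ℕ) (f : (Fin m → ℝ) → ℝ) (hfc : Continuous f) (C : ℝ)
    (hC : ∀ u, |f u| ≤ C) (ε : ℝ) (hε : 0 < ε) : ∃ δ : ℝ, 0 < δ ∧ ∃ N₀ : ℕ, 0 < N₀ ∧
    ∀ (V : Type) [Fintype V] [DecidableEq V] (J : V → V → ℝ), (∀ x y, 0 ≤ J x y) →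
    ∀ t : ℝ, 0 ≤ t → ∀ S W : Finset V, N₀ ≤ S.card → (∀ x ∈ S, ∀ y ∈ S, NN J t (swap x y) ≤ δ) →
    stirExp J t (fun g => dd S W g) ≤ δ →
    |stirExp J t (fun g => f (fun i => top (bfrac W g) i)) - pdm f| ≤ ε := by
  obtain ⟨Λ, F, hΛ, hFc, hFC, hFl, hFf⟩ := lip_approx m f hfc C hC (ε / 4) (by positivity)
  obtain ⟨δ₀, hδ₀, N₀, hN₀, hpd⟩ := Pool.Agent.Y998.LQ.pd_gen m F hFc C hFC (ε / 4) (by positivity)
  obtain ⟨s, hs⟩ : ∃ s : ℝ, s = (ε / (4 * (Λ + 1))) ^ 2 := ⟨_, rfl⟩
  have hs0 : 0 < s := by rw [hs]; positivity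
  refine ⟨min δ₀ s, lt_min hδ₀ hs0, N₀, hN₀, ?_⟩
  intro V _ _ J hJ t ht S W hS hSη hdd
  have h4 := lip_close hJ ht S W F Λ hΛ hFl
  have h5 : Real.sqrt (stirExp J t (fun g => dd S W g)) ≤ ε / (4 * (Λ + 1)) := by
    rw [show ε / (4 * (Λ + 1)) = Real.sqrt s by
      rw [hs, Real.sqrt_sq (by positivity)]]
    exact Real.sqrt_le_sqrt (hdd.trans (min_le_right _ _))
  have h6 : Λ * Real.sqrt (stirExp J t (fun g => dd S W g)) ≤ ε / 4 := by
    calc Λ * Real.sqrt (stirExp J t (fun g => dd S W g)) ≤ Λ * (ε / (4 * (Λ + 1))) :=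
          mul_le_mul_of_nonneg_left h5 hΛ
      _ = ε / 4 * (Λ / (Λ + 1)) := by field_simp
      _ ≤ ε / 4 * 1 := by
          refine mul_le_mul_of_nonneg_left ?_ (by positivity)
          rw [div_le_one (by positivity)]
          linarith
      _ = ε / 4 := mul_one _
  have h7 := hpd V J hJ t ht S hS (fun x hx y hy => (hSη x hx y hy).trans (min_le_left _ _))
  have h8 : |stirExp J t (fun g => f (fun i => top (bfrac W g) i)) -
      stirExp J t (fun g => F (fun i => top (bfrac W g) i))| ≤ ε / 4 := by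
    unfold stirExp
    rw [← Finset.sum_sub_distrib]
    refine (Finset.abs_sum_le_sum_abs _ _).trans ?_
    have h2 : ∀ g : Perm V, |stirLaw J t g * f (fun i => top (bfrac W g) i) -
        stirLaw J t g * F (fun i => top (bfrac W g) i)| ≤ stirLaw J t g * (ε / 4) := by
      intro g
      rw [← mul_sub, abs_mul, abs_of_nonneg (law_nonneg hJ ht g)]
      have hfin : Finite (Cyc g) := Quotient.finite _
      exact mul_le_mul_of_nonneg_left (hFf _ fun i =>
        ⟨Pool.Agent.TH268.PD.top_nonneg _ (Pool.Agent.Y998.LQ.bfrac_nonneg W g) i,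
          Pool.Agent.TH268.PD.top_le_one _ (Pool.Agent.Y998.LQ.bfrac_nonneg W g)
            (Pool.Agent.Y998.LQ.bfrac_le_one W g) i⟩) (law_nonneg hJ ht g)
    refine (Finset.sum_le_sum fun g _ => h2 g).trans (le_of_eq ?_)
    rw [← Finset.sum_mul, law_sum, one_mul]
  have h9 : |pdm f - pdm F| ≤ ε / 4 := by
    have := pdm_close Pool.Agent.TH268.PD.pdl m f F hfc hFc C hC hFC (ε / 4) hFf 1 zero_le_one
      le_rfl
    simpa only [one_mul] using this
  rw [abs_le] at h4 h7 h8 h9 ⊢
  constructor <;> linarith [h4.1, h4.2, h7.1, h7.2, h8.1, h8.2, h9.1, h9.2]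

end Pool.Agent.Q287.SD
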