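import Pool.Agent.Q287.SD.Ind
import Pool.Agent.Q287.SD.Gen2

/-!
# Points and sets on the torus beyond the diffusive scale
-/

set_option autoImplicit false
set_option linter.unusedSectionVars false

namespace Pool.Agent.Q287.SD

open Finset Equiv
open Pool.Agent.Y998.ST
open Pool.Agent.Y998.LP (NN NN_nonneg law_inv tdist bfrac)
open Pool.Agent.Y998.CN (law_sum nn_trans)
open Pool.Agent.Q295.TP
open Pool.Agent.TH268.PD (top Cyc cyOf ret ret_spec pdm)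

/-- the choice of the small boxes -/
theorem setup {d : ℕ} (hd : 3 ≤ d) {ε δ : ℝ} (hε : 0 < ε) (hδ : 0 < δ) :
    ∃ t₀ : ℝ, 1 ≤ t₀ ∧ ∀ t : ℝ, t₀ ≤ t → ∃ r : ℕ, ∃ η : ℝ, 1 ≤ r ∧ 0 ≤ η ∧ η ≤ δ ∧
      1 / (r : ℝ) ^ d ≤ δ ∧ ∀ (L : ℕ) [NeZero L], 3 ≤ L →
      (∀ x y : Fin d → ZMod L, tdist x y ≤ d * r → NN (nnRate d L) t (swap x y) ≤ η) ∧
      ∀ x y x' y' : Fin d → ZMod L, x' ≠ y' → (tdist x y : ℝ) ≤ t ^ ((d : ℝ) / 4 - ε) →
        tdist x x' ≤ d * r → tdist y y' ≤ d * r → |gg (nnRate d L) t x' y' - 1 / 2| ≤ δ := by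
  have hd0 : (3 : ℝ) ≤ d := by exact_mod_cast hd
  obtain ⟨C, hC, hdist⟩ := Pool.Agent.Y998.LQ.t_dist d (by omega)
  obtain ⟨ε₀, hε₀⟩ : ∃ ε₀ : ℝ, ε₀ = min ε (1 / 8) := ⟨_, rfl⟩
  have h0 : 0 < ε₀ := by rw [hε₀]; exact lt_min hε (by norm_num)
  have h01 : ε₀ ≤ ε := by rw [hε₀]; exact min_le_left _ _
  have h02 : ε₀ ≤ 1 / 8 := by rw [hε₀]; exact min_le_right _ _
  obtain ⟨t₁, ht₁, h1⟩ := P2_all hd (half_pos h0) δ hδ
  obtain ⟨t₂, ht₂, h2⟩ := small_pow (e := 1 / 4) (by norm_num) (C * d) hδ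
  obtain ⟨t₃, ht₃, h3⟩ := small_pow (e := 1 / 4) (by norm_num) 2 hδ
  obtain ⟨t₄, ht₄, h4⟩ := small_pow (half_pos h0) (2 * d + 1) one_pos
  refine ⟨max (max t₁ t₂) (max t₃ t₄), ht₁.trans ((le_max_left _ _).trans (le_max_left _ _)), ?_⟩
  intro t ht
  have hta : t₁ ≤ t := ((le_max_left _ _).trans (le_max_left _ _)).trans ht
  have htb : t₂ ≤ t := ((le_max_right _ _).trans (le_max_left _ _)).trans ht
  have htc : t₃ ≤ t := ((le_max_left _ _).trans (le_max_right _ _)).trans ht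
  have htd : t₄ ≤ t := ((le_max_right _ _).trans (le_max_right _ _)).trans ht
  have ht1 : 1 ≤ t := ht₁.trans hta
  have ht0 : 0 < t := by linarith
  have hst : Real.sqrt t = t ^ (1 / 2 : ℝ) := Real.sqrt_eq_rpow t
  have hpos : ∀ u : ℝ, 0 < t ^ u := fun u => Real.rpow_pos_of_pos ht0 u
  obtain ⟨A, hA⟩ : ∃ A : ℝ, A = t ^ (1 / 4 : ℝ) := ⟨_, rfl⟩
  have hA1 : 1 ≤ A := by rw [hA]; exact Real.one_le_rpow ht1 (by norm_num)
  have hr1 : 1 ≤ ⌊A⌋₊ := Nat.le_floor (by rw [Nat.cast_one]; exact hA1)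
  have hrA : ((⌊A⌋₊ : ℕ) : ℝ) ≤ A := Nat.floor_le (by linarith)
  obtain ⟨r, hr⟩ : ∃ r : ℕ, r = ⌊A⌋₊ := ⟨_, rfl⟩
  rw [← hr] at hr1 hrA
  have hr1R : (1 : ℝ) ≤ r := by exact_mod_cast hr1
  have hAr : A ≤ 2 * r := by
    have := Nat.lt_floor_add_one A
    rw [← hr] at this
    linarith
  refine ⟨r, C * d * t ^ (-(1 / 4) : ℝ), hr1, by positivity, h2 t htb, ?_, ?_⟩
  · refine le_trans ?_ (h3 t htc)
    have e1 : (r : ℝ) ≤ (r : ℝ) ^ d := le_self_pow₀ hr1R (by omega)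
    have e2 : 1 / (r : ℝ) ^ d ≤ 1 / r := one_div_le_one_div_of_le (by linarith) e1
    refine e2.trans ?_
    rw [div_le_iff₀ (by linarith)]
    have e3 : t ^ (-(1 / 4) : ℝ) * A = 1 := by
      rw [hA, ← Real.rpow_add ht0, neg_add_cancel, Real.rpow_zero]
    have e4 := mul_le_mul_of_nonneg_left hAr (hpos (-(1 / 4))).le
    rw [e3] at e4
    linarith
  · intro L _ hL
    refine ⟨?_, ?_⟩
    · intro x y hxy
      refine (hdist L hL t ht0 x y).trans ?_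
      have e1 : (tdist x y : ℝ) ≤ d * r := by exact_mod_cast hxy
      rw [hst, div_le_iff₀ (hpos _), mul_assoc (C * (d : ℝ)), ← Real.rpow_add ht0]
      have e2 : (-(1 / 4) + 1 / 2 : ℝ) = 1 / 4 := by norm_num
      rw [e2, ← hA]
      have e3 : C * (tdist x y : ℝ) ≤ C * (d * r) := mul_le_mul_of_nonneg_left e1 hC.le
      have e4 : C * (d : ℝ) * r ≤ C * d * A := mul_le_mul_of_nonneg_left hrA (by positivity)
      linarith
    · intro x y x' y' hxy' hxy hx hy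
      refine h1 t hta L hL x' y' hxy' ?_
      have e1 : tdist x' y' ≤ tdist x' x + (tdist x y + tdist y y') :=
        (td_tri x' x y').trans (Nat.add_le_add_left (td_tri x y y') _)
      rw [td_symm x' x] at e1
      have e2 : (tdist x' y' : ℝ) ≤ d * r + (t ^ ((d : ℝ) / 4 - ε) + d * r) := by
        have e3 : (tdist x' y' : ℝ) ≤ tdist x x' + (tdist x y + tdist y y') := by exact_mod_cast e1
        have e4 : (tdist x x' : ℝ) ≤ d * r := by exact_mod_cast hx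
        have e5 : (tdist y y' : ℝ) ≤ d * r := by exact_mod_cast hy
        linarith
      refine e2.trans ?_
      have e3 : t ^ ((d : ℝ) / 4 - ε) ≤ t ^ ((d : ℝ) / 4 - ε₀) :=
        Real.rpow_le_rpow_of_exponent_le ht1 (by linarith)
      have e4 : A ≤ t ^ ((d : ℝ) / 4 - ε₀) := by
        rw [hA]
        exact Real.rpow_le_rpow_of_exponent_le ht1 (by linarith)
      have e5 : (d : ℝ) * r ≤ d * t ^ ((d : ℝ) / 4 - ε₀) :=
        mul_le_mul_of_nonneg_left (hrA.trans e4) (by linarith)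
      have e6 : (2 * d + 1) * t ^ ((d : ℝ) / 4 - ε₀) ≤ t ^ ((d : ℝ) / 4 - ε₀ / 2) := by
        have e7 := h4 t htd
        have e8 : t ^ ((d : ℝ) / 4 - ε₀) = t ^ (-(ε₀ / 2)) * t ^ ((d : ℝ) / 4 - ε₀ / 2) := by
          rw [← Real.rpow_add ht0]
          congr 1
          ring
        rw [e8, ← mul_assoc]
        exact mul_le_of_le_one_left (hpos _).le e7
      linarith

/-- many points -/
theorem tor_k {d : ℕ} (hd : 3 ≤ d) {ε : ℝ} (hε : 0 < ε) (k : ℕ) {δ : ℝ} (hδ : 0 < δ) :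
    ∃ t₀ : ℝ, 1 ≤ t₀ ∧ ∀ t : ℝ, t₀ ≤ t → ∀ (L : ℕ) [NeZero L], 3 ≤ L →
      ∀ b : Fin k → Fin d → ZMod L, Function.Injective b →
      (∀ i j, (tdist (b i) (b j) : ℝ) ≤ t ^ ((d : ℝ) / 4 - ε)) →
      ∀ R : Fin k → Fin k → Prop, |PR (nnRate d L) t R b - uR R| ≤ δ := by
  obtain ⟨q, hq⟩ : ∃ q : ℝ, q = (δ / (3 * (k + 1))) ^ 2 := ⟨_, rfl⟩
  have hq0 : 0 < q := by rw [hq]; positivity
  obtain ⟨δ', hδ'⟩ : ∃ δ' : ℝ, δ' = min (q / 8) (δ / (9 * (k + 1) ^ 2)) := ⟨_, rfl⟩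
  have hδ'0 : 0 < δ' := by rw [hδ']; exact lt_min (by positivity) (by positivity)
  have hδ'1 : δ' ≤ q / 8 := by rw [hδ']; exact min_le_left _ _
  have hδ'2 : δ' ≤ δ / (9 * (k + 1) ^ 2) := by rw [hδ']; exact min_le_right _ _
  obtain ⟨t₀, ht₀, h1⟩ := setup hd hε hδ'0
  refine ⟨t₀, ht₀, ?_⟩
  intro t ht L _ hL b hb hbd R
  have ht1 : 1 ≤ t := ht₀.trans ht
  obtain ⟨r, η, hr, hη0, hη1, hrn, hall⟩ := h1 t ht
  obtain ⟨hN, hg⟩ := hall L hL
  have hk0 : (0 : ℝ) ≤ k := Nat.cast_nonneg k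
  have hkδ : 9 * ((k : ℝ) + 1) ^ 2 * δ' ≤ δ := by
    rw [le_div_iff₀ (by positivity)] at hδ'2
    linarith
  have hkη : (k : ℝ) * η ≤ δ / 9 := by
    have e1 : (k : ℝ) * η ≤ k * δ' := mul_le_mul_of_nonneg_left hη1 hk0
    have e2 : (k : ℝ) * δ' ≤ ((k : ℝ) + 1) ^ 2 * δ' := mul_le_mul_of_nonneg_right (by nlinarith)
      hδ'0.le
    linarith
  by_cases hrL : r ≤ L
  · have hbox : ∀ x : Fin d → ZMod L, ∃ A : Finset (Fin d → ZMod L), x ∈ A ∧ A.card = r ^ d ∧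
        ∀ y ∈ A, ∀ z ∈ A, tdist y z ≤ d * r := fun x => exists_box hr hrL x
    choose A hA1 hA2 hA3 using hbox
    have h2 := k_pts (J := nnRate d L) nn_nonneg (by linarith) R b hb
      (A := fun i => A (b i)) (n := r ^ d) (by positivity) (fun i => hA2 _) η hη0
      (fun i => hA1 _) (fun i x hx y hy => hN x y (hA3 _ x hx y hy)) hδ'0.le
      (fun i j x hx y hy hxy => hg (b i) (b j) x y hxy (hbd i j) (hA3 _ _ (hA1 _) x hx)
        (hA3 _ _ (hA1 _) y hy))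
    refine h2.trans ?_
    push_cast
    have e1 : (k : ℝ) ^ 2 / (r : ℝ) ^ d ≤ δ / 9 := by
      have f1 : (k : ℝ) ^ 2 / (r : ℝ) ^ d = (k : ℝ) ^ 2 * (1 / (r : ℝ) ^ d) := by ring
      have f2 : (k : ℝ) ^ 2 * (1 / (r : ℝ) ^ d) ≤ (k : ℝ) ^ 2 * δ' :=
        mul_le_mul_of_nonneg_left hrn (sq_nonneg _)
      have f3 : (k : ℝ) ^ 2 * δ' ≤ ((k : ℝ) + 1) ^ 2 * δ' :=
        mul_le_mul_of_nonneg_right (by nlinarith) hδ'0.le
      rw [f1]
      linarith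
    have e2 : Real.sqrt (4 * δ' + 2 * (1 / (r : ℝ) ^ d)) ≤ δ / (3 * (k + 1)) := by
      have f1 : δ / (3 * ((k : ℝ) + 1)) = Real.sqrt q := by
        rw [hq, Real.sqrt_sq (by positivity)]
      rw [f1]
      exact Real.sqrt_le_sqrt (by linarith)
    have e3 : (k : ℝ) * Real.sqrt (4 * δ' + 2 * (1 / (r : ℝ) ^ d)) ≤ δ / 3 := by
      refine (mul_le_mul_of_nonneg_left e2 hk0).trans ?_
      rw [mul_div_assoc', div_le_div_iff₀ (by positivity) (by norm_num)]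
      nlinarith
    linarith
  · push Not at hrL
    have h2 := uR_close (nnRate d L) t R b hb η hη0 (fun i j => hN _ _ (by
      have e1 := Pool.Agent.Q295.BD.tdist_le (b i) (b j)
      have e2 : tdist (b i) (b j) ≤ d * L := by exact_mod_cast e1
      exact e2.trans (Nat.mul_le_mul_left d hrL.le)))
    rw [abs_sub_comm]
    linarith

/-- sets -/
theorem tor_set {d : ℕ} (hd : 3 ≤ d) {ε : ℝ} (hε : 0 < ε) (m : ℕ) (f : (Fin m → ℝ) → ℝ)
    (hfc : Continuous f) (M : ℝ) (hM : ∀ u, |f u| ≤ M) {δ : ℝ} (hδ : 0 < δ) :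
    ∃ t₀ : ℝ, 1 ≤ t₀ ∧ ∃ N₀ : ℕ, ∀ t : ℝ, t₀ ≤ t → ∀ (L : ℕ) [NeZero L], 3 ≤ L →
      ∀ W : Finset (Fin d → ZMod L), N₀ ≤ W.card →
      (∀ x ∈ W, ∀ y ∈ W, (tdist x y : ℝ) ≤ t ^ ((d : ℝ) / 4 - ε)) →
      |stirExp (nnRate d L) t (fun g => f (fun i => top (bfrac W g) i)) - pdm f| ≤ δ := by
  obtain ⟨δp, hδp, Np, hNp, hpd⟩ := pd_pair m f hfc M hM δ hδ
  obtain ⟨δ', hδ'⟩ : ∃ δ' : ℝ, δ' = min (δp / 8) (1 / (Np + 1)) := ⟨_, rfl⟩
  have hδ'0 : 0 < δ' := by rw [hδ']; exact lt_min (by positivity) (by positivity)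
  have hδ'1 : δ' ≤ δp / 8 := by rw [hδ']; exact min_le_left _ _
  have hδ'2 : δ' ≤ 1 / (Np + 1) := by rw [hδ']; exact min_le_right _ _
  obtain ⟨N₁, hN₁⟩ := exists_nat_gt (8 / δp)
  obtain ⟨t₀, ht₀, h1⟩ := setup hd hε hδ'0
  refine ⟨t₀, ht₀, max Np (N₁ + 1), ?_⟩
  intro t ht L _ hL W hW hWd
  have ht1 : 1 ≤ t := ht₀.trans ht
  obtain ⟨r, η, hr, hη0, hη1, hrn, hall⟩ := h1 t ht
  obtain ⟨hN, hg⟩ := hall L hL
  have hWp : 0 < W.card := by omega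
  have hWR : (0 : ℝ) < W.card := by exact_mod_cast hWp
  have hr0 : (0 : ℝ) < r := by exact_mod_cast hr
  by_cases hrL : r ≤ L
  · obtain ⟨x, hx⟩ := Finset.card_pos.1 hWp
    obtain ⟨S, hxS, hSc, hSd⟩ := exists_box (d := d) hr hrL x
    have hSp : 0 < S.card := by rw [hSc]; positivity
    have hNS : Np ≤ S.card := by
      have e1 : 1 / (r : ℝ) ^ d ≤ 1 / (Np + 1) := hrn.trans hδ'2
      rw [div_le_div_iff₀ (by positivity) (by positivity)] at e1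
      have e2 : (Np : ℝ) ≤ (r : ℝ) ^ d := by linarith
      rw [hSc]
      exact_mod_cast e2
    refine hpd (Fin d → ZMod L) (nnRate d L) nn_nonneg t (by linarith) S W hNS
      (fun x hx y hy => (hN x y (hSd x hx y hy)).trans (by linarith)) ?_
    have h2 := dd_le (J := nnRate d L) (t := t) S W hSp hWp hδ'0.le (by
      have hanch : ∀ p ∈ S ∪ W, ∃ p' ∈ W, tdist p' p ≤ d * r := by
        intro p hp
        rcases Finset.mem_union.1 hp with hp | hp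
        · exact ⟨x, hx, hSd x hxS p hp⟩
        · exact ⟨p, hp, by rw [td_self]; omega⟩
      intro p hp q hq hpq
      obtain ⟨p', hp', hp1⟩ := hanch p hp
      obtain ⟨q', hq', hq1⟩ := hanch q hq
      exact hg p' q' p q hpq (hWd p' hp' q' hq') hp1 hq1)
    refine h2.trans ?_
    have e1 : 1 / (S.card : ℝ) ≤ δp / 8 := by
      rw [hSc]
      push_cast
      linarith
    have e2 : 1 / (W.card : ℝ) ≤ δp / 8 := by
      have e3 : (N₁ : ℝ) < W.card := by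
        exact_mod_cast (show N₁ < W.card by have := (le_max_right Np (N₁ + 1)).trans hW; omega)
      have e4 : 8 / δp ≤ W.card := by linarith
      rw [div_le_iff₀ hδp] at e4
      rw [div_le_iff₀ hWR]
      linarith
    linarith
  · push Not at hrL
    refine hpd (Fin d → ZMod L) (nnRate d L) nn_nonneg t (by linarith) W W
      ((le_max_left _ _).trans hW)
      (fun x hx y hy => (hN x y (by
        have e1 := Pool.Agent.Q295.BD.tdist_le x y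
        have e2 : tdist x y ≤ d * L := by exact_mod_cast e1
        exact e2.trans (Nat.mul_le_mul_left d hrL.le))).trans (by linarith)) ?_
    have e0 : (fun g : Perm (Fin d → ZMod L) => dd W W g) = fun _ => 0 := by
      funext g
      unfold dd
      ring
    rw [e0, exp_const]
    exact hδp.le

/-- the whole torus -/
theorem tor_univ {d : ℕ} (hd : 3 ≤ d) {ε : ℝ} (hε : 0 < ε) (m : ℕ) (f : (Fin m → ℝ) → ℝ)
    (hfc : Continuous f) (M : ℝ) (hM : ∀ u, |f u| ≤ M) {δ : ℝ} (hδ : 0 < δ) :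
    ∃ A : ℝ, 0 < A ∧ ∀ (L : ℕ) [NeZero L], A ≤ L → ∀ t : ℝ,
      (L : ℝ) ^ (4 / (d : ℝ) + ε) ≤ t →
      |stirExp (nnRate d L) t (fun g => f (fun i => top (bfrac univ g) i)) - pdm f| ≤ δ := by
  have hd0 : (3 : ℝ) ≤ d := by exact_mod_cast hd
  obtain ⟨s, hs⟩ : ∃ s : ℝ, s = 4 / (d : ℝ) + ε := ⟨_, rfl⟩
  have hs0 : 0 < s := by rw [hs]; positivity
  obtain ⟨p, hp⟩ : ∃ p : ℝ, p = 1 / s := ⟨_, rfl⟩
  have hp0 : 0 < p := by rw [hp]; positivity
  have hpd : p < (d : ℝ) / 4 := by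
    rw [hp, div_lt_div_iff₀ hs0 (by norm_num), hs]
    have e1 : (d : ℝ) * (4 / d + ε) = 4 + d * ε := by field_simp
    rw [e1]
    have : 0 < (d : ℝ) * ε := by positivity
    linarith
  obtain ⟨ε₁, hε₁⟩ : ∃ ε₁ : ℝ, ε₁ = ((d : ℝ) / 4 - p) / 2 := ⟨_, rfl⟩
  have h1 : 0 < ε₁ := by rw [hε₁]; linarith
  obtain ⟨t₀, ht₀, N₀, h2⟩ := tor_set hd h1 m f hfc M hM hδ
  obtain ⟨t₁, ht₁, h3⟩ := small_pow h1 d one_pos
  refine ⟨3 + N₀ + (max t₀ t₁) ^ p, by positivity, ?_⟩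
  intro L _ hAL t htL
  have hmax0 : 0 < max t₀ t₁ := by
    have := le_max_left t₀ t₁
    linarith
  have hpw : 0 < (max t₀ t₁) ^ p := Real.rpow_pos_of_pos hmax0 p
  have hN0 : (0 : ℝ) ≤ N₀ := Nat.cast_nonneg _
  have hL3 : (3 : ℝ) ≤ L := by linarith
  have hL : 3 ≤ L := by exact_mod_cast hL3
  have hL0 : (0 : ℝ) < L := by linarith
  rw [← hs] at htL
  have hps : p * s = 1 := by rw [hp]; field_simp
  have htmax : max t₀ t₁ ≤ t := by
    refine le_trans ?_ htL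
    have e1 : (max t₀ t₁) ^ p ≤ L := by linarith
    have e2 := Real.rpow_le_rpow hpw.le e1 hs0.le
    rwa [← Real.rpow_mul hmax0.le, hps, Real.rpow_one] at e2
  have hta : t₀ ≤ t := (le_max_left _ _).trans htmax
  have htb : t₁ ≤ t := (le_max_right _ _).trans htmax
  have ht1 : 1 ≤ t := ht₀.trans hta
  have ht0 : 0 < t := by linarith
  refine h2 t hta L hL univ ?_ ?_
  · rw [Finset.card_univ, Fintype.card_fun, ZMod.card, Fintype.card_fin]
    have e1 : (N₀ : ℝ) ≤ L := by linarith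
    have e2 : N₀ ≤ L := by exact_mod_cast e1
    exact e2.trans (Nat.le_self_pow (by omega) L)
  · intro x _ y _
    refine (Pool.Agent.Q295.BD.tdist_le x y).trans ?_
    have e1 : (L : ℝ) ≤ t ^ p := by
      have e2 := Real.rpow_le_rpow (by positivity) htL hp0.le
      rwa [← Real.rpow_mul hL0.le, mul_comm s p, hps, Real.rpow_one] at e2
    have e3 := h3 t htb
    have e4 : t ^ ((d : ℝ) / 4 - ε₁) = t ^ ε₁ * t ^ p := by
      rw [← Real.rpow_add ht0]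
      congr 1
      rw [hε₁]
      ring
    have e5 : (d : ℝ) ≤ t ^ ε₁ := by
      have e6 := mul_le_mul_of_nonneg_right e3 (Real.rpow_pos_of_pos ht0 ε₁).le
      rwa [mul_assoc, ← Real.rpow_add ht0, neg_add_cancel, Real.rpow_zero, mul_one, one_mul] at e6
    rw [e4]
    exact mul_le_mul e5 e1 hL0.le (Real.rpow_pos_of_pos ht0 _).le

end Pool.Agent.Q287.SD
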