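import Pool.Agent.Q287.SD.Box

/-!
# Transfer of expectations to random walks, return probabilities, covariances
-/

set_option autoImplicit false
set_option linter.unusedSectionVars false

namespace Pool.Agent.Q287.SD

open Finset Equiv
open Pool.Agent.Y998.ST
open Pool.Agent.Y998.LP (NN NN_nonneg law_inv)
open Pool.Agent.Y998.CN (law_sum)
open Pool.Agent.Q295.TP (sm sm_nonneg sm_le_one)
open Pool.Agent.Q295.BD (bf bf_nonneg bf_symm sm_toggle sm_symm e_add e_mul)
open Pool.Agent.Y799.PD.PR2 (qq_col)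

variable {V : Type} [Fintype V] [DecidableEq V]

/-- the first `K` points of the orbit -/
def orb (K : ℕ) (g : Perm V) (v : V) : Fin K → V := fun i => (g ^ ((i : ℕ) + 1)) v

/-- total variation between the orbit and the random walk -/
noncomputable def tv1 (J : V → V → ℝ) (K : ℕ) (t : ℝ) (v : V) : ℝ :=
  ∑ y : Fin K → V, |stirExp J t (fun g => if ∀ i : Fin K, (g ^ ((i : ℕ) + 1)) v = y i
    then 1 else 0) - VV J K t (pre v y) y|

theorem tr1 (J : V → V → ℝ) (K : ℕ) (t : ℝ) (v : V) (F : (Fin K → V) → ℝ) {C : ℝ}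
    (hF : ∀ p, |F p| ≤ C) :
    |stirExp J t (fun g => F (orb K g v)) - ∑ p, VV J K t (pre v p) p * F p| ≤
      C * tv1 J K t v := by
  have h1 : stirExp J t (fun g => F (orb K g v)) = ∑ p : Fin K → V,
      stirExp J t (fun g => if ∀ i : Fin K, (g ^ ((i : ℕ) + 1)) v = p i then 1 else 0) * F p := by
    unfold stirExp
    simp only [Finset.sum_mul]
    rw [Finset.sum_comm]
    refine Finset.sum_congr rfl fun g _ => ?_
    have h2 : ∀ p : Fin K → V, stirLaw J t g *
        (if ∀ i : Fin K, (g ^ ((i : ℕ) + 1)) v = p i then 1 else 0) * F p =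
        if orb K g v = p then stirLaw J t g * F p else 0 := by
      intro p
      have h3 : (∀ i : Fin K, (g ^ ((i : ℕ) + 1)) v = p i) ↔ orb K g v = p := by
        unfold orb
        rw [funext_iff]
      simp only [h3]
      split_ifs <;> ring
    simp only [h2]
    rw [Finset.sum_ite_eq, if_pos (Finset.mem_univ _)]
  rw [h1, ← Finset.sum_sub_distrib]
  unfold tv1
  rw [Finset.mul_sum]
  refine (Finset.abs_sum_le_sum_abs _ _).trans (Finset.sum_le_sum fun p _ => ?_)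
  rw [← sub_mul, abs_mul, mul_comm C]
  exact mul_le_mul_of_nonneg_left (hF p) (abs_nonneg _)

theorem tv1_nonneg (J : V → V → ℝ) (K : ℕ) (t : ℝ) (v : V) : 0 ≤ tv1 J K t v :=
  Finset.sum_nonneg fun _ _ => abs_nonneg _

theorem tv1_le {J : V → V → ℝ} (hJ : ∀ x y, 0 ≤ J x y) (hs : ∀ x y, J x y = J y x)
    (h0 : ∀ x, J x x = 0) {K : ℕ} {r : ℝ} (hr : ∀ x, ∑ y, J x y ≤ r) (hr0 : 0 ≤ r)
    {t : ℝ} (ht : 0 ≤ t) (Q : ℕ → ℝ) (hQ0 : ∀ m, 0 ≤ Q m)
    (hQ : ∀ m : ℕ, 0 < m → ∀ a b, qq J (m * t) a b ≤ Q m) (v : V) :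
    tv1 J K t v ≤ 2 * ((1 + 2 * r * t) * (K * ∑ m ∈ Finset.Icc 1 K, Q m)) := by
  have h1 := (main_gen hJ hs h0 (K := K) hr hr0 v ht Q (fun m h1 _ => hQ m h1)).2
  have h2 : ∑ m ∈ Finset.Ioo 0 K, Q m ≤ ∑ m ∈ Finset.Icc 1 K, Q m := by
    refine Finset.sum_le_sum_of_subset_of_nonneg ?_ fun m _ _ => hQ0 m
    intro m hm
    rw [Finset.mem_Ioo] at hm
    rw [Finset.mem_Icc]
    omega
  refine le_trans (le_of_eq ?_) (h1.trans ?_)
  · rfl
  · gcongr

/-- the orbit hits a point -/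
theorem hit1 {J : V → V → ℝ} (hJ : ∀ x y, 0 ≤ J x y) (hs : ∀ x y, J x y = J y x)
    (h0 : ∀ x, J x x = 0) {K : ℕ} {t : ℝ} (ht : 0 ≤ t) (Q : ℕ → ℝ)
    (hQ : ∀ m : ℕ, 0 < m → ∀ a b, qq J (m * t) a b ≤ Q m) (v x y : V) {T : ℝ}
    (hT : tv1 J K t v ≤ T) :
    stirExp J t (fun g => open Classical in
      if ∃ i : Fin K, (g ^ ((i : ℕ) + 1)) v = x ∨ (g ^ ((i : ℕ) + 1)) v = y then 1 else 0) ≤
      T + 2 * ∑ m ∈ Finset.Icc 1 K, Q m := by
  classical
  obtain ⟨F, hF⟩ : ∃ F : (Fin K → V) → ℝ, F = fun p => if ∃ i : Fin K, p i = x ∨ p i = y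
    then 1 else 0 := ⟨_, rfl⟩
  have hF1 : ∀ p, |F p| ≤ 1 := by
    intro p
    rw [hF]
    beta_reduce
    split_ifs <;> norm_num
  have h1 := tr1 J K t v F hF1
  have h2 : (fun g => F (orb K g v)) = fun g : Perm V =>
      if ∃ i : Fin K, (g ^ ((i : ℕ) + 1)) v = x ∨ (g ^ ((i : ℕ) + 1)) v = y then 1 else 0 := by
    rw [hF]
    rfl
  have h3 : ∀ p, VV J K t (pre v p) p * F p ≤ ∑ i : Fin K,
      ((if p i = x then VV J K t (pre v p) p else 0) +
        (if p i = y then VV J K t (pre v p) p else 0)) := by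
    intro p
    have h4 := VV_nonneg hJ K ht (pre v p) p
    have h5 : ∀ i : Fin K, 0 ≤ (if p i = x then VV J K t (pre v p) p else 0) +
        (if p i = y then VV J K t (pre v p) p else 0) := by
      intro i
      split_ifs <;> linarith
    rw [hF]
    beta_reduce
    by_cases h : ∃ i : Fin K, p i = x ∨ p i = y
    · rw [if_pos h, mul_one]
      obtain ⟨i, hi⟩ := h
      refine le_trans ?_ (Finset.single_le_sum (fun i _ => h5 i) (Finset.mem_univ i))
      rcases hi with hi | hi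
      · rw [if_pos hi]
        split_ifs <;> linarith
      · rw [if_pos hi]
        split_ifs <;> linarith
    · rw [if_neg h, mul_zero]
      exact Finset.sum_nonneg fun i _ => h5 i
  have h4 : ∑ p, VV J K t (pre v p) p * F p ≤ 2 * ∑ m ∈ Finset.Icc 1 K, Q m := by
    refine (Finset.sum_le_sum fun p _ => h3 p).trans ?_
    rw [Finset.sum_comm]
    simp only [Finset.sum_add_distrib, marg1 hs h0 t]
    have h5 : ∀ c, ∑ i : Fin K, qq J (((i : ℕ) : ℝ) * t + t) v c ≤ ∑ m ∈ Finset.Icc 1 K, Q m := by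
      intro c
      have h8 : Finset.Icc 1 K = (Finset.range K).image (fun i => i + 1) := by
        ext m
        simp only [Finset.mem_Icc, Finset.mem_image, Finset.mem_range]
        constructor
        · rintro ⟨h1, h2⟩
          exact ⟨m - 1, by omega, by omega⟩
        · rintro ⟨a, h1, rfl⟩
          omega
      rw [Fin.sum_univ_eq_sum_range (fun i : ℕ => qq J ((i : ℝ) * t + t) v c) K, h8,
        Finset.sum_image (fun a _ b _ h => Nat.succ_injective h)]
      refine Finset.sum_le_sum fun i _ => ?_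
      have h6 := hQ (i + 1) (by omega) v c
      have h7 : ((i + 1 : ℕ) : ℝ) * t = (i : ℝ) * t + t := by push_cast; ring
      rwa [h7] at h6
    have := h5 x
    have := h5 y
    linarith
  rw [h2, one_mul] at h1
  have h5 := (abs_le.1 h1).2
  linarith

/-- the orbits come back with small probability -/
theorem good_le {J : V → V → ℝ} (hJ : ∀ x y, 0 ≤ J x y) (hs : ∀ x y, J x y = J y x)
    (h0 : ∀ x, J x x = 0) {K : ℕ} {t : ℝ} (ht : 0 ≤ t) (Q : ℕ → ℝ)
    (hQ : ∀ m : ℕ, 0 < m → ∀ a b, qq J (m * t) a b ≤ Q m) (x y : V) {T : ℝ}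
    (hT : ∀ v, tv1 J K t v ≤ T) :
    stirExp J t (fun g => open Classical in if Good K g x y then 0 else 1) ≤
      2 * (T + 2 * ∑ m ∈ Finset.Icc 1 K, Q m) := by
  classical
  have h1 := hit1 hJ hs h0 ht Q hQ x x y (hT x)
  have h2 := hit1 hJ hs h0 ht Q hQ y x y (hT y)
  have h3 : ∀ g : Perm V, (if Good K g x y then (0 : ℝ) else 1) ≤
      (if ∃ i : Fin K, (g ^ ((i : ℕ) + 1)) x = x ∨ (g ^ ((i : ℕ) + 1)) x = y then 1 else 0) +
      (if ∃ i : Fin K, (g ^ ((i : ℕ) + 1)) y = x ∨ (g ^ ((i : ℕ) + 1)) y = y then 1 else 0) := by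
    intro g
    by_cases hg : Good K g x y
    · rw [if_pos hg]
      split_ifs <;> norm_num
    · rw [if_neg hg]
      unfold Good at hg
      push Not at hg
      obtain ⟨i, hi1, hi2, hi3⟩ := hg
      by_cases ha : ∃ i : Fin K, (g ^ ((i : ℕ) + 1)) x = x ∨ (g ^ ((i : ℕ) + 1)) x = y
      · rw [if_pos ha]
        split_ifs <;> norm_num
      · rw [if_neg ha]
        push Not at ha
        have h4 := ha ⟨i - 1, by omega⟩
        have e1 : i - 1 + 1 = i := by omega
        simp only [e1] at h4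
        have hb : ∃ i : Fin K, (g ^ ((i : ℕ) + 1)) y = x ∨ (g ^ ((i : ℕ) + 1)) y = y := by
          refine ⟨⟨i - 1, by omega⟩, ?_⟩
          simp only [e1]
          by_cases h5 : (g ^ i) y = x
          · exact Or.inl h5
          · exact Or.inr (hi3 h4.1 h4.2 h5)
        rw [if_pos hb]
        norm_num
  have h4 := exp_mono hJ ht h3
  rw [e_add] at h4
  have h5 : stirExp J t (fun g => if Good K g x y then (0 : ℝ) else 1) ≤
      2 * (T + 2 * ∑ m ∈ Finset.Icc 1 K, Q m) := by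
    refine h4.trans ?_
    have h1' : stirExp J t (fun g => if ∃ i : Fin K, (g ^ ((i : ℕ) + 1)) x = x ∨
        (g ^ ((i : ℕ) + 1)) x = y then (1 : ℝ) else 0) ≤ T + 2 * ∑ m ∈ Finset.Icc 1 K, Q m := by
      refine le_trans (le_of_eq ?_) h1
      congr!
    have h2' : stirExp J t (fun g => if ∃ i : Fin K, (g ^ ((i : ℕ) + 1)) y = x ∨
        (g ^ ((i : ℕ) + 1)) y = y then (1 : ℝ) else 0) ≤ T + 2 * ∑ m ∈ Finset.Icc 1 K, Q m := by
      refine le_trans (le_of_eq ?_) h2
      congr!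
    linarith
  refine le_trans (le_of_eq ?_) h5
  congr!

/-- two-orbit transfer, summed over a set of starting points -/
theorem tr2 {J : V → V → ℝ} (K : ℕ) (t : ℝ) (B : Finset V)
    (F : V → V → (Fin K → V) → (Fin K → V) → ℝ) {C : ℝ} (hF : ∀ x y p q, |F x y p q| ≤ C) :
    ∑ x ∈ B, ∑ y ∈ B, |stirExp J t (fun g => F x y (orb K g x) (orb K g y)) -
      ∑ p, ∑ q, VV J K t (pre x p) p * VV J K t (pre y q) q * F x y p q| ≤
    C * ∑ x ∈ B, ∑ y ∈ B, ∑ p : Fin K → V, ∑ q : Fin K → V,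
      |stirExp J t (fun g => if (∀ i : Fin K, (g ^ ((i : ℕ) + 1)) x = p i) ∧
          (∀ i : Fin K, (g ^ ((i : ℕ) + 1)) y = q i) then 1 else 0) -
        (∏ i, hop J t (pre x p i) (p i)) * ∏ i, hop J t (pre y q i) (q i)| := by
  rw [Finset.mul_sum]
  refine Finset.sum_le_sum fun x _ => ?_
  rw [Finset.mul_sum]
  refine Finset.sum_le_sum fun y _ => ?_
  have h1 : stirExp J t (fun g => F x y (orb K g x) (orb K g y)) = ∑ p : Fin K → V,
      ∑ q : Fin K → V,
      stirExp J t (fun g => if (∀ i : Fin K, (g ^ ((i : ℕ) + 1)) x = p i) ∧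
          (∀ i : Fin K, (g ^ ((i : ℕ) + 1)) y = q i) then 1 else 0) * F x y p q := by
    have h0 : ∑ p : Fin K → V, ∑ q : Fin K → V,
        stirExp J t (fun g => if (∀ i : Fin K, (g ^ ((i : ℕ) + 1)) x = p i) ∧
          (∀ i : Fin K, (g ^ ((i : ℕ) + 1)) y = q i) then 1 else 0) * F x y p q =
        ∑ g, ∑ p : Fin K → V, ∑ q : Fin K → V, stirLaw J t g *
        (if (∀ i : Fin K, (g ^ ((i : ℕ) + 1)) x = p i) ∧
          (∀ i : Fin K, (g ^ ((i : ℕ) + 1)) y = q i) then 1 else 0) * F x y p q := by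
      unfold stirExp
      simp only [Finset.sum_mul]
      rw [Finset.sum_congr rfl fun p _ => Finset.sum_comm]
      rw [Finset.sum_comm]
    rw [h0]
    unfold stirExp
    refine Finset.sum_congr rfl fun g _ => ?_
    have h2 : ∀ p q : Fin K → V, stirLaw J t g *
        (if (∀ i : Fin K, (g ^ ((i : ℕ) + 1)) x = p i) ∧
          (∀ i : Fin K, (g ^ ((i : ℕ) + 1)) y = q i) then 1 else 0) * F x y p q =
        if orb K g x = p then (if orb K g y = q then stirLaw J t g * F x y p q else 0) else 0 := by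
      intro p q
      have h3 : (∀ i : Fin K, (g ^ ((i : ℕ) + 1)) x = p i) ↔ orb K g x = p := by
        unfold orb
        rw [funext_iff]
      have h4 : (∀ i : Fin K, (g ^ ((i : ℕ) + 1)) y = q i) ↔ orb K g y = q := by
        unfold orb
        rw [funext_iff]
      simp only [h3, h4]
      by_cases ha : orb K g x = p
      · by_cases hb : orb K g y = q
        · rw [if_pos ⟨ha, hb⟩, if_pos ha, if_pos hb, mul_one]
        · rw [if_neg (fun h => hb h.2), if_pos ha, if_neg hb, mul_zero, zero_mul]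
      · rw [if_neg (fun h => ha h.1), if_neg ha, mul_zero, zero_mul]
    simp only [h2]
    have h5 : ∀ p : Fin K → V, (∑ q : Fin K → V, if orb K g x = p then
        (if orb K g y = q then stirLaw J t g * F x y p q else 0) else 0) =
        if orb K g x = p then stirLaw J t g * F x y p (orb K g y) else 0 := by
      intro p
      by_cases ha : orb K g x = p
      · simp only [if_pos ha]
        rw [Finset.sum_ite_eq, if_pos (Finset.mem_univ _)]
      · simp only [if_neg ha]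
        exact Finset.sum_const_zero
    simp only [h5]
    rw [Finset.sum_ite_eq, if_pos (Finset.mem_univ _)]
  rw [h1]
  have h2 : ∑ p : Fin K → V, ∑ q : Fin K → V,
      stirExp J t (fun g => if (∀ i : Fin K, (g ^ ((i : ℕ) + 1)) x = p i) ∧
          (∀ i : Fin K, (g ^ ((i : ℕ) + 1)) y = q i) then 1 else 0) * F x y p q -
      ∑ p, ∑ q, VV J K t (pre x p) p * VV J K t (pre y q) q * F x y p q =
      ∑ p : Fin K → V, ∑ q : Fin K → V,
      (stirExp J t (fun g => if (∀ i : Fin K, (g ^ ((i : ℕ) + 1)) x = p i) ∧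
          (∀ i : Fin K, (g ^ ((i : ℕ) + 1)) y = q i) then 1 else 0) -
        (∏ i, hop J t (pre x p i) (p i)) * ∏ i, hop J t (pre y q i) (q i)) * F x y p q := by
    rw [← Finset.sum_sub_distrib]
    refine Finset.sum_congr rfl fun p _ => ?_
    rw [← Finset.sum_sub_distrib]
    refine Finset.sum_congr rfl fun q _ => ?_
    rw [sub_mul]
    rfl
  rw [h2, Finset.mul_sum]
  refine (Finset.abs_sum_le_sum_abs _ _).trans (Finset.sum_le_sum fun p _ => ?_)
  rw [Finset.mul_sum]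
  refine (Finset.abs_sum_le_sum_abs _ _).trans (Finset.sum_le_sum fun q _ => ?_)
  rw [abs_mul, mul_comm C]
  exact mul_le_mul_of_nonneg_left (hF x y p q) (abs_nonneg _)

/-- total variation of two orbits, bound -/
noncomputable def tvB (K : ℕ) (r t S β : ℝ) : ℝ :=
  2 * ((3 + 8 * r * t) * (β ^ 2 * (K * S))) + 4 * r * t * β

theorem marg_sum {J : V → V → ℝ} (hs : ∀ x y, J x y = J y x) (h0 : ∀ x, J x x = 0) {K : ℕ}
    (t : ℝ) (i : Fin K) (f : V → ℝ) (x : V) :
    ∑ p : Fin K → V, VV J K t (pre x p) p * f (p i) =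
      ∑ c, qq J ((i : ℕ) * t + t) x c * f c := by
  have h1 : ∀ c, qq J ((i : ℕ) * t + t) x c * f c =
      ∑ p : Fin K → V, (if p i = c then VV J K t (pre x p) p * f c else 0) := by
    intro c
    rw [← marg1 hs h0 t i c x, Finset.sum_mul]
    refine Finset.sum_congr rfl fun p _ => ?_
    split_ifs <;> ring
  simp only [h1]
  rw [Finset.sum_comm]
  refine Finset.sum_congr rfl fun p _ => ?_
  rw [Finset.sum_ite_eq, if_pos (Finset.mem_univ _)]

theorem cov_le {J : V → V → ℝ} (hJ : ∀ x y, 0 ≤ J x y) (hs : ∀ x y, J x y = J y x)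
    (h0 : ∀ x, J x x = 0) {K : ℕ} (hK : 0 < K) {r : ℝ} (hr : ∀ x, ∑ y, J x y ≤ r) (hr0 : 0 ≤ r)
    {t : ℝ} (ht : 0 ≤ t) (Q : ℕ → ℝ) (hQ0 : ∀ m, 0 ≤ Q m)
    (hQ : ∀ m : ℕ, 0 < m → ∀ a b, qq J (m * t) a b ≤ Q m) {a : V → ℝ}
    {A : ℝ} (ha0 : ∀ v, 0 ≤ a v) (ha : ∀ v, a v ≤ A) (B : Finset V) :
    ∑ x ∈ B, ∑ y ∈ B, |stirExp J t (fun g => et J K t a g x * et J K t a g y)| ≤
      A ^ 2 * tvB K r t (∑ m ∈ Finset.Icc 1 K, Q m) B.card := by
  obtain ⟨l, hl⟩ : ∃ l : Fin K, (l : ℕ) + 1 = K := ⟨⟨K - 1, by omega⟩, by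
    change K - 1 + 1 = K; omega⟩
  obtain ⟨F, hF⟩ : ∃ F : V → V → (Fin K → V) → (Fin K → V) → ℝ, F = fun x y p q =>
    (a (p l) - mu J (K * t) a x) * (a (q l) - mu J (K * t) a y) := ⟨_, rfl⟩
  have hKt : 0 ≤ (K : ℝ) * t := by positivity
  have hb : ∀ x v, |a v - mu J (K * t) a x| ≤ A := by
    intro x v
    have h1 := mu_nonneg hJ hKt ha0 x
    have h2 := mu_le hJ hKt ha x
    have h3 := ha0 v
    have h4 := ha v
    rw [abs_le]
    constructor <;> linarith
  have hFb : ∀ x y p q, |F x y p q| ≤ A ^ 2 := by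
    intro x y p q
    rw [hF]
    beta_reduce
    rw [abs_mul, sq]
    exact mul_le_mul (hb _ _) (hb _ _) (abs_nonneg _) ((abs_nonneg _).trans (hb x x))
  have h1 := tr2 (J := J) K t B F hFb
  have h2 := twoB hJ hs h0 K hr hr0 ht Q hQ0 hQ B
  have h3 : ∀ x, ∑ p : Fin K → V, VV J K t (pre x p) p * (a (p l) - mu J (K * t) a x) = 0 := by
    intro x
    have h4 := marg_sum hs h0 t l (fun v => a v - mu J (K * t) a x) x
    rw [h4]
    have e1 : ((l : ℕ) : ℝ) * t + t = K * t := by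
      have : ((l : ℕ) : ℝ) + 1 = K := by exact_mod_cast hl
      rw [← this]
      ring
    rw [e1]
    simp only [mul_sub]
    rw [Finset.sum_sub_distrib, ← Finset.sum_mul, qq_row, one_mul]
    unfold mu
    exact sub_self _
  have h4 : ∀ x y, ∑ p, ∑ q, VV J K t (pre x p) p * VV J K t (pre y q) q * F x y p q = 0 := by
    intro x y
    have h5 : ∑ p, ∑ q, VV J K t (pre x p) p * VV J K t (pre y q) q * F x y p q =
        (∑ p : Fin K → V, VV J K t (pre x p) p * (a (p l) - mu J (K * t) a x)) *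
          ∑ q : Fin K → V, VV J K t (pre y q) q * (a (q l) - mu J (K * t) a y) := by
      rw [Finset.sum_mul_sum]
      refine Finset.sum_congr rfl fun p _ => Finset.sum_congr rfl fun q _ => ?_
      rw [hF]
      ring
    rw [h5, h3, zero_mul]
  have h5 : ∀ x y, stirExp J t (fun g => F x y (orb K g x) (orb K g y)) =
      stirExp J t (fun g => et J K t a g x * et J K t a g y) := by
    intro x y
    rw [hF]
    congr 1
    funext g
    unfold orb et
    beta_reduce
    rw [hl]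
  have h6 : ∑ x ∈ B, ∑ y ∈ B, |stirExp J t (fun g => et J K t a g x * et J K t a g y)| =
      ∑ x ∈ B, ∑ y ∈ B, |stirExp J t (fun g => F x y (orb K g x) (orb K g y)) -
      ∑ p, ∑ q, VV J K t (pre x p) p * VV J K t (pre y q) q * F x y p q| :=
    Finset.sum_congr rfl fun x _ => Finset.sum_congr rfl fun y _ => by rw [h4, h5, sub_zero]
  rw [h6]
  refine h1.trans (mul_le_mul_of_nonneg_left ?_ (sq_nonneg A))
  exact h2

/-- the second moment in a small set -/
theorem secm {J : V → V → ℝ} (hJ : ∀ x y, 0 ≤ J x y) (hs : ∀ x y, J x y = J y x)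
    (h0 : ∀ x, J x x = 0) {K : ℕ} (hK : 0 < K) {r : ℝ} (hr : ∀ x, ∑ y, J x y ≤ r) (hr0 : 0 ≤ r)
    {t : ℝ} (ht : 0 ≤ t) (Q : ℕ → ℝ) (hQ0 : ∀ m, 0 ≤ Q m)
    (hQ : ∀ m : ℕ, 0 < m → ∀ a b, qq J (m * t) a b ≤ Q m) {a : V → ℝ}
    {A : ℝ} (ha0 : ∀ v, 0 ≤ a v) (ha : ∀ v, a v ≤ A) (B : Finset V) {T η κ : ℝ}
    (hT0 : 0 ≤ T) (hT : ∀ v, tv1 J K t v ≤ T) (hη0 : 0 ≤ η) (hκ0 : 0 ≤ κ)
    (hη : ∀ x ∈ B, ∀ y ∈ B, NN J t (swap x y) ≤ η)
    (hκ : ∀ x ∈ B, ∀ y ∈ B, NN J (K * t) (swap x y) ≤ κ) :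
    stirExp J t (fun g => ∑ x ∈ B, ∑ y ∈ B, et J K t a g x * et J K t a g y * sm g x y) ≤
      A ^ 2 * (B.card + (1 / 2) * tvB K r t (∑ m ∈ Finset.Icc 1 K, Q m) B.card +
        (1 / 2) * ((B.card : ℝ) ^ 2 * (η + κ + 2 * (2 * (T + 2 * ∑ m ∈ Finset.Icc 1 K, Q m))))) := by
  obtain ⟨S, hS⟩ : ∃ S : ℝ, S = ∑ m ∈ Finset.Icc 1 K, Q m := ⟨_, rfl⟩
  rw [← hS]
  have hS0 : 0 ≤ S := by rw [hS]; exact Finset.sum_nonneg fun m _ => hQ0 m
  obtain ⟨β, hβ⟩ : ∃ β : ℝ, β = B.card := ⟨_, rfl⟩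
  have hβ0 : 0 ≤ β := by rw [hβ]; exact Nat.cast_nonneg _
  rw [← hβ]
  have hcov := cov_le hJ hs h0 hK hr hr0 ht Q hQ0 hQ ha0 ha B
  rw [← hS, ← hβ] at hcov
  have hP0 : 0 ≤ 2 * (T + 2 * S) := by positivity
  have h1 : ∀ x ∈ B, ∀ y ∈ B, stirExp J t (fun g => et J K t a g x * et J K t a g y * sm g x y) ≤
      (if x = y then A ^ 2 else 0) +
        (1 / 2) * |stirExp J t (fun g => et J K t a g x * et J K t a g y)| +
        (1 / 2) * (A ^ 2 * (η + κ + 2 * (2 * (T + 2 * S)))) := by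
    intro x hx y hy
    have hpos : 0 ≤ (1 / 2) * (A ^ 2 * (η + κ + 2 * (2 * (T + 2 * S)))) := by positivity
    by_cases hxy : x = y
    · rw [if_pos hxy]
      have h2 : stirExp J t (fun g => et J K t a g x * et J K t a g y * sm g x y) ≤
          stirExp J t (fun _ => A ^ 2) := by
        refine exp_mono hJ ht fun g => ?_
        have h3 := et_abs hJ K ht ha0 ha g x
        have h4 := et_abs hJ K ht ha0 ha g y
        have hA : 0 ≤ A := (ha0 x).trans (ha x)
        have h5 : |et J K t a g x * et J K t a g y| ≤ A ^ 2 := by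
          rw [abs_mul, sq]
          exact mul_le_mul h3 h4 (abs_nonneg _) hA
        have h6 := sm_nonneg g x y
        have h7 := sm_le_one g x y
        have h8 := (le_abs_self _).trans h5
        nlinarith [sq_nonneg A]
      rw [exp_const] at h2
      have := abs_nonneg (stirExp J t (fun g => et J K t a g x * et J K t a g y))
      linarith
    · rw [if_neg hxy]
      have h2 := exch hJ hK ht ha0 ha hxy (hη x hx y hy)
        ((mu_close (K * t) (a := a) (A := A) (fun v => by rw [abs_of_nonneg (ha0 v)]; exact ha v)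
          x y).trans (mul_le_mul_of_nonneg_left (hκ x hx y hy) ((ha0 x).trans (ha x))))
        (good_le hJ hs h0 ht Q hQ x y hT)
      rw [← hS] at h2
      have := le_abs_self (stirExp J t (fun g => et J K t a g x * et J K t a g y))
      linarith
  have h2 : stirExp J t (fun g => ∑ x ∈ B, ∑ y ∈ B, et J K t a g x * et J K t a g y * sm g x y) =
      ∑ x ∈ B, ∑ y ∈ B, stirExp J t (fun g => et J K t a g x * et J K t a g y * sm g x y) := by
    simp only [exp_sum]
  rw [h2]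
  refine (Finset.sum_le_sum fun x hx => Finset.sum_le_sum fun y hy => h1 x hx y hy).trans ?_
  simp only [Finset.sum_add_distrib, ← Finset.mul_sum, Finset.sum_const, nsmul_eq_mul]
  have h3 : ∑ x ∈ B, ∑ y ∈ B, (if x = y then A ^ 2 else 0) = β * A ^ 2 := by
    have h4 : ∀ x ∈ B, ∑ y ∈ B, (if x = y then A ^ 2 else 0) = A ^ 2 := by
      intro x hx
      rw [Finset.sum_ite_eq, if_pos hx]
    rw [Finset.sum_congr rfl h4, Finset.sum_const, nsmul_eq_mul, hβ]
  rw [h3, ← hβ]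
  nlinarith

end Pool.Agent.Q287.SD
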