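import Pool.Agent.Q287.SD.Lev

/-!
# The induction over scales
-/

set_option autoImplicit false
set_option linter.unusedSectionVars false

namespace Pool.Agent.Q287.SD

open Finset Equiv
open Pool.Agent.Y998.ST
open Pool.Agent.Y998.LP (NN NN_nonneg law_inv tdist)
open Pool.Agent.Y998.CN (law_sum nn_trans)
open Pool.Agent.Q295.TP (sm sm_nonneg sm_le_one gg gg_trans exists_box)

/-- Two points at distance at most `t ^ γ` are in the same cycle with probability close to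
`1 / 2`, uniformly in the side of the torus. -/
def P2 (d : ℕ) (γ : ℝ) : Prop := ∀ δ : ℝ, 0 < δ → ∃ t₀ : ℝ, 1 ≤ t₀ ∧ ∀ t : ℝ, t₀ ≤ t →
  ∀ (L : ℕ) [NeZero L], 3 ≤ L → ∀ x y : Fin d → ZMod L, x ≠ y → (tdist x y : ℝ) ≤ t ^ γ →
    |gg (nnRate d L) t x y - 1 / 2| ≤ δ

theorem P2_mono {d : ℕ} {γ γ' : ℝ} (h : P2 d γ) (hγ : γ' ≤ γ) : P2 d γ' := by
  intro δ hδ
  obtain ⟨t₀, ht₀, h1⟩ := h δ hδ
  refine ⟨t₀, ht₀, fun t ht L _ hL x y hxy hd => h1 t ht L hL x y hxy (hd.trans ?_)⟩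
  exact Real.rpow_le_rpow_of_exponent_le (ht₀.trans ht) hγ

theorem small_pow {e : ℝ} (he : 0 < e) (C : ℝ) {δ : ℝ} (hδ : 0 < δ) :
    ∃ t₀ : ℝ, 1 ≤ t₀ ∧ ∀ t : ℝ, t₀ ≤ t → C * t ^ (-e) ≤ δ := by
  have h1 : Filter.Tendsto (fun t : ℝ => C * t ^ (-e)) Filter.atTop (nhds (C * 0)) :=
    (tendsto_rpow_neg_atTop he).const_mul C
  rw [mul_zero] at h1
  have h2 := h1.eventually (gt_mem_nhds hδ)
  obtain ⟨t₀, h3⟩ := Filter.eventually_atTop.1 h2
  exact ⟨max t₀ 1, le_max_right _ _, fun t ht => (h3 t ((le_max_left _ _).trans ht)).le⟩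

theorem P2_base {d : ℕ} (hd : 1 ≤ d) {γ : ℝ} (hγ : γ < 1 / 2) : P2 d γ := by
  intro δ hδ
  obtain ⟨C, hC, hdist⟩ := Pool.Agent.Y998.LQ.t_dist d hd
  obtain ⟨t₀, ht₀, h1⟩ := small_pow (e := 1 / 2 - γ) (by linarith) (2 * C) hδ
  refine ⟨t₀, ht₀, fun t ht L _ hL x y hxy hd => ?_⟩
  have ht1 : 1 ≤ t := ht₀.trans ht
  have ht0 : 0 < t := by linarith
  have hst : 0 < Real.sqrt t := Real.sqrt_pos.2 ht0
  have h2 := Pool.Agent.Results.MP_b817cf_pr.LocalPoissonDirichlet.two_points (nnRate d L) t x y hxy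
  have h3 : gg (nnRate d L) t x y = stirExp (nnRate d L) t
      (fun g => open Classical in if g.SameCycle x y then 1 else 0) := by
    unfold gg sm
    congr!
  rw [h3]
  refine h2.trans (le_trans ?_ (h1 t ht))
  have h4 := hdist L hL t ht0 x y
  have h5 : t ^ (-(1 / 2 - γ)) = t ^ γ / Real.sqrt t := by
    rw [Real.sqrt_eq_rpow, ← Real.rpow_sub ht0]
    congr 1
    ring
  rw [h5]
  have h6 : C * (tdist x y : ℝ) / Real.sqrt t ≤ C * t ^ γ / Real.sqrt t := by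
    gcongr
  calc 2 * NN (nnRate d L) t (swap x y) ≤ 2 * (C * t ^ γ / Real.sqrt t) := by linarith
    _ = 2 * C * (t ^ γ / Real.sqrt t) := by ring

/-- the parameters of one step -/
theorem params {d : ℕ} (hd : 3 ≤ d) {e γ ε : ℝ} (hε : 0 < ε) (he : 0 < e)
    (he1 : e ≤ 1 / (64 * (d : ℝ) ^ 2)) (he2 : e ≤ ε / (8 * d)) (hγ1 : 1 / 2 - e ≤ γ)
    (hγ2 : γ ≤ d / 4 - ε) : ∃ C t₁ : ℝ, 0 ≤ C ∧ 1 ≤ t₁ ∧ ∀ t : ℝ, t₁ ≤ t →
    ∃ K r R D : ℕ, 0 < K ∧ 1 ≤ r ∧ r ≤ R ∧ d * R ≤ D ∧ 2 * ((d : ℝ) * R) ≤ t ^ γ ∧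
    ∀ L : ℕ, R ≤ L → ∀ x : ℝ, 0 ≤ x → x ≤ t ^ (γ + e / 2) →
      ((D : ℝ) / R) ^ (2 * d) * (t / (r : ℝ) ^ d + uu d L K t + r / Real.sqrt t) +
        uu d L K t + Real.sqrt (K * t) / D + 1 / (r : ℝ) ^ d + r / Real.sqrt t +
        (x / Real.sqrt (K * t)) ^ 2 ≤ C * t ^ (-e) := by
  have hd0 : (3 : ℝ) ≤ d := by exact_mod_cast hd
  have hdpos : (0 : ℝ) < d := by linarith
  have hde : d * e ≤ 1 / 192 := by
    have h1 : d * e ≤ d * (1 / (64 * (d : ℝ) ^ 2)) := mul_le_mul_of_nonneg_left he1 hdpos.le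
    refine h1.trans ?_
    rw [mul_one_div, div_le_div_iff₀ (by positivity) (by norm_num)]
    nlinarith
  have he3 : e ≤ 1 / 576 := by nlinarith
  have hde2 : d * e ≤ ε / 8 := by
    have h1 : d * e ≤ d * (ε / (8 * d)) := mul_le_mul_of_nonneg_left he2 hdpos.le
    refine h1.trans (le_of_eq ?_)
    field_simp
  have he4 : e ≤ ε / 24 := by nlinarith
  have he5 : e * (4 * d + 1) ≤ 1 / (8 * d) := by
    have h1 : e * (4 * d + 1) ≤ 1 / (64 * (d : ℝ) ^ 2) * (4 * d + 1) :=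
      mul_le_mul_of_nonneg_right he1 (by positivity)
    refine h1.trans ?_
    rw [one_div_mul_eq_div, div_le_div_iff₀ (by positivity) (by positivity)]
    nlinarith
  have hγ0 : 0 < γ := by linarith
  obtain ⟨a, ha⟩ : ∃ a : ℝ, a = 1 / 2 - 1 / (8 * (d : ℝ)) := ⟨_, rfl⟩
  have hda : a * d = d / 2 - 1 / 8 := by
    rw [ha]
    field_simp
  have ha0 : 0 ≤ a := by
    have : 0 ≤ a * d := by rw [hda]; linarith
    exact nonneg_of_mul_nonneg_left this hdpos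
  have hcc : 0 < γ - a := by
    rw [ha]
    have : e < e * (4 * d + 1) := by nlinarith
    linarith
  obtain ⟨t₁, ht₁, h1⟩ := small_pow hcc (2 * d) one_pos
  obtain ⟨CW, hCW⟩ : ∃ CW : ℝ, CW = (8 * (d : ℝ)) ^ (2 * d) := ⟨_, rfl⟩
  obtain ⟨CU, hCU⟩ : ∃ CU : ℝ, CU = 2 + 4 * (4 * (d : ℝ)) ^ d := ⟨_, rfl⟩
  have hCW0 : 0 ≤ CW := by rw [hCW]; positivity
  have hCU0 : 0 ≤ CU := by rw [hCU]; positivity
  refine ⟨CW * (2 ^ d + CU + 1) + CU + 2 + 2 ^ d + 1 + 1, t₁, by positivity, ht₁, ?_⟩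
  intro t ht
  have ht1 : 1 ≤ t := ht₁.trans ht
  have ht0 : 0 < t := by linarith
  have hmono : ∀ {u v : ℝ}, u ≤ v → t ^ u ≤ t ^ v := fun h =>
    Real.rpow_le_rpow_of_exponent_le ht1 h
  have hone : ∀ {u : ℝ}, 0 ≤ u → 1 ≤ t ^ u := fun h => Real.one_le_rpow ht1 h
  have hpos : ∀ u : ℝ, 0 < t ^ u := fun u => Real.rpow_pos_of_pos ht0 u
  have hadd : ∀ u v : ℝ, t ^ u * t ^ v = t ^ (u + v) := fun u v => (Real.rpow_add ht0 u v).symm
  have hst : Real.sqrt t = t ^ (1 / 2 : ℝ) := Real.sqrt_eq_rpow t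
  have hAX : 2 * d * t ^ a ≤ t ^ γ := by
    have h2 := h1 t ht
    have h3 : t ^ γ = t ^ a * t ^ (γ - a) := by rw [hadd]; congr 1; ring
    have h4 : t ^ (-(γ - a)) * t ^ (γ - a) = 1 := by
      rw [hadd, neg_add_cancel, Real.rpow_zero]
    have h5 : 2 * d * t ^ (-(γ - a)) * t ^ (γ - a) = 2 * d := by
      rw [mul_assoc, h4, mul_one]
    have h6 : 2 * d ≤ t ^ (γ - a) := by
      have := mul_le_mul_of_nonneg_right h2 (hpos (γ - a)).le
      rw [h5, one_mul] at this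
      exact this
    rw [h3]
    have := mul_le_mul_of_nonneg_left h6 (hpos a).le
    linarith
  obtain ⟨A, hA⟩ : ∃ A : ℝ, A = t ^ a := ⟨_, rfl⟩
  obtain ⟨X, hX⟩ : ∃ X : ℝ, X = t ^ γ := ⟨_, rfl⟩
  obtain ⟨G, hG⟩ : ∃ G : ℝ, G = t ^ (γ + 2 * e) := ⟨_, rfl⟩
  obtain ⟨H, hH⟩ : ∃ H : ℝ, H = t ^ (2 * γ - 1 + 2 * e) := ⟨_, rfl⟩
  have hA1 : 1 ≤ A := by rw [hA]; exact hone ha0
  have hX1 : 1 ≤ X := by rw [hX]; exact hone hγ0.le
  have hG1 : 1 ≤ G := by rw [hG]; exact hone (by linarith)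
  have hH1 : 1 ≤ H := by rw [hH]; exact hone (by linarith)
  rw [← hA, ← hX] at hAX
  have hXG : X ≤ G := by rw [hX, hG]; exact hmono (by linarith)
  obtain ⟨r, hr⟩ : ∃ r : ℕ, r = ⌊A⌋₊ := ⟨_, rfl⟩
  obtain ⟨R, hR⟩ : ∃ R : ℕ, R = ⌊X / (2 * d)⌋₊ := ⟨_, rfl⟩
  obtain ⟨D, hD⟩ : ∃ D : ℕ, D = ⌈G⌉₊ := ⟨_, rfl⟩
  obtain ⟨K, hK⟩ : ∃ K : ℕ, K = ⌈H⌉₊ := ⟨_, rfl⟩
  have hr1 : 1 ≤ r := by rw [hr]; exact Nat.le_floor (by rw [Nat.cast_one]; exact hA1)
  have hrA : (r : ℝ) ≤ A := by rw [hr]; exact Nat.floor_le (by linarith)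
  have hr1R : (1 : ℝ) ≤ r := by exact_mod_cast hr1
  have hAr : A ≤ 2 * r := by
    have := Nat.lt_floor_add_one A
    rw [← hr] at this
    linarith
  have hAXd : A ≤ X / (2 * d) := by rw [le_div_iff₀ (by positivity)]; linarith
  have hrR : r ≤ R := by rw [hr, hR]; exact Nat.floor_le_floor hAXd
  have hR1 : 1 ≤ R := hr1.trans hrR
  have hR1R : (1 : ℝ) ≤ R := by exact_mod_cast hR1
  have hRX : (R : ℝ) ≤ X / (2 * d) := by rw [hR]; exact Nat.floor_le (by positivity)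
  have hRX2 : 2 * ((d : ℝ) * R) ≤ X := by
    rw [le_div_iff₀ (by positivity)] at hRX
    linarith
  have hXR : X ≤ 4 * d * R := by
    have := Nat.lt_floor_add_one (X / (2 * (d : ℝ)))
    rw [← hR] at this
    have h2 : X / (2 * (d : ℝ)) ≤ 2 * R := by linarith
    rw [div_le_iff₀ (by positivity)] at h2
    linarith
  have hGD : G ≤ D := by rw [hD]; exact Nat.le_ceil G
  have hDG : (D : ℝ) ≤ 2 * G := by
    have := Nat.ceil_lt_add_one (show 0 ≤ G by linarith)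
    rw [← hD] at this
    linarith
  have hHK : H ≤ K := by rw [hK]; exact Nat.le_ceil H
  have hKH : (K : ℝ) ≤ 2 * H := by
    have := Nat.ceil_lt_add_one (show 0 ≤ H by linarith)
    rw [← hK] at this
    linarith
  have hK0 : 0 < K := by
    have : (0 : ℝ) < K := by linarith
    exact_mod_cast this
  have hRD : d * R ≤ D := by
    have h0 : 0 ≤ (d : ℝ) * R := by positivity
    have : (d : ℝ) * R ≤ D := by linarith
    exact_mod_cast this
  refine ⟨K, r, R, D, hK0, hr1, hrR, hRD, by rw [← hX]; exact hRX2, ?_⟩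
  intro L hRL x hx0 hx
  have hRLR : (R : ℝ) ≤ L := by exact_mod_cast hRL
  have hD0 : (0 : ℝ) < D := by linarith
  obtain ⟨T, hT⟩ : ∃ T : ℝ, T = t ^ (-e) := ⟨_, rfl⟩
  obtain ⟨W, hW⟩ : ∃ W : ℝ, W = t ^ (4 * d * e) := ⟨_, rfl⟩
  have hT0 : 0 < T := by rw [hT]; exact hpos _
  have hW1 : 1 ≤ W := by rw [hW]; exact hone (by positivity)
  rw [← hT]
  -- the ratio of the volumes
  have hDR : ((D : ℝ) / R) ^ (2 * d) ≤ CW * W := by
    have h2 : (D : ℝ) / R ≤ 8 * d * t ^ (2 * e) := by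
      rw [div_le_iff₀ (by linarith)]
      have h3 : G = X * t ^ (2 * e) := by rw [hG, hX, hadd]
      have h4 := mul_le_mul_of_nonneg_right hXR (hpos (2 * e)).le
      rw [← h3] at h4
      linarith
    refine (pow_le_pow_left₀ (by positivity) h2 _).trans (le_of_eq ?_)
    rw [mul_pow, ← hCW, hW, ← Real.rpow_natCast (t ^ (2 * e)), ← Real.rpow_mul ht0.le]
    congr 2
    push_cast
    ring
  -- the bounds
  have htr : t / (r : ℝ) ^ d ≤ 2 ^ d * t ^ (9 / 8 - (d : ℝ) / 2) := by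
    have h2 : A ^ d ≤ 2 ^ d * (r : ℝ) ^ d := by
      rw [← mul_pow]
      exact pow_le_pow_left₀ (by linarith) hAr d
    have h3 : A ^ d = t ^ ((d : ℝ) / 2 - 1 / 8) := by
      rw [hA, ← Real.rpow_natCast (t ^ a), ← Real.rpow_mul ht0.le, hda]
    rw [div_le_iff₀ (by positivity)]
    have h4 : t = t ^ (9 / 8 - (d : ℝ) / 2) * A ^ d := by
      rw [h3, hadd]
      conv_lhs => rw [← Real.rpow_one t]
      congr 1
      ring
    calc t = t ^ (9 / 8 - (d : ℝ) / 2) * A ^ d := h4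
      _ ≤ t ^ (9 / 8 - (d : ℝ) / 2) * (2 ^ d * (r : ℝ) ^ d) :=
          mul_le_mul_of_nonneg_left h2 (hpos _).le
      _ = 2 ^ d * t ^ (9 / 8 - (d : ℝ) / 2) * (r : ℝ) ^ d := by ring
  have b1 : W * (t / (r : ℝ) ^ d) ≤ 2 ^ d * T := by
    calc W * (t / (r : ℝ) ^ d) ≤ W * (2 ^ d * t ^ (9 / 8 - (d : ℝ) / 2)) :=
          mul_le_mul_of_nonneg_left htr (by linarith)
      _ = 2 ^ d * (W * t ^ (9 / 8 - (d : ℝ) / 2)) := by ring
      _ ≤ 2 ^ d * T := by
          refine mul_le_mul_of_nonneg_left ?_ (by positivity)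
          rw [hW, hadd, hT]
          exact hmono (by linarith)
  have b5 : 1 / (r : ℝ) ^ d ≤ 2 ^ d * T := by
    refine le_trans ?_ b1
    have h2 : 1 / (r : ℝ) ^ d ≤ t / (r : ℝ) ^ d :=
      div_le_div_of_nonneg_right ht1 (by positivity)
    have h3 : t / (r : ℝ) ^ d ≤ W * (t / (r : ℝ) ^ d) :=
      le_mul_of_one_le_left (by positivity) hW1
    exact h2.trans h3
  have hrt : (r : ℝ) / Real.sqrt t ≤ t ^ (-(1 / (8 * (d : ℝ)))) := by
    rw [hst, div_le_iff₀ (hpos _), hadd]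
    refine hrA.trans (le_of_eq ?_)
    rw [hA, ha]
    congr 1
    ring
  have b3 : W * ((r : ℝ) / Real.sqrt t) ≤ T := by
    refine (mul_le_mul_of_nonneg_left hrt (by linarith)).trans ?_
    rw [hW, hadd, hT]
    exact hmono (by linarith)
  have b6 : (r : ℝ) / Real.sqrt t ≤ T :=
    le_trans (le_mul_of_one_le_left (by positivity) hW1) b3
  have hu1 : K * t ^ (1 - (d : ℝ) / 2) ≤ 2 * t ^ (2 * γ + 2 * e - d / 2) := by
    calc K * t ^ (1 - (d : ℝ) / 2) ≤ 2 * H * t ^ (1 - (d : ℝ) / 2) :=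
          mul_le_mul_of_nonneg_right hKH (hpos _).le
      _ = 2 * t ^ (2 * γ + 2 * e - d / 2) := by
          rw [hH, mul_assoc, hadd]
          congr 2
          ring
  have hu2 : (K : ℝ) ^ 2 * t / (L : ℝ) ^ d ≤
      4 * (4 * (d : ℝ)) ^ d * t ^ (4 * γ - 1 + 4 * e - d * γ) := by
    have hXL : X ^ d ≤ (4 * (d : ℝ)) ^ d * (L : ℝ) ^ d := by
      rw [← mul_pow]
      refine pow_le_pow_left₀ (by linarith) ?_ d
      refine hXR.trans ?_
      exact mul_le_mul_of_nonneg_left hRLR (by positivity)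
    have hXd : X ^ d = t ^ (d * γ) := by
      rw [hX, ← Real.rpow_natCast (t ^ γ), ← Real.rpow_mul ht0.le]
      congr 1
      ring
    have hL0 : (0 : ℝ) < L := by linarith
    rw [div_le_iff₀ (by positivity)]
    have h2 : (K : ℝ) ^ 2 ≤ 4 * H ^ 2 := by
      have h2a := pow_le_pow_left₀ (Nat.cast_nonneg K) hKH 2
      have h2b : (2 * H) ^ 2 = 4 * H ^ 2 := by ring
      rwa [h2b] at h2a
    have h3 : H ^ 2 * t = t ^ (4 * γ - 1 + 4 * e - d * γ) * X ^ d := by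
      rw [hXd, hadd, hH, ← Real.rpow_natCast (t ^ (2 * γ - 1 + 2 * e)), ← Real.rpow_mul ht0.le]
      nth_rewrite 2 [← Real.rpow_one t]
      rw [hadd]
      congr 1
      push_cast
      ring
    calc (K : ℝ) ^ 2 * t ≤ 4 * H ^ 2 * t := mul_le_mul_of_nonneg_right h2 ht0.le
      _ = 4 * (t ^ (4 * γ - 1 + 4 * e - d * γ) * X ^ d) := by rw [← h3]; ring
      _ ≤ 4 * (t ^ (4 * γ - 1 + 4 * e - d * γ) * ((4 * (d : ℝ)) ^ d * (L : ℝ) ^ d)) := by
          refine mul_le_mul_of_nonneg_left (mul_le_mul_of_nonneg_left hXL (hpos _).le) (by norm_num)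
      _ = _ := by ring
  have hdγ : 4 * γ - d * γ ≤ 3 / 4 := by
    rcases Nat.lt_or_ge d 4 with h | h
    · have hd3 : d = 3 := by omega
      subst hd3
      push_cast at hγ2 ⊢
      linarith
    · have h4 : (4 : ℝ) ≤ d := by exact_mod_cast h
      have h5 : 0 ≤ ((d : ℝ) - 4) * γ := mul_nonneg (by linarith) hγ0.le
      have h6 : ((d : ℝ) - 4) * γ = d * γ - 4 * γ := by ring
      rw [h6] at h5
      linarith
  have b2 : W * uu d L K t ≤ CU * T := by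
    unfold uu
    have c1 : W * t ^ (2 * γ + 2 * e - d / 2) ≤ T := by
      rw [hW, hadd, hT]
      exact hmono (by linarith)
    have c2 : W * t ^ (4 * γ - 1 + 4 * e - d * γ) ≤ T := by
      rw [hW, hadd, hT]
      exact hmono (by linarith)
    calc W * (K * t ^ (1 - (d : ℝ) / 2) + (K : ℝ) ^ 2 * t / (L : ℝ) ^ d)
        ≤ W * (2 * t ^ (2 * γ + 2 * e - d / 2) +
          4 * (4 * (d : ℝ)) ^ d * t ^ (4 * γ - 1 + 4 * e - d * γ)) :=
          mul_le_mul_of_nonneg_left (add_le_add hu1 hu2) (by linarith)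
      _ = 2 * (W * t ^ (2 * γ + 2 * e - d / 2)) +
          4 * (4 * (d : ℝ)) ^ d * (W * t ^ (4 * γ - 1 + 4 * e - d * γ)) := by ring
      _ ≤ 2 * T + 4 * (4 * (d : ℝ)) ^ d * T := by
          refine add_le_add (mul_le_mul_of_nonneg_left c1 (by norm_num))
            (mul_le_mul_of_nonneg_left c2 (by positivity))
      _ = CU * T := by rw [hCU]; ring
  have huu0 : 0 ≤ uu d L K t := by unfold uu; positivity
  have b2' : uu d L K t ≤ CU * T := (le_mul_of_one_le_left huu0 hW1).trans b2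
  have hKt1 : (K : ℝ) * t ≤ (2 * t ^ (γ + e)) ^ 2 := by
    have h2 : H * t = (t ^ (γ + e)) ^ 2 := by
      rw [hH, ← Real.rpow_natCast (t ^ (γ + e)), ← Real.rpow_mul ht0.le]
      nth_rewrite 2 [← Real.rpow_one t]
      rw [hadd]
      congr 1
      push_cast
      ring
    have h3 := mul_le_mul_of_nonneg_right hKH ht0.le
    have h4 : 0 ≤ (t ^ (γ + e)) ^ 2 := by positivity
    have h5 : (2 * t ^ (γ + e)) ^ 2 = 4 * (t ^ (γ + e)) ^ 2 := by ring
    rw [h5]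
    have h6 : 2 * H * t = 2 * (t ^ (γ + e)) ^ 2 := by rw [← h2]; ring
    rw [h6] at h3
    linarith
  have hKt2 : (t ^ (γ + e)) ^ 2 ≤ (K : ℝ) * t := by
    have h2 : H * t = (t ^ (γ + e)) ^ 2 := by
      rw [hH, ← Real.rpow_natCast (t ^ (γ + e)), ← Real.rpow_mul ht0.le]
      nth_rewrite 2 [← Real.rpow_one t]
      rw [hadd]
      congr 1
      push_cast
      ring
    rw [← h2]
    exact mul_le_mul_of_nonneg_right hHK ht0.le
  have hs1 : Real.sqrt (K * t) ≤ 2 * t ^ (γ + e) := by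
    rw [← Real.sqrt_sq (show 0 ≤ 2 * t ^ (γ + e) by positivity)]
    exact Real.sqrt_le_sqrt hKt1
  have hs2 : t ^ (γ + e) ≤ Real.sqrt (K * t) := by
    rw [← Real.sqrt_sq (hpos (γ + e)).le]
    exact Real.sqrt_le_sqrt hKt2
  have b4 : Real.sqrt (K * t) / D ≤ 2 * T := by
    rw [div_le_iff₀ hD0]
    refine hs1.trans ?_
    have h2 : t ^ (γ + e) = T * G := by
      rw [hT, hG, hadd]
      congr 1
      ring
    rw [h2]
    have := mul_le_mul_of_nonneg_left hGD hT0.le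
    linarith
  have b7 : (x / Real.sqrt (K * t)) ^ 2 ≤ T := by
    have h2 : x / Real.sqrt (K * t) ≤ t ^ (-(e / 2)) := by
      rw [div_le_iff₀ (lt_of_lt_of_le (hpos _) hs2)]
      calc x ≤ t ^ (γ + e / 2) := hx
        _ = t ^ (-(e / 2)) * t ^ (γ + e) := by rw [hadd]; congr 1; ring
        _ ≤ t ^ (-(e / 2)) * Real.sqrt (K * t) := mul_le_mul_of_nonneg_left hs2 (hpos _).le
    refine (pow_le_pow_left₀ (by positivity) h2 2).trans (le_of_eq ?_)
    rw [hT, ← Real.rpow_natCast (t ^ (-(e / 2))), ← Real.rpow_mul ht0.le]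
    congr 1
    push_cast
    ring
  have hsum0 : 0 ≤ t / (r : ℝ) ^ d + uu d L K t + r / Real.sqrt t := by positivity
  have b8 : ((D : ℝ) / R) ^ (2 * d) * (t / (r : ℝ) ^ d + uu d L K t + r / Real.sqrt t) ≤
      CW * ((2 ^ d + CU + 1) * T) := by
    calc ((D : ℝ) / R) ^ (2 * d) * (t / (r : ℝ) ^ d + uu d L K t + r / Real.sqrt t)
        ≤ CW * W * (t / (r : ℝ) ^ d + uu d L K t + r / Real.sqrt t) :=
          mul_le_mul_of_nonneg_right hDR hsum0
      _ = CW * (W * (t / (r : ℝ) ^ d) + W * uu d L K t + W * (r / Real.sqrt t)) := by ring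
      _ ≤ CW * ((2 ^ d + CU + 1) * T) := by
          refine mul_le_mul_of_nonneg_left ?_ hCW0
          linarith
  linarith

theorem step {d : ℕ} (hd : 3 ≤ d) {e γ ε : ℝ} (hε : 0 < ε) (he : 0 < e)
    (he1 : e ≤ 1 / (64 * (d : ℝ) ^ 2)) (he2 : e ≤ ε / (8 * d)) (hγ1 : 1 / 2 - e ≤ γ)
    (hγ2 : γ ≤ d / 4 - ε) (hP : P2 d γ) : P2 d (γ + e / 2) := by
  intro δ hδ
  obtain ⟨C₀, hC₀, hq⟩ := step_q d hd
  obtain ⟨C₁, t₁, hC₁, ht₁, hpar⟩ := params hd hε he he1 he2 hγ1 hγ2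
  obtain ⟨t₂, ht₂, h2⟩ := small_pow he (C₀ * C₁) (half_pos hδ)
  have hδ' : 0 < min δ (δ / (2 * C₀)) := lt_min hδ (by positivity)
  obtain ⟨t₃, ht₃, h3⟩ := hP _ hδ'
  refine ⟨max t₁ (max t₂ t₃), ht₁.trans (le_max_left _ _), ?_⟩
  intro t ht L _ hL x y hxy hdxy
  have hta : t₁ ≤ t := (le_max_left _ _).trans ht
  have htb : t₂ ≤ t := (le_max_left _ _).trans ((le_max_right _ _).trans ht)
  have htc : t₃ ≤ t := (le_max_right _ _).trans ((le_max_right _ _).trans ht)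
  have ht1 : 1 ≤ t := ht₁.trans hta
  obtain ⟨K, r, R, D, hK, hr, hrR, hRD, hRt, hall⟩ := hpar t hta
  have hR0 : (0 : ℝ) ≤ d * R := by positivity
  by_cases hRL : R ≤ L
  · have h4 := hq L hL t ht1 K hK r R D hr hrR hRL hRD (min δ (δ / (2 * C₀))) hδ'.le
      (fun x y hxy hd => h3 t htc L hL x y hxy (by
        refine le_trans ?_ hRt
        exact_mod_cast hd)) x y hxy
    refine h4.trans ?_
    have h5 := hall L hRL (tdist x y) (Nat.cast_nonneg _) hdxy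
    have h6 := h2 t htb
    have h7 : C₀ * min δ (δ / (2 * C₀)) ≤ δ / 2 := by
      refine (mul_le_mul_of_nonneg_left (min_le_right _ _) (by linarith)).trans (le_of_eq ?_)
      field_simp
    have h8 := mul_le_mul_of_nonneg_left h5 (show 0 ≤ C₀ by linarith)
    linarith
  · push Not at hRL
    refine (h3 t htc L hL x y hxy ?_).trans (min_le_left _ _)
    refine le_trans ?_ hRt
    refine (Pool.Agent.Q295.BD.tdist_le x y).trans ?_
    have : (L : ℝ) ≤ R := by exact_mod_cast hRL.le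
    have h9 : (d : ℝ) * L ≤ d * R := mul_le_mul_of_nonneg_left this (Nat.cast_nonneg _)
    linarith

/-- the two-point function beyond the diffusive scale -/
theorem P2_all {d : ℕ} (hd : 3 ≤ d) {ε : ℝ} (hε : 0 < ε) : P2 d ((d : ℝ) / 4 - ε) := by
  have hd0 : (3 : ℝ) ≤ d := by exact_mod_cast hd
  obtain ⟨e, hedef⟩ : ∃ e : ℝ, e = min (1 / (64 * (d : ℝ) ^ 2)) (ε / (8 * d)) := ⟨_, rfl⟩
  have he : 0 < e := by rw [hedef]; exact lt_min (by positivity) (by positivity)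
  have he1 : e ≤ 1 / (64 * (d : ℝ) ^ 2) := by rw [hedef]; exact min_le_left _ _
  have he2 : e ≤ ε / (8 * d) := by rw [hedef]; exact min_le_right _ _
  have h1 : ∀ j : ℕ, P2 d (min ((d : ℝ) / 4 - ε) (1 / 2 - e + j * (e / 2))) := by
    intro j
    induction j with
    | zero =>
      refine P2_mono (P2_base (γ := 1 / 2 - e) (by omega) (by linarith)) ?_
      rw [Nat.cast_zero, zero_mul, add_zero]
      exact min_le_right _ _
    | succ j ih =>
      rcases le_total ((d : ℝ) / 4 - ε) (1 / 2 - e + j * (e / 2)) with h | h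
      · rw [min_eq_left h] at ih
        exact P2_mono ih (min_le_left _ _)
      · rw [min_eq_right h] at ih
        have h2 : 1 / 2 - e ≤ 1 / 2 - e + j * (e / 2) := by
          have : 0 ≤ (j : ℝ) * (e / 2) := by positivity
          linarith
        refine P2_mono (step hd hε he he1 he2 h2 h ih) ?_
        refine (min_le_right _ _).trans (le_of_eq ?_)
        push_cast
        ring
  obtain ⟨j, hj⟩ := exists_nat_gt (((d : ℝ) / 4 - ε) / (e / 2))
  have h2 := h1 j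
  rw [min_eq_left ?_] at h2
  · exact h2
  · rw [div_lt_iff₀ (by positivity)] at hj
    have h3 : e ≤ 1 / 2 := by
      refine he1.trans ?_
      rw [div_le_div_iff₀ (by positivity) (by norm_num)]
      nlinarith
    linarith

end Pool.Agent.Q287.SD
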