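import Pool.Agent.Q287.SD.Loc
import Pool.Agent.Q295.TP.Tor

/-!
# The two-point function and averages over small sets
-/

set_option autoImplicit false
set_option linter.unusedSectionVars false

namespace Pool.Agent.Q287.SD

open Finset Equiv
open Pool.Agent.Y998.ST
open Pool.Agent.Y998.LP (NN NN_nonneg law_inv tdist)
open Pool.Agent.Y998.CN (law_sum nn_trans)
open Pool.Agent.Q295.TP (sm sm_nonneg sm_le_one gg gg_nonneg gg_le_one conj_tv sm_conj)
open Pool.Agent.Q295.BD (sm_symm)

variable {V : Type} [Fintype V] [DecidableEq V]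

theorem gg_symm (J : V → V → ℝ) (t : ℝ) (x y : V) : gg J t x y = gg J t y x := by
  unfold gg
  simp only [sm_symm _ x y]

/-- moving a point -/
theorem gg_move {J : V → V → ℝ} {t : ℝ} {x p y : V} (h1 : y ≠ x) (h2 : y ≠ p) :
    |gg J t x y - gg J t p y| ≤ 2 * NN J t (swap x p) := by
  obtain ⟨s, hs⟩ : ∃ s : Perm V, s = swap x p := ⟨_, rfl⟩
  have e1 : gg J t p y = ∑ g, stirLaw J t (s * g * s⁻¹) * sm g x y := by
    unfold gg stirExp
    rw [← Equiv.sum_comp (MulAut.conj s).toEquiv]
    refine Finset.sum_congr rfl fun g _ => ?_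
    have e2 : (MulAut.conj s).toEquiv g = s * g * s⁻¹ := rfl
    rw [e2]
    have e3 : s x = p := by rw [hs, swap_apply_left]
    have e4 : s y = y := by rw [hs, swap_apply_of_ne_of_ne h1 h2]
    have e5 := sm_conj g s x y
    rw [e3, e4] at e5
    beta_reduce
    rw [e5]
  have e2 : gg J t x y = ∑ g, stirLaw J t g * sm g x y := rfl
  rw [e1, e2, ← Finset.sum_sub_distrib, hs]
  refine (Finset.abs_sum_le_sum_abs _ _).trans (le_trans (Finset.sum_le_sum fun g _ => ?_)
    (conj_tv J t x p))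
  rw [← sub_mul, abs_mul, abs_of_nonneg (sm_nonneg g x y)]
  exact mul_le_of_le_one_right (abs_nonneg _) (sm_le_one g x y)

/-- average of the two-point function -/
noncomputable def ag (J : V → V → ℝ) (t : ℝ) (X Y : Finset V) : ℝ :=
  (∑ p ∈ X, ∑ q ∈ Y, gg J t p q) / (X.card * Y.card)

theorem near_ag {J : V → V → ℝ} (hJ : ∀ x y, 0 ≤ J x y) {t : ℝ} (ht : 0 ≤ t) {x y : V}
    (hxy : x ≠ y) (X Y : Finset V) (hX : 0 < X.card) (hY : 0 < Y.card) {η : ℝ} (hη : 0 ≤ η)
    (h1 : ∀ p ∈ X, NN J t (swap x p) ≤ η) (h2 : ∀ q ∈ Y, NN J t (swap y q) ≤ η) :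
    |gg J t x y - ag J t X Y| ≤ 4 * η + 1 / X.card + 1 / Y.card := by
  have hXR : (0 : ℝ) < X.card := by exact_mod_cast hX
  have hYR : (0 : ℝ) < Y.card := by exact_mod_cast hY
  have hpt : ∀ p ∈ X, ∀ q ∈ Y, |gg J t x y - gg J t p q| ≤
      4 * η + (if p = y then 1 else 0) + (if p = q then 1 else 0) := by
    intro p hp q hq
    have hone : |gg J t x y - gg J t p q| ≤ 1 :=
      Pool.Agent.Q295.TP.abs_sub_le_one (gg_nonneg hJ ht x y) (gg_le_one hJ ht x y)
        (gg_nonneg hJ ht p q) (gg_le_one hJ ht p q)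
    by_cases hpy : p = y
    · rw [if_pos hpy]
      have : (0 : ℝ) ≤ if p = q then 1 else 0 := by split_ifs <;> norm_num
      linarith
    · by_cases hpq : p = q
      · rw [if_pos hpq, if_neg hpy]
        linarith
      · rw [if_neg hpy, if_neg hpq]
        have h3 := gg_move (J := J) (t := t) (Ne.symm hxy) (Ne.symm hpy)
        have h4 := gg_move (J := J) (t := t) (x := y) (p := q) (y := p) hpy hpq
        rw [gg_symm J t y p, gg_symm J t q p] at h4
        have h5 := abs_sub_le (gg J t x y) (gg J t p y) (gg J t p q)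
        have := h1 p hp
        have := h2 q hq
        linarith
  have e1 : gg J t x y - ag J t X Y = (∑ p ∈ X, ∑ q ∈ Y, (gg J t x y - gg J t p q)) /
      (X.card * Y.card) := by
    unfold ag
    simp only [Finset.sum_sub_distrib, Finset.sum_const, nsmul_eq_mul]
    field_simp
  rw [e1, abs_div, abs_of_pos (show (0 : ℝ) < X.card * Y.card by positivity),
    div_le_iff₀ (by positivity)]
  refine (Finset.abs_sum_le_sum_abs _ _).trans ?_
  have e2 : ∀ p ∈ X, |∑ q ∈ Y, (gg J t x y - gg J t p q)| ≤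
      Y.card * (4 * η) + Y.card * (if p = y then 1 else 0) + 1 := by
    intro p hp
    refine (Finset.abs_sum_le_sum_abs _ _).trans ((Finset.sum_le_sum (hpt p hp)).trans ?_)
    rw [Finset.sum_add_distrib, Finset.sum_add_distrib, Finset.sum_const, Finset.sum_const,
      nsmul_eq_mul, nsmul_eq_mul]
    have e3 : ∑ q ∈ Y, (if p = q then (1 : ℝ) else 0) ≤ 1 := by
      rw [Finset.sum_ite_eq]
      split_ifs <;> norm_num
    linarith
  refine (Finset.sum_le_sum e2).trans ?_
  rw [Finset.sum_add_distrib, Finset.sum_add_distrib, Finset.sum_const, Finset.sum_const,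
      nsmul_eq_mul, nsmul_eq_mul, ← Finset.mul_sum]
  have e4 : ∑ p ∈ X, (if p = y then (1 : ℝ) else 0) ≤ 1 := by
    rw [Finset.sum_ite_eq']
    split_ifs <;> norm_num
  have e5 : (Y.card : ℝ) * ∑ p ∈ X, (if p = y then (1 : ℝ) else 0) ≤ Y.card * 1 :=
    mul_le_mul_of_nonneg_left e4 hYR.le
  have e6 : (4 * η + 1 / (X.card : ℝ) + 1 / Y.card) * (X.card * Y.card) =
      X.card * (Y.card * (4 * η)) + Y.card + X.card := by
    field_simp
  rw [e6]
  linarith

theorem ag_self {J : V → V → ℝ} {t : ℝ}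
    (X : Finset V) (hX : 0 < X.card) {η : ℝ} (hη : 0 ≤ η)
    (h1 : ∀ p ∈ X, ∀ q ∈ X, NN J t (swap p q) ≤ η) :
    1 / 2 - 2 * η ≤ ag J t X X ∧ ag J t X X ≤ 1 / 2 + 2 * η + 1 / X.card := by
  classical
  have hXR : (0 : ℝ) < X.card := by exact_mod_cast hX
  have hpt : ∀ p ∈ X, ∀ q ∈ X, 1 / 2 - 2 * η ≤ gg J t p q ∧
      gg J t p q ≤ 1 / 2 + 2 * η + (if p = q then 1 else 0) := by
    intro p hp q hq
    by_cases hpq : p = q
    · rw [if_pos hpq, hpq, gg_refl]
      constructor <;> linarith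
    · rw [if_neg hpq]
      have h2 := Pool.Agent.Results.MP_b817cf_pr.LocalPoissonDirichlet.two_points J t p q hpq
      have h3 : gg J t p q = stirExp J t (fun g => if g.SameCycle p q then 1 else 0) := by
        unfold gg sm
        congr!
      rw [← h3] at h2
      have := h1 p hp q hq
      rw [abs_le] at h2
      constructor <;> linarith [h2.1, h2.2]
  unfold ag
  rw [le_div_iff₀ (by positivity), div_le_iff₀ (by positivity)]
  constructor
  · have h2 := Finset.sum_le_sum fun p hp => Finset.sum_le_sum fun q hq => (hpt p hp q hq).1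
    simp only [Finset.sum_const, nsmul_eq_mul] at h2
    linarith
  · have h2 := Finset.sum_le_sum fun p hp => Finset.sum_le_sum fun q hq => (hpt p hp q hq).2
    refine h2.trans ?_
    have e2 : ∀ p ∈ X, ∑ q ∈ X, (1 / 2 + 2 * η + (if p = q then (1 : ℝ) else 0)) =
        X.card * (1 / 2 + 2 * η) + 1 := by
      intro p hp
      rw [Finset.sum_add_distrib, Finset.sum_const, nsmul_eq_mul, Finset.sum_ite_eq, if_pos hp]
    rw [Finset.sum_congr rfl e2, Finset.sum_const, nsmul_eq_mul]
    refine le_of_eq ?_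
    field_simp

/-- uniform density -/
noncomputable def un (X : Finset V) (v : V) : ℝ := if v ∈ X then 1 / (X.card : ℝ) else 0

theorem un_nonneg (X : Finset V) (v : V) : 0 ≤ un X v := by
  unfold un
  split_ifs <;> positivity

theorem un_le (X : Finset V) (v : V) : un X v ≤ 1 / X.card := by
  unfold un
  split_ifs
  · exact le_rfl
  · positivity

theorem un_sum (X : Finset V) (hX : 0 < X.card) : ∑ v, un X v = 1 := by
  have hXR : (0 : ℝ) < X.card := by exact_mod_cast hX
  unfold un
  rw [Finset.sum_ite_mem, Finset.univ_inter, Finset.sum_const, nsmul_eq_mul]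
  field_simp

theorem bil_un (J : V → V → ℝ) (t : ℝ) (X Y : Finset V) :
    ∑ x, ∑ y, un X x * un Y y * gg J t x y = ag J t X Y := by
  have e1 : ∀ x, ∑ y, un X x * un Y y * gg J t x y =
      if x ∈ X then (∑ y ∈ Y, gg J t x y) / (X.card * Y.card) else 0 := by
    intro x
    by_cases hx : x ∈ X
    · rw [if_pos hx, Finset.sum_div]
      have e2 : ∀ y, un X x * un Y y * gg J t x y =
          if y ∈ Y then gg J t x y / (X.card * Y.card) else 0 := by
        intro y
        unfold un
        rw [if_pos hx]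
        split_ifs <;> ring
      simp only [e2]
      rw [Finset.sum_ite_mem, Finset.univ_inter]
    · rw [if_neg hx]
      refine Finset.sum_eq_zero fun y _ => ?_
      unfold un
      rw [if_neg hx]
      ring
  simp only [e1]
  rw [Finset.sum_ite_mem, Finset.univ_inter]
  unfold ag
  rw [Finset.sum_div]

theorem Nf_un (J : V → V → ℝ) (t : ℝ) (X Y : Finset V) :
    Nf J t (fun v => un X v - un Y v) = ag J t X X - 2 * ag J t X Y + ag J t Y Y := by
  rw [Nf_eq, ← bil_un, ← bil_un, ← bil_un]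
  have e1 : ∑ x, ∑ y, un X x * un Y y * gg J t x y = ∑ x, ∑ y, un Y x * un X y * gg J t x y := by
    rw [Finset.sum_comm]
    refine Finset.sum_congr rfl fun x _ => Finset.sum_congr rfl fun y _ => ?_
    rw [gg_symm]
    ring
  have e2 : 2 * ∑ x, ∑ y, un X x * un Y y * gg J t x y =
      ∑ x, ∑ y, un X x * un Y y * gg J t x y + ∑ x, ∑ y, un Y x * un X y * gg J t x y := by
    rw [← e1]
    ring
  rw [e2, ← Finset.sum_add_distrib, ← Finset.sum_sub_distrib, ← Finset.sum_add_distrib]
  refine Finset.sum_congr rfl fun x _ => ?_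
  rw [← Finset.sum_add_distrib, ← Finset.sum_sub_distrib, ← Finset.sum_add_distrib]
  exact Finset.sum_congr rfl fun y _ => by ring

/-- the two-point function from the distance of the densities -/
theorem gg_from {J : V → V → ℝ} (hJ : ∀ x y, 0 ≤ J x y) {t : ℝ} (ht : 0 ≤ t) {x y : V}
    (hxy : x ≠ y) (X Y : Finset V) {n : ℕ} (hn : 0 < n) (hX : X.card = n) (hY : Y.card = n)
    (hxX : x ∈ X) (hyY : y ∈ Y) {η : ℝ} (hη : 0 ≤ η)
    (h1 : ∀ p ∈ X, ∀ q ∈ X, NN J t (swap p q) ≤ η)
    (h2 : ∀ p ∈ Y, ∀ q ∈ Y, NN J t (swap p q) ≤ η) :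
    |gg J t x y - 1 / 2| ≤ 6 * η + 3 * (1 / n) + (1 / 2) * Nf J t (fun v => un X v - un Y v) := by
  have hXp : 0 < X.card := by omega
  have hYp : 0 < Y.card := by omega
  have h3 := near_ag hJ ht hxy X Y hXp hYp hη (h1 x hxX) (h2 y hyY)
  have h4 := ag_self X hXp hη h1
  have h5 := ag_self Y hYp hη h2
  have h6 := Nf_un J t X Y
  have h7 := Nf_nonneg hJ ht (fun v => un X v - un Y v)
  rw [hX, hY] at h3
  rw [hX] at h4
  rw [hY] at h5
  have hn0 : (0 : ℝ) ≤ 1 / n := by positivity
  rw [abs_le] at h3 ⊢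
  constructor <;> linarith [h3.1, h3.2, h4.1, h4.2, h5.1, h5.2]

end Pool.Agent.Q287.SD
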