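import Pool.Agent.Q287.SD.Tor
import Pool.Agent.Q287.SD.Two

/-!
# One step of the renormalisation, quantitative form
-/

set_option autoImplicit false
set_option linter.unusedSectionVars false

namespace Pool.Agent.Q287.SD

open Finset Equiv
open Pool.Agent.Y998.ST
open Pool.Agent.Y998.LP (NN NN_nonneg law_inv tdist)
open Pool.Agent.Y998.CN (law_sum nn_trans)
open Pool.Agent.Q295.TP (sm sm_nonneg sm_le_one gg gg_trans exists_box)

/-- translate of a set -/
def tr {V : Type} [DecidableEq V] [Add V] (S : Finset V) (p : V) : Finset V :=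
  S.image (fun q => q + p)

section

variable {V : Type} [Fintype V] [DecidableEq V] [AddCommGroup V]

theorem mem_tr {S : Finset V} {p v : V} : v ∈ tr S p ↔ v - p ∈ S := by
  unfold tr
  rw [Finset.mem_image]
  constructor
  · rintro ⟨q, hq, rfl⟩
    rwa [add_sub_cancel_right]
  · intro h
    exact ⟨v - p, h, sub_add_cancel v p⟩

theorem tr_card (S : Finset V) (p : V) : (tr S p).card = S.card :=
  Finset.card_image_of_injective _ (add_left_injective p)

theorem un_tr (S : Finset V) (p v : V) : un (tr S p) v = un S (v - p) := by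
  unfold un
  rw [tr_card]
  simp only [mem_tr]

end

theorem Nf_five {V : Type} [Fintype V] [DecidableEq V] {J : V → V → ℝ} (hJ : ∀ x y, 0 ≤ J x y)
    {t : ℝ} (ht : 0 ≤ t) (s s' a a' m m' : V → ℝ) :
    Nf J t (fun v => s v - s' v) ≤ 2 * Nf J t (fun v => s v - a v) +
      4 * Nf J t (fun v => a v - m v) + 8 * Nf J t (fun v => m v - m' v) +
      16 * Nf J t (fun v => a' v - m' v) + 16 * Nf J t (fun v => s' v - a' v) := by
  have h1 := Nf_add_le hJ ht (fun v => s v - a v) (fun v => a v - s' v)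
  have h2 := Nf_add_le hJ ht (fun v => a v - m v) (fun v => m v - s' v)
  have h3 := Nf_add_le hJ ht (fun v => m v - m' v) (fun v => m' v - s' v)
  have h4 := Nf_add_le hJ ht (fun v => -(a' v - m' v)) (fun v => -(s' v - a' v))
  rw [Nf_neg, Nf_neg] at h4
  have e1 : (fun v => s v - a v + (a v - s' v)) = fun v => s v - s' v := by funext v; ring
  have e2 : (fun v => a v - m v + (m v - s' v)) = fun v => a v - s' v := by funext v; ring
  have e3 : (fun v => m v - m' v + (m' v - s' v)) = fun v => m v - s' v := by funext v; ring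
  have e4 : (fun v => -(a' v - m' v) + -(s' v - a' v)) = fun v => m' v - s' v := by funext v; ring
  rw [e1] at h1
  rw [e2] at h2
  rw [e3] at h3
  rw [e4] at h4
  linarith

theorem step_q (d : ℕ) (hd : 3 ≤ d) : ∃ C : ℝ, 1 ≤ C ∧ ∀ (L : ℕ) [NeZero L], 3 ≤ L →
    ∀ t : ℝ, 1 ≤ t → ∀ K : ℕ, 0 < K → ∀ r R D : ℕ, 1 ≤ r → r ≤ R → R ≤ L → d * R ≤ D →
    ∀ δ : ℝ, 0 ≤ δ → (∀ x y : Fin d → ZMod L, x ≠ y → tdist x y ≤ 2 * (d * R) →
      |gg (nnRate d L) t x y - 1 / 2| ≤ δ) →
    ∀ x y : Fin d → ZMod L, x ≠ y → |gg (nnRate d L) t x y - 1 / 2| ≤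
      C * (((D : ℝ) / R) ^ (2 * d) * (t / (r : ℝ) ^ d + uu d L K t + r / Real.sqrt t) +
        uu d L K t + Real.sqrt (K * t) / D + δ + 1 / (r : ℝ) ^ d + r / Real.sqrt t +
        (tdist x y / Real.sqrt (K * t)) ^ 2) := by
  obtain ⟨C₁, hC₁, hloc⟩ := tor_loc d hd
  obtain ⟨C₂, hC₂, hdist⟩ := Pool.Agent.Y998.LQ.t_dist d (by omega)
  have hd0 : (3 : ℝ) ≤ d := by exact_mod_cast hd
  obtain ⟨M, hM⟩ : ∃ M : ℝ, M = C₁ * 7 ^ (2 * d) * (1 + 2 * (C₂ * d)) + C₁ * (3 * d) := ⟨_, rfl⟩
  have hM0 : 0 ≤ M := by rw [hM]; positivity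
  refine ⟨10 * M + 36 + 12 + 6 * (C₂ * d) + 4 * C₂ ^ 2, by
    have : 0 ≤ 6 * (C₂ * d) := by positivity
    have := sq_nonneg C₂
    linarith, ?_⟩
  intro L _ hL t ht K hK r R D hr hrR hRL hRD δ hδ hgg x y hxy
  have ht0 : 0 < t := by linarith
  have hKR : (1 : ℝ) ≤ K := by exact_mod_cast hK
  have hst : 0 < Real.sqrt t := Real.sqrt_pos.2 ht0
  have hKt : 0 < (K : ℝ) * t := by positivity
  have hsKt : 0 < Real.sqrt (K * t) := Real.sqrt_pos.2 hKt
  have hsle : Real.sqrt t ≤ Real.sqrt (K * t) := Real.sqrt_le_sqrt (by nlinarith)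
  have hr0 : (0 : ℝ) < r := by exact_mod_cast hr
  have hR1 : 1 ≤ R := hr.trans hrR
  have hR0 : (0 : ℝ) < R := by exact_mod_cast hR1
  have hD1 : 1 ≤ D := by
    have : 1 ≤ d * R := Nat.one_le_iff_ne_zero.2 (by positivity)
    omega
  have hD0 : (0 : ℝ) < D := by exact_mod_cast hD1
  obtain ⟨S, hS0, hSc, hSd⟩ := exists_box (d := d) hr (hrR.trans hRL) (0 : Fin d → ZMod L)
  obtain ⟨T, hT0, hTc, hTd⟩ := exists_box (d := d) hR1 hRL (0 : Fin d → ZMod L)
  have hScp : 0 < S.card := by rw [hSc]; positivity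
  have hTcp : 0 < T.card := by rw [hTc]; positivity
  obtain ⟨u, hu⟩ : ∃ u : ℝ, u = uu d L K t := ⟨_, rfl⟩
  have hu0 : 0 ≤ u := by rw [hu]; unfold uu; positivity
  have hdr : d * r ≤ d * R := Nat.mul_le_mul_left d hrR
  -- exchange in boxes
  have hη : ∀ x y z : Fin d → ZMod L, x - z ∈ S → y - z ∈ S →
      NN (nnRate d L) t (swap x y) ≤ C₂ * d * (r / Real.sqrt t) := by
    intro x y z hx hy
    have h1 := hSd _ hx _ hy
    rw [td_sub] at h1
    have h2 : (tdist x y : ℝ) ≤ d * r := by exact_mod_cast h1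
    refine (hdist L hL t ht0 x y).trans ?_
    rw [div_le_iff₀ hst]
    have e1 : C₂ * d * (r / Real.sqrt t) * Real.sqrt t = C₂ * (d * r) := by
      field_simp
    rw [e1]
    exact mul_le_mul_of_nonneg_left h2 hC₂.le
  have hκ : ∀ x y z : Fin d → ZMod L, x - z ∈ S → y - z ∈ S →
      NN (nnRate d L) (K * t) (swap x y) ≤ C₂ * d * (r / Real.sqrt t) := by
    intro x y z hx hy
    have h1 := hSd _ hx _ hy
    rw [td_sub] at h1
    have h2 : (tdist x y : ℝ) ≤ d * r := by exact_mod_cast h1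
    refine (hdist L hL (K * t) hKt x y).trans ?_
    rw [div_le_iff₀ hsKt]
    have e1 : C₂ * (tdist x y : ℝ) ≤ C₂ * (d * r) := mul_le_mul_of_nonneg_left h2 hC₂.le
    have e2 : C₂ * (d * r) = C₂ * d * (r / Real.sqrt t) * Real.sqrt t := by
      field_simp
    have e3 : C₂ * d * (r / Real.sqrt t) * Real.sqrt t ≤
        C₂ * d * (r / Real.sqrt t) * Real.sqrt (K * t) :=
      mul_le_mul_of_nonneg_left hsle (by positivity)
    linarith
  have hη0 : 0 ≤ C₂ * d * (r / Real.sqrt t) := by positivity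
  -- the densities
  have N1 : ∀ p : Fin d → ZMod L,
      Nf (nnRate d L) t (fun v => un (tr S p) v - un (tr T p) v) ≤ 1 / (r : ℝ) ^ d + 4 * δ := by
    intro p
    refine dens (un (tr S p)) (un (tr T p)) (un_nonneg _) (un_nonneg _) ?_ ?_
      (un_sum _ (by rw [tr_card]; exact hScp)) (un_sum _ (by rw [tr_card]; exact hTcp))
      (by positivity) hδ (tr S p ∪ tr T p) ?_ ?_ ?_
    · intro v
      refine (un_le _ v).trans (le_of_eq ?_)
      rw [tr_card, hSc]
      push_cast
      rfl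
    · intro v
      refine (un_le _ v).trans ?_
      rw [tr_card, hTc]
      push_cast
      refine one_div_le_one_div_of_le (by positivity) ?_
      exact pow_le_pow_left₀ hr0.le (by exact_mod_cast hrR) d
    · intro v hv
      unfold un
      rw [if_neg (fun h => hv (Finset.mem_union_left _ h))]
    · intro v hv
      unfold un
      rw [if_neg (fun h => hv (Finset.mem_union_right _ h))]
    · have hcl : ∀ v ∈ tr S p ∪ tr T p, tdist v p ≤ d * R := by
        intro v hv
        have e1 : tdist (v - p) 0 = tdist v p := by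
          have := td_sub v p p
          rwa [sub_self] at this
        rcases Finset.mem_union.1 hv with h | h
        · have := hSd _ (mem_tr.1 h) _ hS0
          omega
        · have := hTd _ (mem_tr.1 h) _ hT0
          omega
      intro v hv w hw hvw
      refine hgg v w hvw ?_
      have h1 := td_tri v p w
      have h2 := hcl v hv
      have h3 := hcl w hw
      rw [td_symm] at h3
      omega
  have N2 : ∀ p : Fin d → ZMod L, Nf (nnRate d L) t (fun v => un T (v - p) -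
      mu (nnRate d L) (K * t) (fun v => un T (v - p)) v) ≤
      M * (((D : ℝ) / R) ^ (2 * d) * (t / (r : ℝ) ^ d + u + r / Real.sqrt t) + u +
        Real.sqrt (K * t) / D) := by
    intro p
    obtain ⟨Z, hZ⟩ : ∃ Z : Finset (Fin d → ZMod L), Z =
      univ.filter (fun z => tdist z p ≤ d * R + D + d * r) := ⟨_, rfl⟩
    have hZc : (Z.card : ℝ) ≤ (7 * (D : ℝ)) ^ d := by
      have h1 := ball_le p (d * R + D + d * r)
      rw [← hZ] at h1
      have h2 : 2 * (d * R + D + d * r) + 1 ≤ 7 * D := by omega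
      have h3 := h1.trans (Nat.pow_le_pow_left h2 d)
      exact_mod_cast h3
    have hsum1 : ∑ v, un T (v - p) = 1 := by
      have := un_sum (tr T p) (by rw [tr_card]; exact hTcp)
      simpa only [un_tr] using this
    have h1 := hloc L hL t ht K hK (fun v => un T (v - p)) (1 / (R : ℝ) ^ d)
      (fun v => un_nonneg _ _) (fun v => (un_le _ _).trans (le_of_eq (by
        rw [hTc]; push_cast; rfl))) hsum1 (C₂ * d * (r / Real.sqrt t))
      (C₂ * d * (r / Real.sqrt t)) (3 * d * (Real.sqrt (K * t) / D)) hη0 hη0 (by positivity)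
      S Z hScp hη hκ (by
        intro v hv
        have hvT : v - p ∈ T := by
          by_contra h
          apply hv
          unfold un
          rw [if_neg h]
        have hvp : tdist v p ≤ d * R := by
          have e1 : tdist (v - p) 0 = tdist v p := by
            have := td_sub v p p
            rwa [sub_self] at this
          have := hTd _ hvT _ hT0
          omega
        have h2 := disp_far hL hKt.le v hD0 (fun w => 1 - pw S Z w)
          (fun w => by have := pw_nonneg S Z w; linarith) (by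
            intro w hw
            have hw' : tdist v w ≤ D := by exact_mod_cast hw
            have h3 : pw S Z w = 1 := by
              refine pw_one hScp fun z hz => ?_
              rw [hZ, Finset.mem_filter]
              refine ⟨Finset.mem_univ _, ?_⟩
              have e1 : tdist (w - z) 0 = tdist w z := by
                have := td_sub w z z
                rwa [sub_self] at this
              have h4 := hSd _ hz _ hS0
              have h5 := td_tri z w v
              have h6 := td_tri z v p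
              rw [td_symm z w] at h5
              rw [td_symm w v] at h5
              omega
            rw [h3, sub_self])
        refine h2.trans ?_
        have e2 : Real.sqrt (5 * (K * t)) ≤ 3 * Real.sqrt (K * t) := by
          rw [Real.sqrt_mul (by norm_num)]
          refine mul_le_mul_of_nonneg_right ?_ hsKt.le
          rw [Real.sqrt_le_left (by norm_num)]
          norm_num
        rw [div_le_iff₀ hD0]
        have e3 : 3 * d * (Real.sqrt (K * t) / D) * D = d * (3 * Real.sqrt (K * t)) := by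
          field_simp
        rw [e3]
        exact mul_le_mul_of_nonneg_left e2 (by positivity))
    refine h1.trans ?_
    rw [← hu, hSc]
    have hZA : ((Z.card : ℝ) * (1 / (R : ℝ) ^ d)) ^ 2 ≤ 7 ^ (2 * d) * ((D : ℝ) / R) ^ (2 * d) := by
      have e1 : (Z.card : ℝ) * (1 / (R : ℝ) ^ d) ≤ (7 * (D : ℝ)) ^ d * (1 / (R : ℝ) ^ d) :=
        mul_le_mul_of_nonneg_right hZc (by positivity)
      refine (pow_le_pow_left₀ (by positivity) e1 2).trans (le_of_eq ?_)
      rw [mul_one_div, ← div_pow, ← pow_mul, mul_comm d 2, mul_div_assoc, mul_pow]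
    push_cast
    obtain ⟨ρ, hρ⟩ : ∃ ρ : ℝ, ρ = r / Real.sqrt t := ⟨_, rfl⟩
    obtain ⟨W, hW⟩ : ∃ W : ℝ, W = ((D : ℝ) / R) ^ (2 * d) := ⟨_, rfl⟩
    obtain ⟨τ, hτ⟩ : ∃ τ : ℝ, τ = t / (r : ℝ) ^ d := ⟨_, rfl⟩
    obtain ⟨ω, hω⟩ : ∃ ω : ℝ, ω = Real.sqrt (K * t) / D := ⟨_, rfl⟩
    have hρ0 : 0 ≤ ρ := by rw [hρ]; positivity
    have hW0 : 0 ≤ W := by rw [hW]; positivity
    have hτ0 : 0 ≤ τ := by rw [hτ]; positivity
    have hω0 : 0 ≤ ω := by rw [hω]; positivity
    rw [← hρ, ← hW, ← hτ, ← hω]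
    rw [← hW] at hZA
    have e2 : ((Z.card : ℝ) * (1 / (R : ℝ) ^ d)) ^ 2 * (τ + u + C₂ * d * ρ + C₂ * d * ρ) ≤
        (7 ^ (2 * d) * W) * (τ + u + C₂ * d * ρ + C₂ * d * ρ) :=
      mul_le_mul_of_nonneg_right hZA (by positivity)
    have e3 : τ + u + C₂ * d * ρ + C₂ * d * ρ ≤ (1 + 2 * (C₂ * d)) * (τ + u + ρ) := by
      have : 0 ≤ 2 * (C₂ * d) * (τ + u) := by positivity
      linarith
    have e4 : (7 ^ (2 * d) * W) * (τ + u + C₂ * d * ρ + C₂ * d * ρ) ≤
        (7 ^ (2 * d) * W) * ((1 + 2 * (C₂ * d)) * (τ + u + ρ)) :=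
      mul_le_mul_of_nonneg_left e3 (by positivity)
    have e5 : C₁ * (7 ^ (2 * d) * W * ((1 + 2 * (C₂ * d)) * (τ + u + ρ)) + u + 3 * d * ω) ≤
        M * (W * (τ + u + ρ) + u + ω) := by
      have f1 : C₁ * (7 ^ (2 * d) * W * ((1 + 2 * (C₂ * d)) * (τ + u + ρ))) =
          (C₁ * 7 ^ (2 * d) * (1 + 2 * (C₂ * d))) * (W * (τ + u + ρ)) := by ring
      have f2 : (C₁ * 7 ^ (2 * d) * (1 + 2 * (C₂ * d))) * (W * (τ + u + ρ)) ≤
          M * (W * (τ + u + ρ)) := by
        refine mul_le_mul_of_nonneg_right ?_ (by positivity)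
        rw [hM]
        have : 0 ≤ C₁ * (3 * (d : ℝ)) := by positivity
        linarith
      have f3 : C₁ * u + C₁ * (3 * d) * ω ≤ M * (u + ω) := by
        have g1 : C₁ * (3 * (d : ℝ)) ≤ M := by
          rw [hM]
          have : 0 ≤ C₁ * 7 ^ (2 * d) * (1 + 2 * (C₂ * d)) := by positivity
          linarith
        have g2 : C₁ ≤ C₁ * (3 * (d : ℝ)) := by nlinarith
        nlinarith [mul_le_mul_of_nonneg_right g1 hω0, mul_le_mul_of_nonneg_right (g2.trans g1) hu0]
      nlinarith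
    refine le_trans (mul_le_mul_of_nonneg_left ?_ (by linarith : (0 : ℝ) ≤ C₁)) e5
    linarith
  have N3 : Nf (nnRate d L) t (fun v => mu (nnRate d L) (K * t) (fun v => un T (v - x)) v -
      mu (nnRate d L) (K * t) (fun v => un T (v - y)) v) ≤
      C₂ ^ 2 * (tdist x y / Real.sqrt (K * t)) ^ 2 := by
    refine (Nf_l1 nn_nonneg ht0.le _).trans ?_
    have h1 := mu_shift (η := C₂ * (tdist x y / Real.sqrt (K * t))) (K * t) (un T) (un_nonneg T)
      (un_sum T hTcp) x y (by
        intro v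
        refine (hdist L hL (K * t) hKt _ _).trans (le_of_eq ?_)
        rw [add_comm v x, add_comm v y, td_add, mul_div_assoc])
    refine (pow_le_pow_left₀ (Finset.sum_nonneg fun _ _ => abs_nonneg _) h1 2).trans (le_of_eq ?_)
    ring
  have h5 := Nf_five (J := nnRate d L) nn_nonneg ht0.le (un (tr S x)) (un (tr S y))
    (fun v => un T (v - x)) (fun v => un T (v - y))
    (mu (nnRate d L) (K * t) (fun v => un T (v - x)))
    (mu (nnRate d L) (K * t) (fun v => un T (v - y)))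
  have h6 := gg_from (J := nnRate d L) nn_nonneg ht0.le hxy (tr S x) (tr S y)
    (n := r ^ d) (by positivity) (by rw [tr_card, hSc]) (by rw [tr_card, hSc])
    (mem_tr.2 (by rw [sub_self]; exact hS0)) (mem_tr.2 (by rw [sub_self]; exact hS0)) hη0
    (fun p hp q hq => hη p q x (mem_tr.1 hp) (mem_tr.1 hq))
    (fun p hp q hq => hη p q y (mem_tr.1 hp) (mem_tr.1 hq))
  have a1 := N1 x
  have a2 := N1 y
  simp only [un_tr _ x] at a1
  simp only [un_tr _ y] at a2
  have a3 := N2 x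
  have a4 := N2 y
  simp only [un_tr] at h5 h6 a1 a2
  push_cast at h6
  rw [← hu]
  obtain ⟨E, hE⟩ : ∃ E : ℝ, E = ((D : ℝ) / R) ^ (2 * d) * (t / (r : ℝ) ^ d + u + r / Real.sqrt t)
    := ⟨_, rfl⟩
  have hE0 : 0 ≤ E := by rw [hE]; positivity
  rw [← hE] at a3 a4 ⊢
  obtain ⟨ω, hω⟩ : ∃ ω : ℝ, ω = Real.sqrt (K * t) / D := ⟨_, rfl⟩
  have hω0 : 0 ≤ ω := by rw [hω]; positivity
  rw [← hω] at a3 a4 ⊢
  obtain ⟨ρ, hρ⟩ : ∃ ρ : ℝ, ρ = r / Real.sqrt t := ⟨_, rfl⟩
  have hρ0 : 0 ≤ ρ := by rw [hρ]; positivity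
  rw [← hρ] at h6 ⊢
  obtain ⟨ν, hν⟩ : ∃ ν : ℝ, ν = 1 / (r : ℝ) ^ d := ⟨_, rfl⟩
  have hν0 : 0 ≤ ν := by rw [hν]; positivity
  rw [← hν] at h6 a1 a2 ⊢
  obtain ⟨θ, hθ⟩ : ∃ θ : ℝ, θ = (tdist x y / Real.sqrt (K * t)) ^ 2 := ⟨_, rfl⟩
  have hθ0 : 0 ≤ θ := by rw [hθ]; positivity
  rw [← hθ] at N3 ⊢
  refine h6.trans ?_
  have b1 : 0 ≤ C₂ * (d : ℝ) := by positivity
  have b2 := sq_nonneg C₂
  have b3 : (1 / 2) * Nf (nnRate d L) t (fun v => un S (v - x) - un S (v - y)) ≤
      9 * (ν + 4 * δ) + 10 * (M * (E + u + ω)) + 4 * (C₂ ^ 2 * θ) := by linarith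
  have b4 : 0 ≤ E + u + ω + δ + ν + ρ + θ := by positivity
  have b5 : 10 * (M * (E + u + ω)) ≤ 10 * M * (E + u + ω + δ + ν + ρ + θ) := by
    have : 0 ≤ M * (δ + ν + ρ + θ) := by positivity
    linarith
  have b6 : 6 * (C₂ * d * ρ) ≤ 6 * (C₂ * d) * (E + u + ω + δ + ν + ρ + θ) := by
    have : 0 ≤ (C₂ * d) * (E + u + ω + δ + ν + θ) := by positivity
    linarith
  have b7 : 4 * (C₂ ^ 2 * θ) ≤ 4 * C₂ ^ 2 * (E + u + ω + δ + ν + ρ + θ) := by
    have : 0 ≤ C₂ ^ 2 * (E + u + ω + δ + ν + ρ) := by positivity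
    linarith
  have b8 : 3 * ν + 9 * (ν + 4 * δ) ≤ (36 + 12) * (E + u + ω + δ + ν + ρ + θ) := by
    have : 0 ≤ E + u + ω + ρ + θ := by positivity
    linarith
  linarith

end Pool.Agent.Q287.SD
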