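import Pool.Agent.Q287.SD.Hit
import Pool.Agent.Q295.BD.Quad

/-!
# Localisation: functions and their averages under the walk
-/

set_option autoImplicit false
set_option linter.unusedSectionVars false

namespace Pool.Agent.Q287.SD

open Finset Equiv
open Pool.Agent.Y998.ST
open Pool.Agent.Y998.LP (NN NN_nonneg law_inv)
open Pool.Agent.Y998.CN (law_sum)
open Pool.Agent.Q295.TP (sm sm_nonneg sm_le_one gg)
open Pool.Agent.Q295.BD (bf bf_nonneg bf_symm sm_toggle sm_symm e_add e_mul bf_young bf_move wt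
  wt_nonneg wt_sum' wt_sq)
open Pool.Agent.Y799.PD.PR2 (qq_col)

section gen

variable {V : Type} [Fintype V] [DecidableEq V]

/-- expected value of the form -/
noncomputable def Nf (J : V → V → ℝ) (t : ℝ) (φ : V → ℝ) : ℝ := stirExp J t (fun g => bf g φ φ)

theorem Nf_nonneg {J : V → V → ℝ} (hJ : ∀ x y, 0 ≤ J x y) {t : ℝ} (ht : 0 ≤ t) (φ : V → ℝ) :
    0 ≤ Nf J t φ := exp_nonneg hJ ht fun g => bf_nonneg g φ

theorem bf_add_le (g : Perm V) (φ ψ : V → ℝ) :
    bf g (fun x => φ x + ψ x) (fun x => φ x + ψ x) ≤ 2 * bf g φ φ + 2 * bf g ψ ψ := by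
  have h1 := bf_young g φ ψ 1 1
  have h2 : bf g (fun x => φ x + ψ x) (fun x => φ x + ψ x) =
      bf g φ φ + bf g φ ψ + bf g ψ φ + bf g ψ ψ := by
    unfold bf
    simp only [← Finset.sum_add_distrib]
    exact Finset.sum_congr rfl fun x _ => Finset.sum_congr rfl fun y _ => by ring
  rw [h2, bf_symm g ψ φ]
  linarith

theorem Nf_add_le {J : V → V → ℝ} (hJ : ∀ x y, 0 ≤ J x y) {t : ℝ} (ht : 0 ≤ t) (φ ψ : V → ℝ) :
    Nf J t (fun x => φ x + ψ x) ≤ 2 * Nf J t φ + 2 * Nf J t ψ := by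
  unfold Nf
  rw [← e_mul, ← e_mul, ← e_add]
  exact exp_mono hJ ht fun g => bf_add_le g φ ψ

theorem Nf_neg (J : V → V → ℝ) (t : ℝ) (φ : V → ℝ) : Nf J t (fun x => -φ x) = Nf J t φ := by
  unfold Nf
  congr 1
  funext g
  unfold bf
  exact Finset.sum_congr rfl fun x _ => Finset.sum_congr rfl fun y _ => by ring

theorem bf_l1 (g : Perm V) (φ : V → ℝ) : bf g φ φ ≤ (∑ x, |φ x|) ^ 2 := by
  rw [sq, Finset.sum_mul_sum]
  unfold bf
  refine Finset.sum_le_sum fun x _ => Finset.sum_le_sum fun y _ => ?_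
  have h1 := le_abs_self (φ x * φ y)
  rw [abs_mul] at h1
  have h2 := sm_nonneg g x y
  have h3 := sm_le_one g x y
  have h4 : 0 ≤ |φ x| * |φ y| := by positivity
  nlinarith

theorem Nf_l1 {J : V → V → ℝ} (hJ : ∀ x y, 0 ≤ J x y) {t : ℝ} (ht : 0 ≤ t) (φ : V → ℝ) :
    Nf J t φ ≤ (∑ x, |φ x|) ^ 2 := by
  unfold Nf
  refine (exp_mono hJ ht fun g => bf_l1 g φ).trans ?_
  rw [exp_const]

theorem Nf_eq (J : V → V → ℝ) (t : ℝ) (φ : V → ℝ) :
    Nf J t φ = ∑ x, ∑ y, φ x * φ y * gg J t x y := by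
  unfold Nf bf gg
  have h1 : ∀ x y, φ x * φ y * stirExp J t (fun g => sm g x y) =
      stirExp J t (fun g => φ x * φ y * sm g x y) := fun x y => (e_mul J t _ _).symm
  simp only [h1, exp_sum]

theorem bf_pow (g : Perm V) (n : ℕ) (u v : V → ℝ) :
    bf g (fun x => u ((g ^ n) x)) v = bf g u v := by
  induction n generalizing u with
  | zero => rfl
  | succ n ih =>
    have h1 : (fun x => u ((g ^ (n + 1)) x)) = fun x => (fun y => u (g y)) ((g ^ n) x) := by
      funext x
      rw [pow_succ', Perm.mul_apply]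
    rw [h1, ih (fun y => u (g y)), bf_move]

/-- the centred function and the function shifted by the power of the permutation -/
theorem bf_et (J : V → V → ℝ) (K : ℕ) (t : ℝ) (a : V → ℝ) (g : Perm V) :
    bf g (fun x => a x - mu J (K * t) a x) (fun x => a x - mu J (K * t) a x) =
      bf g (et J K t a g) (et J K t a g) := by
  obtain ⟨m, hm⟩ : ∃ m : V → ℝ, m = mu J (K * t) a := ⟨_, rfl⟩
  obtain ⟨c, hc⟩ : ∃ c : V → ℝ, c = fun x => a ((g ^ K) x) := ⟨_, rfl⟩
  have e1 : et J K t a g = fun x => c x - m x := by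
    funext x
    rw [hc, hm]
    rfl
  have hexp : ∀ u : V → ℝ, bf g (fun x => u x - m x) (fun x => u x - m x) =
      bf g u u - bf g u m - bf g m u + bf g m m := by
    intro u
    unfold bf
    simp only [← Finset.sum_add_distrib, ← Finset.sum_sub_distrib]
    exact Finset.sum_congr rfl fun x _ => Finset.sum_congr rfl fun y _ => by ring
  rw [e1, ← hm, hexp, hexp]
  have h1 : bf g c m = bf g a m := by rw [hc]; exact bf_pow g K a m
  have h2 : bf g m c = bf g m a := by rw [bf_symm, h1, bf_symm]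
  have h3 : bf g c c = bf g a a := by
    have h4 : bf g c c = bf g a c := by
      have := bf_pow g K a c
      rw [← this, hc]
    rw [h4, bf_symm, hc]
    exact bf_pow g K a a
  rw [h1, h2, h3]

/-- convexity -/
theorem bf_sum_le {ι : Type} (g : Perm V) (Z : Finset ι) (ψ : ι → V → ℝ) :
    bf g (fun x => ∑ z ∈ Z, ψ z x) (fun x => ∑ z ∈ Z, ψ z x) ≤
      Z.card * ∑ z ∈ Z, bf g (ψ z) (ψ z) := by
  have h1 : bf g (fun x => ∑ z ∈ Z, ψ z x) (fun x => ∑ z ∈ Z, ψ z x) =
      ∑ z ∈ Z, ∑ z' ∈ Z, bf g (ψ z) (ψ z') := by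
    unfold bf
    have h2 : ∀ x y, (∑ z ∈ Z, ψ z x) * (∑ z ∈ Z, ψ z y) * sm g x y =
        ∑ z ∈ Z, ∑ z' ∈ Z, ψ z x * ψ z' y * sm g x y := by
      intro x y
      rw [Finset.sum_mul_sum, Finset.sum_mul]
      refine Finset.sum_congr rfl fun z _ => ?_
      rw [Finset.sum_mul]
    simp only [h2]
    calc ∑ x, ∑ y, ∑ z ∈ Z, ∑ z' ∈ Z, ψ z x * ψ z' y * sm g x y
        = ∑ x, ∑ z ∈ Z, ∑ y, ∑ z' ∈ Z, ψ z x * ψ z' y * sm g x y :=
          Finset.sum_congr rfl fun x _ => Finset.sum_comm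
      _ = ∑ z ∈ Z, ∑ x, ∑ y, ∑ z' ∈ Z, ψ z x * ψ z' y * sm g x y := Finset.sum_comm
      _ = ∑ z ∈ Z, ∑ x, ∑ z' ∈ Z, ∑ y, ψ z x * ψ z' y * sm g x y :=
          Finset.sum_congr rfl fun z _ => Finset.sum_congr rfl fun x _ => Finset.sum_comm
      _ = ∑ z ∈ Z, ∑ z' ∈ Z, ∑ x, ∑ y, ψ z x * ψ z' y * sm g x y :=
          Finset.sum_congr rfl fun z _ => Finset.sum_comm
  rw [h1]
  have h2 : ∀ z ∈ Z, ∀ z' ∈ Z, bf g (ψ z) (ψ z') ≤
      (1 / 2) * bf g (ψ z) (ψ z) + (1 / 2) * bf g (ψ z') (ψ z') := by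
    intro z _ z' _
    have := bf_young g (ψ z) (ψ z') 1 1
    linarith
  refine (Finset.sum_le_sum fun z hz => Finset.sum_le_sum fun z' hz' => h2 z hz z' hz').trans ?_
  simp only [Finset.sum_add_distrib, Finset.sum_const, nsmul_eq_mul, ← Finset.mul_sum]
  linarith

end gen

section grp

variable {V : Type} [Fintype V] [DecidableEq V] [AddCommGroup V]

/-- partition of unity -/
noncomputable def pw (S Z : Finset V) (x : V) : ℝ := (∑ z ∈ Z, wt S z x) / S.card

theorem pw_nonneg (S Z : Finset V) (x : V) : 0 ≤ pw S Z x :=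
  div_nonneg (Finset.sum_nonneg fun z _ => wt_nonneg S z x) (Nat.cast_nonneg _)

theorem pw_le_one (S Z : Finset V) (x : V) : pw S Z x ≤ 1 := by
  unfold pw
  rcases Nat.eq_zero_or_pos S.card with h | h
  · rw [h, Nat.cast_zero, div_zero]
    exact zero_le_one
  · rw [div_le_one (by exact_mod_cast h), ← Pool.Agent.Q295.BD.wt_sum S x]
    exact Finset.sum_le_sum_of_subset_of_nonneg (Finset.subset_univ _)
      fun z _ _ => wt_nonneg S z x

theorem pw_one {S Z : Finset V} (hS : 0 < S.card) {x : V} (h : ∀ z, x - z ∈ S → z ∈ Z) :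
    pw S Z x = 1 := by
  unfold pw
  rw [div_eq_one_iff_eq (by exact_mod_cast hS.ne'), ← Pool.Agent.Q295.BD.wt_sum S x]
  refine Finset.sum_subset (Finset.subset_univ _) fun z _ hz => ?_
  unfold wt
  rw [if_neg (fun h' => hz (h z h'))]

/-- the near part -/
theorem near {J : V → V → ℝ} (hJ : ∀ x y, 0 ≤ J x y) {t : ℝ} (ht : 0 ≤ t) (S Z : Finset V)
    (hS : 0 < S.card) (ξ : Perm V → V → ℝ) {M : ℝ}
    (hM : ∀ z ∈ Z, stirExp J t (fun g => ∑ x ∈ univ.filter (fun x => x - z ∈ S),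
      ∑ y ∈ univ.filter (fun y => y - z ∈ S), ξ g x * ξ g y * sm g x y) ≤ M) :
    stirExp J t (fun g => bf g (fun x => ξ g x * pw S Z x) (fun x => ξ g x * pw S Z x)) ≤
      (Z.card : ℝ) ^ 2 * M / (S.card : ℝ) ^ 2 := by
  have hSR : (0 : ℝ) < S.card := by exact_mod_cast hS
  have h1 : ∀ g : Perm V, bf g (fun x => ξ g x * pw S Z x) (fun x => ξ g x * pw S Z x) ≤
      (Z.card / (S.card : ℝ) ^ 2) * ∑ z ∈ Z, (∑ x ∈ univ.filter (fun x => x - z ∈ S),
      ∑ y ∈ univ.filter (fun y => y - z ∈ S), ξ g x * ξ g y * sm g x y) := by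
    intro g
    have h2 := bf_sum_le g Z (fun z x => ξ g x * wt S z x)
    have h3 : bf g (fun x => ξ g x * pw S Z x) (fun x => ξ g x * pw S Z x) =
        bf g (fun x => ∑ z ∈ Z, ξ g x * wt S z x) (fun x => ∑ z ∈ Z, ξ g x * wt S z x) /
          (S.card : ℝ) ^ 2 := by
      have e : ∀ x, ∑ z ∈ Z, ξ g x * wt S z x = ξ g x * ∑ z ∈ Z, wt S z x :=
        fun x => (Finset.mul_sum _ _ _).symm
      simp only [e]
      unfold bf pw
      rw [eq_div_iff (by positivity), Finset.sum_mul]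
      refine Finset.sum_congr rfl fun x _ => ?_
      rw [Finset.sum_mul]
      refine Finset.sum_congr rfl fun y _ => ?_
      field_simp
    have h4 : ∀ z, bf g (fun x => ξ g x * wt S z x) (fun x => ξ g x * wt S z x) =
        ∑ x ∈ univ.filter (fun x => x - z ∈ S),
          ∑ y ∈ univ.filter (fun y => y - z ∈ S), ξ g x * ξ g y * sm g x y := by
      intro z
      unfold bf wt
      beta_reduce
      rw [Finset.sum_filter]
      refine Finset.sum_congr rfl fun x _ => ?_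
      by_cases hx : x - z ∈ S
      · simp only [if_pos hx]
        rw [Finset.sum_filter]
        refine Finset.sum_congr rfl fun y _ => ?_
        split_ifs <;> ring
      · simp only [if_neg hx]
        refine Finset.sum_eq_zero fun y _ => ?_
        ring
    rw [h3, div_le_iff₀ (by positivity)]
    refine h2.trans (le_of_eq ?_)
    simp only [h4]
    field_simp
  refine (exp_mono hJ ht h1).trans ?_
  rw [e_mul, ← exp_sum]
  have h5 := Finset.sum_le_sum hM
  rw [Finset.sum_const, nsmul_eq_mul] at h5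
  have h6 : 0 ≤ (Z.card : ℝ) / (S.card : ℝ) ^ 2 := by positivity
  refine (mul_le_mul_of_nonneg_left h5 h6).trans (le_of_eq ?_)
  ring

theorem exp_inv (J : V → V → ℝ) (t : ℝ) (F : Perm V → ℝ) :
    stirExp J t (fun g => F g⁻¹) = stirExp J t F := by
  unfold stirExp
  rw [← Equiv.sum_comp (Equiv.inv (Perm V))]
  refine Finset.sum_congr rfl fun g _ => ?_
  have e1 : (Equiv.inv (Perm V)) g = g⁻¹ := rfl
  rw [e1]
  beta_reduce
  rw [inv_inv, law_inv]

theorem qq_sym (J : V → V → ℝ) (t : ℝ) (x y : V) : qq J t x y = qq J t y x := by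
  have h1 : qq J t x y = stirExp J t (fun g => if g x = y then 1 else 0) := rfl
  have h2 : qq J t y x = stirExp J t (fun g => if g y = x then 1 else 0) := rfl
  rw [h1, h2, ← exp_inv J t (fun g => if g x = y then 1 else 0)]
  congr 1
  funext g
  have h3 : g⁻¹ x = y ↔ g y = x := by
    rw [Perm.inv_eq_iff_eq]
    exact eq_comm
  simp only [h3]

/-- the far part -/
theorem far {J : V → V → ℝ} (hJ : ∀ x y, 0 ≤ J x y) (hs : ∀ x y, J x y = J y x)
    (h0 : ∀ x, J x x = 0) {K : ℕ} (hK : 0 < K) {t : ℝ} (ht : 0 ≤ t) {a : V → ℝ}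
    (ha0 : ∀ v, 0 ≤ a v) (ha1 : ∑ v, a v = 1) {T : ℝ} (hT : ∀ v, tv1 J K t v ≤ T)
    (f : V → ℝ) (hf0 : ∀ x, 0 ≤ f x) (hf1 : ∀ x, f x ≤ 1) {Fb : ℝ}
    (hF : ∀ v, a v ≠ 0 → ∑ x, qq J (K * t) v x * f x ≤ Fb) :
    stirExp J t (fun g => bf g (fun x => et J K t a g x * f x) (fun x => et J K t a g x * f x)) ≤
      2 * (T + 2 * Fb) := by
  have hKt : 0 ≤ (K : ℝ) * t := by positivity
  have hmu1 : ∑ x, mu J (K * t) a x = 1 := by
    unfold mu
    rw [Finset.sum_comm]
    simp only [← Finset.sum_mul]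
    have : ∀ v, ∑ x, qq J (K * t) x v = 1 := by
      intro v
      rw [← qq_row J (K * t) v]
      exact Finset.sum_congr rfl fun x _ => qq_sym J _ x v
    simp only [this, one_mul]
    exact ha1
  have hmu0 := mu_nonneg hJ hKt ha0
  have hsh : ∀ g : Perm V, ∑ x, a ((g ^ K) x) = 1 := by
    intro g
    rw [Equiv.sum_comp (g ^ K) a, ha1]
  have h1 : ∀ g : Perm V, bf g (fun x => et J K t a g x * f x) (fun x => et J K t a g x * f x) ≤
      2 * (∑ x, a ((g ^ K) x) * f x + ∑ x, mu J (K * t) a x * f x) := by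
    intro g
    have h2 : ∀ x, |et J K t a g x * f x| ≤ a ((g ^ K) x) * f x + mu J (K * t) a x * f x := by
      intro x
      rw [abs_mul, abs_of_nonneg (hf0 x), ← add_mul]
      refine mul_le_mul_of_nonneg_right ?_ (hf0 x)
      unfold et
      rw [abs_le]
      have := ha0 ((g ^ K) x)
      have := hmu0 x
      constructor <;> linarith
    have h3 : ∀ x, |et J K t a g x * f x| ≤ a ((g ^ K) x) + mu J (K * t) a x := by
      intro x
      refine (h2 x).trans ?_
      have := mul_le_of_le_one_right (ha0 ((g ^ K) x)) (hf1 x)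
      have := mul_le_of_le_one_right (hmu0 x) (hf1 x)
      linarith
    have h4 := Finset.sum_le_sum (s := Finset.univ) fun x _ => h2 x
    have h5 := Finset.sum_le_sum (s := Finset.univ) fun x _ => h3 x
    rw [Finset.sum_add_distrib] at h4 h5
    rw [hsh g, hmu1] at h5
    have h6 : 0 ≤ ∑ x, |et J K t a g x * f x| := Finset.sum_nonneg fun _ _ => abs_nonneg _
    refine (bf_l1 g _).trans ?_
    nlinarith
  refine (exp_mono hJ ht h1).trans ?_
  rw [e_mul]
  have hcol : ∑ x, mu J (K * t) a x * f x ≤ Fb := by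
    unfold mu
    simp only [Finset.sum_mul]
    rw [Finset.sum_comm]
    have h2 : ∀ v ∈ (Finset.univ : Finset V), ∑ x, qq J (K * t) x v * a v * f x ≤ a v * Fb := by
      intro v _
      have h3 : ∑ x, qq J (K * t) x v * a v * f x = a v * ∑ x, qq J (K * t) v x * f x := by
        rw [Finset.mul_sum]
        refine Finset.sum_congr rfl fun x _ => ?_
        rw [qq_sym J _ x v]
        ring
      rw [h3]
      by_cases hv : a v = 0
      · rw [hv, zero_mul, zero_mul]
      · exact mul_le_mul_of_nonneg_left (hF v hv) (ha0 v)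
    refine (Finset.sum_le_sum h2).trans (le_of_eq ?_)
    rw [← Finset.sum_mul, ha1, one_mul]
  have hmain : stirExp J t (fun g => ∑ x, a ((g ^ K) x) * f x) ≤ T + Fb := by
    have h2 : (fun g : Perm V => ∑ x, a ((g ^ K) x) * f x) =
        fun g => ∑ v, a v * f (((g⁻¹) ^ K) v) := by
      funext g
      rw [← Equiv.sum_comp (g ^ K) (fun v => a v * f (((g⁻¹) ^ K) v))]
      refine Finset.sum_congr rfl fun x _ => ?_
      have e2 : ((g⁻¹) ^ K) ((g ^ K) x) = x := by
        rw [inv_pow]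
        exact (g ^ K).symm_apply_apply x
      rw [e2]
    rw [h2, exp_inv J t (fun g => ∑ v, a v * f ((g ^ K) v)), ← exp_sum]
    obtain ⟨l, hl⟩ : ∃ l : Fin K, (l : ℕ) + 1 = K := ⟨⟨K - 1, by omega⟩, by
      change K - 1 + 1 = K; omega⟩
    have h3 : ∀ v ∈ (Finset.univ : Finset V), stirExp J t (fun g => a v * f ((g ^ K) v)) ≤
        a v * (T + Fb) := by
      intro v _
      rw [e_mul]
      by_cases hv : a v = 0
      · rw [hv, zero_mul, zero_mul]
      · refine mul_le_mul_of_nonneg_left ?_ (ha0 v)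
        have h4 := tr1 J K t v (fun p => f (p l)) (C := 1) (fun p => by
          rw [abs_of_nonneg (hf0 _)]; exact hf1 _)
        have h5 : (fun g : Perm V => (fun p : Fin K → V => f (p l)) (orb K g v)) =
            fun g => f ((g ^ K) v) := by
          funext g
          unfold orb
          beta_reduce
          rw [hl]
        rw [h5, marg_sum hs h0 t l f v, one_mul] at h4
        have e1 : ((l : ℕ) : ℝ) * t + t = K * t := by
          have : ((l : ℕ) : ℝ) + 1 = K := by exact_mod_cast hl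
          rw [← this]
          ring
        rw [e1] at h4
        have h6 := (abs_le.1 h4).2
        have := hF v hv
        have := hT v
        linarith
    refine (Finset.sum_le_sum h3).trans (le_of_eq ?_)
    rw [← Finset.sum_mul, ha1, one_mul]
  rw [e_add, exp_const]
  linarith

theorem card_tr (S : Finset V) (z : V) : (univ.filter (fun x => x - z ∈ S)).card = S.card := by
  have h1 := wt_sum' S z
  unfold wt at h1
  rw [Finset.sum_boole] at h1
  exact_mod_cast h1

/-- the main local estimate -/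
theorem loc_main {J : V → V → ℝ} (hJ : ∀ x y, 0 ≤ J x y) (hs : ∀ x y, J x y = J y x)
    (h0 : ∀ x, J x x = 0) {K : ℕ} (hK : 0 < K) {r : ℝ} (hr : ∀ x, ∑ y, J x y ≤ r) (hr0 : 0 ≤ r)
    {t : ℝ} (ht : 0 ≤ t) (Q : ℕ → ℝ) (hQ0 : ∀ m, 0 ≤ Q m)
    (hQ : ∀ m : ℕ, 0 < m → ∀ a b, qq J (m * t) a b ≤ Q m) {a : V → ℝ}
    {A : ℝ} (ha0 : ∀ v, 0 ≤ a v) (ha : ∀ v, a v ≤ A) (ha1 : ∑ v, a v = 1) {T η κ Fb : ℝ}
    (hT0 : 0 ≤ T) (hT : ∀ v, tv1 J K t v ≤ T) (hη0 : 0 ≤ η) (hκ0 : 0 ≤ κ) (S Z : Finset V)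
    (hS : 0 < S.card)
    (hη : ∀ x y z, x - z ∈ S → y - z ∈ S → NN J t (swap x y) ≤ η)
    (hκ : ∀ x y z, x - z ∈ S → y - z ∈ S → NN J (K * t) (swap x y) ≤ κ)
    (hF : ∀ v, a v ≠ 0 → ∑ x, qq J (K * t) v x * (1 - pw S Z x) ≤ Fb) :
    Nf J t (fun x => a x - mu J (K * t) a x) ≤
      2 * ((Z.card : ℝ) ^ 2 * (A ^ 2 * (S.card +
        (1 / 2) * tvB K r t (∑ m ∈ Finset.Icc 1 K, Q m) S.card +
        (1 / 2) * ((S.card : ℝ) ^ 2 * (η + κ + 2 * (2 * (T + 2 * ∑ m ∈ Finset.Icc 1 K, Q m)))))) /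
          (S.card : ℝ) ^ 2) + 2 * (2 * (T + 2 * Fb)) := by
  have h1 : Nf J t (fun x => a x - mu J (K * t) a x) =
      stirExp J t (fun g => bf g (et J K t a g) (et J K t a g)) := by
    unfold Nf
    congr 1
    funext g
    exact bf_et J K t a g
  have h2 : ∀ g : Perm V, bf g (et J K t a g) (et J K t a g) ≤
      2 * bf g (fun x => et J K t a g x * pw S Z x) (fun x => et J K t a g x * pw S Z x) +
      2 * bf g (fun x => et J K t a g x * (1 - pw S Z x))
        (fun x => et J K t a g x * (1 - pw S Z x)) := by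
    intro g
    have h3 := bf_add_le g (fun x => et J K t a g x * pw S Z x)
      (fun x => et J K t a g x * (1 - pw S Z x))
    have h4 : (fun x => et J K t a g x * pw S Z x + et J K t a g x * (1 - pw S Z x)) =
        et J K t a g := by
      funext x
      ring
    rwa [h4] at h3
  rw [h1]
  refine (exp_mono hJ ht h2).trans ?_
  rw [e_add, e_mul, e_mul]
  have h5 := near hJ ht S Z hS (fun g x => et J K t a g x) (M := A ^ 2 * (S.card +
        (1 / 2) * tvB K r t (∑ m ∈ Finset.Icc 1 K, Q m) S.card +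
        (1 / 2) * ((S.card : ℝ) ^ 2 * (η + κ + 2 * (2 * (T + 2 * ∑ m ∈ Finset.Icc 1 K, Q m))))))
    (fun z _ => by
      have h6 := secm hJ hs h0 hK hr hr0 ht Q hQ0 hQ ha0 ha
        (univ.filter (fun x => x - z ∈ S)) hT0 hT hη0 hκ0
        (fun x hx y hy => hη x y z (Finset.mem_filter.1 hx).2 (Finset.mem_filter.1 hy).2)
        (fun x hx y hy => hκ x y z (Finset.mem_filter.1 hx).2 (Finset.mem_filter.1 hy).2)
      rw [card_tr] at h6
      exact h6)
  have h6 := far hJ hs h0 hK ht ha0 ha1 hT (fun x => 1 - pw S Z x)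
    (fun x => by have := pw_le_one S Z x; linarith)
    (fun x => by have := pw_nonneg S Z x; linarith) hF
  linarith

end grp

section gen2

variable {V : Type} [Fintype V] [DecidableEq V]

theorem gg_refl (J : V → V → ℝ) (t : ℝ) (x : V) : gg J t x x = 1 := by
  unfold gg
  have h : (fun g : Perm V => sm g x x) = fun _ => 1 := by
    funext g
    unfold sm
    rw [if_pos (Perm.SameCycle.refl g x)]
  rw [h, exp_const]

/-- two densities on a set with two-point function close to `1 / 2` -/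
theorem dens {J : V → V → ℝ} {t : ℝ} (a b : V → ℝ) {A δ : ℝ}
    (ha0 : ∀ v, 0 ≤ a v) (hb0 : ∀ v, 0 ≤ b v) (ha : ∀ v, a v ≤ A) (hb : ∀ v, b v ≤ A)
    (ha1 : ∑ v, a v = 1) (hb1 : ∑ v, b v = 1) (hA : 0 ≤ A) (hδ : 0 ≤ δ) (W : Finset V)
    (haW : ∀ v, v ∉ W → a v = 0) (hbW : ∀ v, v ∉ W → b v = 0)
    (hg : ∀ x ∈ W, ∀ y ∈ W, x ≠ y → |gg J t x y - 1 / 2| ≤ δ) :
    Nf J t (fun x => a x - b x) ≤ A + 4 * δ := by
  obtain ⟨φ, hφ⟩ : ∃ φ : V → ℝ, φ = fun x => a x - b x := ⟨_, rfl⟩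
  have hφ1 : ∑ x, φ x = 0 := by
    rw [hφ, Finset.sum_sub_distrib, ha1, hb1, sub_self]
  have hφA : ∀ x, |φ x| ≤ A := by
    intro x
    rw [hφ, abs_le]
    have := ha0 x
    have := hb0 x
    have := ha x
    have := hb x
    constructor <;> linarith
  have hφ2 : ∑ x, |φ x| ≤ 2 := by
    have h1 : ∀ x ∈ (Finset.univ : Finset V), |φ x| ≤ a x + b x := by
      intro x _
      rw [hφ, abs_le]
      have := ha0 x
      have := hb0 x
      constructor <;> linarith
    refine (Finset.sum_le_sum h1).trans ?_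
    rw [Finset.sum_add_distrib, ha1, hb1]
    norm_num
  have hφW : ∀ x, x ∉ W → φ x = 0 := by
    intro x hx
    rw [hφ]
    beta_reduce
    rw [haW x hx, hbW x hx, sub_self]
  rw [← hφ, Nf_eq]
  have h1 : ∑ x, ∑ y, φ x * φ y * gg J t x y = ∑ x, ∑ y, φ x * φ y * (gg J t x y - 1 / 2) := by
    have h2 : ∑ x, ∑ y, φ x * φ y * (gg J t x y - 1 / 2) =
        ∑ x, ∑ y, φ x * φ y * gg J t x y - (1 / 2) * ((∑ x, φ x) * ∑ y, φ y) := by
      rw [Finset.sum_mul_sum, Finset.mul_sum, ← Finset.sum_sub_distrib]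
      refine Finset.sum_congr rfl fun x _ => ?_
      rw [Finset.mul_sum, ← Finset.sum_sub_distrib]
      refine Finset.sum_congr rfl fun y _ => ?_
      ring
    rw [h2, hφ1, zero_mul, mul_zero, sub_zero]
  rw [h1]
  have h2 : ∀ x ∈ (Finset.univ : Finset V), ∀ y ∈ (Finset.univ : Finset V),
      φ x * φ y * (gg J t x y - 1 / 2) ≤
      (if x = y then (1 / 2) * (A * |φ x|) else 0) + δ * (|φ x| * |φ y|) := by
    intro x _ y _
    have h3 : 0 ≤ δ * (|φ x| * |φ y|) := by positivity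
    by_cases hxy : x = y
    · subst hxy
      rw [if_pos rfl, gg_refl]
      have h4 : φ x * φ x = |φ x| * |φ x| := (abs_mul_abs_self _).symm
      have h5 := mul_le_mul_of_nonneg_right (hφA x) (abs_nonneg (φ x))
      rw [h4]
      linarith
    · rw [if_neg hxy, zero_add]
      by_cases hx : x ∈ W
      · by_cases hy : y ∈ W
        · have h4 := hg x hx y hy hxy
          have h5 := le_abs_self (φ x * φ y * (gg J t x y - 1 / 2))
          rw [abs_mul, abs_mul] at h5
          have h6 := mul_le_mul_of_nonneg_left h4 (show 0 ≤ |φ x| * |φ y| by positivity)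
          linarith
        · rw [hφW y hy]
          simp
      · rw [hφW x hx]
        simp
  refine (Finset.sum_le_sum fun x hx => Finset.sum_le_sum fun y hy => h2 x hx y hy).trans ?_
  simp only [Finset.sum_add_distrib]
  have h3 : ∑ x, ∑ y, (if x = y then (1 / 2) * (A * |φ x|) else 0) =
      (1 / 2) * (A * ∑ x, |φ x|) := by
    rw [Finset.mul_sum, Finset.mul_sum]
    refine Finset.sum_congr rfl fun x _ => ?_
    rw [Finset.sum_ite_eq, if_pos (Finset.mem_univ _)]
  have h4 : ∑ x, ∑ y, δ * (|φ x| * |φ y|) = δ * ((∑ x, |φ x|) * ∑ y, |φ y|) := by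
    rw [Finset.sum_mul_sum, Finset.mul_sum]
    refine Finset.sum_congr rfl fun x _ => ?_
    rw [Finset.mul_sum]
  rw [h3, h4]
  have h5 : 0 ≤ ∑ x, |φ x| := Finset.sum_nonneg fun _ _ => abs_nonneg _
  have h6 : A * ∑ x, |φ x| ≤ A * 2 := mul_le_mul_of_nonneg_left hφ2 hA
  have h7 : (∑ x, |φ x|) * (∑ y, |φ y|) ≤ 2 * 2 := mul_le_mul hφ2 hφ2 h5 (by norm_num)
  have h8 := mul_le_mul_of_nonneg_left h7 hδ
  linarith

end gen2

end Pool.Agent.Q287.SD
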