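import Pool.Agent.Q287.SD.Loc
import Pool.Agent.Y239.PD.TWO
import Pool.Agent.Q295.BD.Fin

/-!
# The torus: quantities, balls, displacement
-/

set_option autoImplicit false
set_option linter.unusedSectionVars false

namespace Pool.Agent.Q287.SD

open Finset Equiv
open Pool.Agent.Y998.ST
open Pool.Agent.Y998.LP (NN NN_nonneg law_inv tdist)
open Pool.Agent.Y998.CN (law_sum nn_trans)
open Pool.Agent.Q295.TP (sm sm_nonneg sm_le_one gg gg_trans exists_box)

variable {d L : ℕ} [NeZero L]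

theorem td_sub (x y z : Fin d → ZMod L) : tdist (x - z) (y - z) = tdist x y := by
  unfold tdist
  refine Finset.sum_congr rfl fun i _ => ?_
  rw [Pi.sub_apply, Pi.sub_apply, sub_sub_sub_cancel_right]

theorem td_add (x y z : Fin d → ZMod L) : tdist (x + z) (y + z) = tdist x y := by
  unfold tdist
  refine Finset.sum_congr rfl fun i _ => ?_
  rw [Pi.add_apply, Pi.add_apply, add_sub_add_right_eq_sub]

theorem td_tri (x y z : Fin d → ZMod L) : tdist x z ≤ tdist x y + tdist y z :=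
  Pool.Agent.Y761.PD.DISP.tri y x z

theorem td_symm (x y : Fin d → ZMod L) : tdist x y = tdist y x :=
  Pool.Agent.Y761.PD.DISP.symm' y x

theorem td_self (x : Fin d → ZMod L) : tdist x x = 0 := by
  unfold tdist
  simp

theorem ball_le (u : Fin d → ZMod L) (D : ℕ) :
    (univ.filter (fun z => tdist z u ≤ D)).card ≤ (2 * D + 1) ^ d := by
  classical
  have h1 : (univ.filter (fun z => tdist z u ≤ D)).card ≤
      (Fintype.piFinset (fun _ : Fin d => univ.filter
        (fun a : ZMod L => a.valMinAbs.natAbs ≤ D))).card := by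
    refine Finset.card_le_card_of_injOn (fun z => z - u) ?_ ?_
    · intro z hz
      rw [Finset.mem_coe, Finset.mem_filter] at hz
      rw [Finset.mem_coe, Fintype.mem_piFinset]
      intro i
      rw [Finset.mem_filter]
      refine ⟨Finset.mem_univ _, le_trans ?_ hz.2⟩
      unfold tdist
      exact Finset.single_le_sum (f := fun i => (z i - u i).valMinAbs.natAbs)
        (fun i _ => Nat.zero_le _) (Finset.mem_univ i)
    · intro z _ w _ hzw
      exact sub_left_injective hzw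
  have h2 : (univ.filter (fun a : ZMod L => a.valMinAbs.natAbs ≤ D)).card ≤ 2 * D + 1 := by
    have h3 : (univ.filter (fun a : ZMod L => a.valMinAbs.natAbs ≤ D)).card ≤
        (Finset.Icc (-(D : ℤ)) D).card := by
      refine Finset.card_le_card_of_injOn (fun a => a.valMinAbs) ?_ ?_
      · intro a ha
        rw [Finset.mem_coe, Finset.mem_filter] at ha
        rw [Finset.mem_coe, Finset.mem_Icc]
        have := ha.2
        beta_reduce
        omega
      · intro a _ b _ hab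
        exact ZMod.injective_valMinAbs hab
    refine h3.trans (le_of_eq ?_)
    rw [Int.card_Icc]
    omega
  refine h1.trans ?_
  rw [Fintype.card_piFinset, Finset.prod_const, Finset.card_univ, Fintype.card_fin]
  exact Nat.pow_le_pow_left h2 d

theorem qq_tr (s : ℝ) (x y z : Fin d → ZMod L) :
    qq (nnRate d L) s (x + z) (y + z) = qq (nnRate d L) s x y := by
  unfold qq hop stirExp
  rw [← Equiv.sum_comp (MulAut.conj (Equiv.addRight z)).toEquiv]
  refine Finset.sum_congr rfl fun g _ => ?_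
  have e1 : (MulAut.conj (Equiv.addRight z)).toEquiv g =
    Equiv.addRight z * g * (Equiv.addRight z)⁻¹ := rfl
  rw [e1, Pool.Agent.Y998.CN.law_conj (Equiv.addRight z) (fun a b => nn_trans a b z)]
  have e3 : (Equiv.addRight z * g * (Equiv.addRight z)⁻¹) (x + z) = g x + z := by
    rw [Perm.mul_apply, Perm.mul_apply]
    have : (Equiv.addRight z)⁻¹ (x + z) = x := (Equiv.addRight z).symm_apply_apply x
    rw [this]
    rfl
  beta_reduce
  rw [e3]
  simp only [add_left_inj]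

/-- displacement from any point -/
theorem disp_v (hL : 3 ≤ L) {s : ℝ} (hs : 0 ≤ s) (v : Fin d → ZMod L) :
    ∑ x, qq (nnRate d L) s v x * (tdist v x : ℝ) ≤ d * Real.sqrt (5 * s) := by
  classical
  have h1 := Pool.Agent.Q295.BD.disp (d := d) hL hs
  have h2 : stirExp (nnRate d L) s (fun g => (tdist (0 : Fin d → ZMod L) (g 0) : ℝ)) =
      ∑ x, qq (nnRate d L) s 0 x * (tdist (0 : Fin d → ZMod L) x : ℝ) := by
    unfold qq hop
    have h3 : ∀ x : Fin d → ZMod L, stirExp (nnRate d L) s (fun g => if g 0 = x then 1 else 0) *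
        (tdist (0 : Fin d → ZMod L) x : ℝ) = stirExp (nnRate d L) s
          (fun g => if g 0 = x then (tdist (0 : Fin d → ZMod L) x : ℝ) else 0) := by
      intro x
      unfold stirExp
      rw [Finset.sum_mul]
      refine Finset.sum_congr rfl fun g _ => ?_
      beta_reduce
      split_ifs <;> ring
    simp only [h3]
    rw [exp_sum]
    congr 1
    funext g
    rw [Finset.sum_ite_eq, if_pos (Finset.mem_univ _)]
  rw [h2] at h1
  refine le_trans (le_of_eq ?_) h1
  rw [← Equiv.sum_comp (Equiv.addRight v)]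
  refine Finset.sum_congr rfl fun x _ => ?_
  have e1 : Equiv.addRight v x = x + v := rfl
  have e2 : qq (nnRate d L) s v (x + v) = qq (nnRate d L) s 0 x := by
    have := qq_tr s 0 x v
    rwa [zero_add] at this
  have e3 : tdist v (x + v) = tdist 0 x := by
    have := td_add 0 x v
    rwa [zero_add] at this
  rw [e1, e2, e3]

/-- Markov -/
theorem disp_far (hL : 3 ≤ L) {s : ℝ} (hs : 0 ≤ s) (v : Fin d → ZMod L) {D : ℝ} (hD : 0 < D)
    (f : (Fin d → ZMod L) → ℝ) (hf1 : ∀ x, f x ≤ 1) (hf : ∀ x, (tdist v x : ℝ) ≤ D → f x = 0) :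
    ∑ x, qq (nnRate d L) s v x * f x ≤ d * Real.sqrt (5 * s) / D := by
  rw [le_div_iff₀ hD]
  refine le_trans ?_ (disp_v hL hs v)
  rw [Finset.sum_mul]
  refine Finset.sum_le_sum fun x _ => ?_
  have hq := qq_nonneg (nn_nonneg (d := d) (L := L)) hs v x
  rw [mul_assoc]
  refine mul_le_mul_of_nonneg_left ?_ hq
  by_cases hx : (tdist v x : ℝ) ≤ D
  · rw [hf x hx, zero_mul]
    exact Nat.cast_nonneg _
  · push Not at hx
    have := hf1 x
    nlinarith

/-- smoothness of the walk -/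
theorem qq_tv (s : ℝ) (x y : Fin d → ZMod L) :
    ∑ z, |qq (nnRate d L) s x z - qq (nnRate d L) s y z| ≤ NN (nnRate d L) s (swap x y) := by
  classical
  have h1 : ∀ z, |qq (nnRate d L) s x z - qq (nnRate d L) s y z| ≤
      ∑ g : Perm (Fin d → ZMod L), |stirLaw (nnRate d L) s (g * swap x y) -
        stirLaw (nnRate d L) s g| * (if g y = z then 1 else 0) := by
    intro z
    have e1 : qq (nnRate d L) s x z =
        ∑ g, stirLaw (nnRate d L) s (g * swap x y) * (if g y = z then 1 else 0) := by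
      unfold qq hop stirExp
      rw [← Equiv.sum_comp (Equiv.mulRight (swap x y))]
      refine Finset.sum_congr rfl fun g _ => ?_
      have e2 : (Equiv.mulRight (swap x y)) g = g * swap x y := rfl
      rw [e2]
      beta_reduce
      rw [Perm.mul_apply, swap_apply_left]
    have e2 : qq (nnRate d L) s y z =
        ∑ g, stirLaw (nnRate d L) s g * (if g y = z then 1 else 0) := rfl
    rw [e1, e2, ← Finset.sum_sub_distrib]
    refine (Finset.abs_sum_le_sum_abs _ _).trans (Finset.sum_le_sum fun g _ => ?_)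
    rw [← sub_mul, abs_mul]
    refine mul_le_mul_of_nonneg_left ?_ (abs_nonneg _)
    split_ifs <;> norm_num
  refine (Finset.sum_le_sum fun z _ => h1 z).trans ?_
  rw [Finset.sum_comm]
  simp only [← Finset.mul_sum]
  rw [← right_tv]
  refine Finset.sum_le_sum fun g _ => ?_
  rw [Finset.sum_ite_eq, if_pos (Finset.mem_univ _), mul_one]

/-- shifted densities have close averages -/
theorem mu_shift {η : ℝ} (s : ℝ) (a : (Fin d → ZMod L) → ℝ) (ha0 : ∀ v, 0 ≤ a v)
    (ha1 : ∑ v, a v = 1) (x y : Fin d → ZMod L)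
    (hη : ∀ v, NN (nnRate d L) s (swap (v + x) (v + y)) ≤ η) :
    ∑ z, |mu (nnRate d L) s (fun v => a (v - x)) z - mu (nnRate d L) s (fun v => a (v - y)) z| ≤
      η := by
  have e1 : ∀ x z, mu (nnRate d L) s (fun v => a (v - x)) z =
      ∑ v, a v * qq (nnRate d L) s (v + x) z := by
    intro x z
    unfold mu
    rw [← Equiv.sum_comp (Equiv.addRight x)]
    refine Finset.sum_congr rfl fun v _ => ?_
    have e2 : Equiv.addRight x v = v + x := rfl
    rw [e2]
    beta_reduce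
    rw [add_sub_cancel_right, qq_sym, mul_comm]
  simp only [e1]
  have h1 : ∀ z, |∑ v, a v * qq (nnRate d L) s (v + x) z -
      ∑ v, a v * qq (nnRate d L) s (v + y) z| ≤
      ∑ v, a v * |qq (nnRate d L) s (v + x) z - qq (nnRate d L) s (v + y) z| := by
    intro z
    rw [← Finset.sum_sub_distrib]
    refine (Finset.abs_sum_le_sum_abs _ _).trans (Finset.sum_le_sum fun v _ => ?_)
    rw [← mul_sub, abs_mul, abs_of_nonneg (ha0 v)]
  refine (Finset.sum_le_sum fun z _ => h1 z).trans ?_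
  rw [Finset.sum_comm]
  simp only [← Finset.mul_sum]
  have h2 : ∀ v ∈ (Finset.univ : Finset (Fin d → ZMod L)),
      a v * ∑ z, |qq (nnRate d L) s (v + x) z - qq (nnRate d L) s (v + y) z| ≤ a v * η :=
    fun v _ => mul_le_mul_of_nonneg_left ((qq_tv s _ _).trans (hη v)) (ha0 v)
  refine (Finset.sum_le_sum h2).trans (le_of_eq ?_)
  rw [← Finset.sum_mul, ha1, one_mul]

/-- the small parameter -/
noncomputable def uu (d L K : ℕ) (t : ℝ) : ℝ :=
  K * t ^ (1 - (d : ℝ) / 2) + (K : ℝ) ^ 2 * t / (L : ℝ) ^ d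

theorem tor_loc (d : ℕ) (hd : 3 ≤ d) : ∃ C : ℝ, 1 ≤ C ∧ ∀ (L : ℕ) [NeZero L], 3 ≤ L →
    ∀ t : ℝ, 1 ≤ t → ∀ K : ℕ, 0 < K → ∀ (a : (Fin d → ZMod L) → ℝ) (A : ℝ), (∀ v, 0 ≤ a v) →
    (∀ v, a v ≤ A) → ∑ v, a v = 1 → ∀ η κ Fb : ℝ, 0 ≤ η → 0 ≤ κ → 0 ≤ Fb →
    ∀ S Z : Finset (Fin d → ZMod L), 0 < S.card →
    (∀ x y z, x - z ∈ S → y - z ∈ S → NN (nnRate d L) t (swap x y) ≤ η) →
    (∀ x y z, x - z ∈ S → y - z ∈ S → NN (nnRate d L) (K * t) (swap x y) ≤ κ) →
    (∀ v, a v ≠ 0 → ∑ x, qq (nnRate d L) (K * t) v x * (1 - pw S Z x) ≤ Fb) →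
    Nf (nnRate d L) t (fun x => a x - mu (nnRate d L) (K * t) a x) ≤
      C * ((Z.card * A) ^ 2 * (t / S.card + uu d L K t + η + κ) + uu d L K t + Fb) := by
  have hd3 : (3 : ℝ) ≤ d := by exact_mod_cast hd
  have hsum : Summable fun n : ℕ => 1 / (n : ℝ) ^ ((d : ℝ) / 2) :=
    Real.summable_one_div_nat_rpow.2 (by linarith)
  obtain ⟨Zs, hZ⟩ : ∃ Zs : ℝ, Zs = ∑' n : ℕ, 1 / (n : ℝ) ^ ((d : ℝ) / 2) := ⟨_, rfl⟩
  have hZ0 : 0 ≤ Zs := by rw [hZ]; exact tsum_nonneg fun n => by positivity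
  obtain ⟨C₁, hC₁⟩ : ∃ C₁ : ℝ, C₁ = 5 * d * 2 ^ d * (1 + Zs) := ⟨_, rfl⟩
  have hC₁0 : 0 ≤ C₁ := by rw [hC₁]; positivity
  refine ⟨24 * C₁ + 10 * d + 8, by linarith, ?_⟩
  intro L _ hL t ht K hK a A ha0 ha ha1 η κ Fb hη0 hκ0 hFb S Z hS hη hκ hF
  have ht0 : 0 < t := by linarith
  have hLpos : (0 : ℝ) < L := by exact_mod_cast (show 0 < L by omega)
  obtain ⟨Q, hQdef⟩ : ∃ Q : ℕ → ℝ, Q = fun m : ℕ =>
    2 ^ d * ((1 / (L : ℝ)) ^ d + t ^ (-((d : ℝ) / 2)) * (1 / (m : ℝ) ^ ((d : ℝ) / 2))) := ⟨_, rfl⟩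
  have hQ0 : ∀ m, 0 ≤ Q m := by
    intro m
    rw [hQdef]
    positivity
  have hQ : ∀ m : ℕ, 0 < m → ∀ a b, qq (nnRate d L) (m * t) a b ≤ Q m := by
    intro m hm a b
    have hm0 : (0 : ℝ) < m := by exact_mod_cast hm
    have hmt : (0 : ℝ) < m * t := by positivity
    refine (qq_torus hL hmt a b).trans ?_
    refine (add_pow_le (by positivity) (by positivity) d).trans ?_
    rw [Pool.Agent.Y239.PD.TWO.sqrt_pow _ hmt, hQdef]
    have h1 : ((m : ℝ) * t) ^ (-((d : ℝ) / 2)) =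
        t ^ (-((d : ℝ) / 2)) * (1 / (m : ℝ) ^ ((d : ℝ) / 2)) := by
      rw [Real.mul_rpow hm0.le ht0.le, Real.rpow_neg hm0.le ((d : ℝ) / 2)]
      ring
    rw [h1]
    refine mul_le_mul_of_nonneg_right ?_ (by positivity)
    exact pow_le_pow_right₀ (by norm_num) (by omega)
  have hrow : ∀ x : Fin d → ZMod L, ∑ y, nnRate d L x y ≤ 2 * (d : ℝ) := fun x =>
    (nn_row hL x).le
  obtain ⟨s, hs⟩ : ∃ s : ℝ, s = ∑ m ∈ Finset.Icc 1 K, Q m := ⟨_, rfl⟩
  have hs0 : 0 ≤ s := by rw [hs]; exact Finset.sum_nonneg fun m _ => hQ0 m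
  have hsle : s ≤ 2 ^ d * (K * (1 / (L : ℝ)) ^ d + t ^ (-((d : ℝ) / 2)) * Zs) := by
    rw [hs, hQdef, ← Finset.mul_sum]
    refine mul_le_mul_of_nonneg_left ?_ (by positivity)
    rw [Finset.sum_add_distrib, ← Finset.mul_sum]
    refine add_le_add ?_ (mul_le_mul_of_nonneg_left ?_ (by positivity))
    · rw [Finset.sum_const, nsmul_eq_mul]
      refine mul_le_mul_of_nonneg_right ?_ (by positivity)
      rw [Nat.card_Icc]
      exact_mod_cast (show K + 1 - 1 ≤ K by omega)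
    · rw [hZ]
      exact hsum.sum_le_tsum _ fun m _ => by positivity
  obtain ⟨u, hu⟩ : ∃ u : ℝ, u = uu d L K t := ⟨_, rfl⟩
  have hu0 : 0 ≤ u := by rw [hu]; unfold uu; positivity
  have h1 : 1 + 2 * (2 * (d : ℝ)) * t ≤ 5 * d * t := by nlinarith
  have hKR : (1 : ℝ) ≤ K := by exact_mod_cast hK
  have hX : (1 + 2 * (2 * (d : ℝ)) * t) * (K * s) ≤ C₁ * u := by
    have h2 : t ^ (1 - (d : ℝ) / 2) = t * t ^ (-((d : ℝ) / 2)) := by
      rw [sub_eq_add_neg, Real.rpow_add ht0, Real.rpow_one]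
    calc (1 + 2 * (2 * (d : ℝ)) * t) * (K * s)
        ≤ (5 * d * t) * (K * (2 ^ d * (K * (1 / (L : ℝ)) ^ d + t ^ (-((d : ℝ) / 2)) * Zs))) := by
          refine mul_le_mul h1 (mul_le_mul_of_nonneg_left hsle (by positivity)) (by positivity)
            (by positivity)
      _ = 5 * d * 2 ^ d * (Zs * (K * (t * t ^ (-((d : ℝ) / 2)))) +
            1 * ((K : ℝ) ^ 2 * t / (L : ℝ) ^ d)) := by
          rw [one_div_pow]
          ring
      _ ≤ 5 * d * 2 ^ d * ((1 + Zs) * (K * (t * t ^ (-((d : ℝ) / 2)))) +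
            (1 + Zs) * ((K : ℝ) ^ 2 * t / (L : ℝ) ^ d)) := by
          refine mul_le_mul_of_nonneg_left (add_le_add (mul_le_mul_of_nonneg_right ?_ ?_)
            (mul_le_mul_of_nonneg_right ?_ ?_)) (by positivity)
          · linarith
          · positivity
          · linarith
          · positivity
      _ = _ := by rw [hu, hC₁]; unfold uu; rw [h2]; ring
  have hKs : K * s ≤ C₁ * u := by
    refine le_trans ?_ hX
    have : 0 ≤ K * s := by positivity
    nlinarith [show 0 ≤ 2 * (2 * (d : ℝ)) * t by positivity]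
  have hsu : s ≤ C₁ * u := by
    refine le_trans ?_ hKs
    nlinarith
  have hT : ∀ v, tv1 (nnRate d L) K t v ≤ 2 * (C₁ * u) := by
    intro v
    have h2 := tv1_le nn_nonneg nn_symm (nn_diag hL) hrow (by positivity) ht0.le Q hQ0 hQ
      (K := K) v
    rw [← hs] at h2
    linarith
  have hmain := loc_main nn_nonneg nn_symm (nn_diag hL) hK hrow (by positivity) ht0.le Q hQ0 hQ
    ha0 ha ha1 (T := 2 * (C₁ * u)) (by positivity) hT hη0 hκ0 S Z hS hη hκ hF
  rw [← hs] at hmain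
  obtain ⟨β, hβ⟩ : ∃ β : ℝ, β = S.card := ⟨_, rfl⟩
  have hβ1 : 1 ≤ β := by rw [hβ]; exact_mod_cast hS
  rw [← hβ] at hmain
  rw [← hu, ← hβ]
  have hβ0 : 0 < β := by linarith
  have hW : β + (1 / 2) * tvB K (2 * (d : ℝ)) t s β +
      (1 / 2) * (β ^ 2 * (η + κ + 2 * (2 * (2 * (C₁ * u) + 2 * s)))) ≤
      β ^ 2 * (5 * d * (t / β) + 12 * (C₁ * u) + η + κ) := by
    unfold tvB
    have e1 : β ^ 2 * (t / β) = β * t := by
      field_simp
    have e2 : (3 + 8 * (2 * (d : ℝ)) * t) * (β ^ 2 * (K * s)) ≤ 4 * (β ^ 2 * (C₁ * u)) := by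
      have : (3 + 8 * (2 * (d : ℝ)) * t) * (β ^ 2 * (K * s)) ≤
          4 * (β ^ 2 * ((1 + 2 * (2 * (d : ℝ)) * t) * (K * s))) := by
        have : 0 ≤ β ^ 2 * (K * s) := by positivity
        nlinarith
      refine this.trans ?_
      have := mul_le_mul_of_nonneg_left hX (show 0 ≤ 4 * β ^ 2 by positivity)
      linarith
    have e3 : β ^ 2 * s ≤ β ^ 2 * (C₁ * u) := mul_le_mul_of_nonneg_left hsu (by positivity)
    have e4 : β ≤ β * t := by nlinarith
    have e5 : β * t ≤ d * (β * t) := by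
      have : 0 ≤ β * t := by positivity
      nlinarith
    have e6 : 0 ≤ β ^ 2 * (η + κ) := by positivity
    nlinarith
  have hZA : (Z.card : ℝ) ^ 2 * (A ^ 2 * (β + (1 / 2) * tvB K (2 * (d : ℝ)) t s β +
      (1 / 2) * (β ^ 2 * (η + κ + 2 * (2 * (2 * (C₁ * u) + 2 * s)))))) / β ^ 2 ≤
      (Z.card * A) ^ 2 * (5 * d * (t / β) + 12 * (C₁ * u) + η + κ) := by
    rw [div_le_iff₀ (by positivity)]
    have := mul_le_mul_of_nonneg_left hW (show 0 ≤ (Z.card : ℝ) ^ 2 * A ^ 2 by positivity)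
    nlinarith
  refine hmain.trans ?_
  have hY : 5 * d * (t / β) + 12 * (C₁ * u) + η + κ ≤
      (12 * C₁ + 5 * d + 4) * (t / β + u + η + κ) := by
    have e1 : 0 ≤ t / β := by positivity
    nlinarith [mul_nonneg hC₁0 e1, mul_nonneg hC₁0 hη0, mul_nonneg hC₁0 hκ0,
      mul_nonneg (show (0 : ℝ) ≤ d by positivity) hu0,
      mul_nonneg (show (0 : ℝ) ≤ d by positivity) hη0,
      mul_nonneg (show (0 : ℝ) ≤ d by positivity) hκ0]
  have hY2 := mul_le_mul_of_nonneg_left hY (show 0 ≤ (Z.card * A) ^ 2 by positivity)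
  nlinarith [mul_nonneg hC₁0 hFb, mul_nonneg (show (0 : ℝ) ≤ d by positivity) hFb,
    mul_nonneg (show (0 : ℝ) ≤ d by positivity) hu0, mul_nonneg hC₁0 hu0]

end Pool.Agent.Q287.SD
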