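import Pool.Agent.Y815.PD.TWOG
import Pool.Agent.Y799.PD.PR2
import Pool.Agent.Y431.PD.CO2
import Pool.Agent.Y239.PD.KG

/-!
# Two orbits which start from a given finite set

Adapted from the parts `PR2`, `CO2` and `TWOG` of the project PD, where the starting points are
uniform on the whole space.
-/

set_option autoImplicit false
set_option linter.unusedSectionVars false

namespace Pool.Agent.Q287.SD

open Finset Equiv
open Pool.Agent.Y998.ST
open Pool.Agent.Y661.PD
open Pool.Agent.Y799.PD.PR2 (qq_col CS_one CS_unmarked pair_CS CS_congr)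
open Pool.Agent.Y815.PD.TWOG (VV_append UU_append block_le)

variable {V : Type} [Fintype V] [DecidableEq V]

theorem qq_sup {J : V → V → ℝ} (hJ : ∀ x y, 0 ≤ J x y) (hs : ∀ x y, J x y = J y x)
    (h0 : ∀ x, J x x = 0) {u w M : ℝ} (hw : 0 ≤ w) (h : ∀ a b, qq J u a b ≤ M) (a b : V) :
    qq J (u + w) a b ≤ M := by
  rw [← sum_qq hs h0]
  calc ∑ e, qq J u a e * qq J w e b ≤ ∑ e, M * qq J w e b :=
        Finset.sum_le_sum fun e _ => mul_le_mul_of_nonneg_right (h a e) (qq_nonneg hJ hw e b)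
    _ = M := by rw [← Finset.mul_sum, qq_col, mul_one]

/-- the meeting rate of two strands, for given starting points -/
noncomputable def cell (J : V → V → ℝ) (K : ℕ) (s t : ℝ) (i j : Fin (K + K)) (x y : V) : ℝ :=
  ∑ p : Fin K → V, ∑ q : Fin K → V, ∑ z : Fin (K + K) → V,
    VV J (K + K) (t - s) (Fin.append (pre x p) (pre y q)) (Function.update z i (z j)) *
      J (z j) (z i) * VV J (K + K) s z (Fin.append p q)

theorem cell_eq {J : V → V → ℝ} (hs : ∀ x y, J x y = J y x) (h0 : ∀ x, J x x = 0) {K : ℕ}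
    (s t : ℝ) (i j : Fin (K + K)) (hij : i ≠ j) (x y : V) :
    cell J K s t i j x y = ∑ a, ∑ b, J b a * (CS K (kk J s t i j a b) x *
        CS K (fun l => kk J s t i j a b (K + l)) y) := by
  unfold cell
  simp only [sum_z hs h0 s t i j hij]
  have e1 : ∀ (p q : Fin K → V) (a b : V), ∏ l : Fin (K + K),
      kk J s t i j a b l (Fin.append (pre x p) (pre y q) l) (Fin.append p q l) =
      (∏ l : Fin K, kk J s t i j a b l (pre x p l) (p l)) *
        ∏ l : Fin K, kk J s t i j a b (K + l) (pre y q l) (q l) := by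
    intro p q a b
    rw [Fin.prod_univ_add]
    simp only [Fin.append_left, Fin.append_right, Fin.val_castAdd, Fin.val_natAdd]
  simp only [e1]
  rw [Finset.sum_congr rfl fun p _ => Finset.sum_comm, Finset.sum_comm]
  refine Finset.sum_congr rfl fun a _ => ?_
  rw [Finset.sum_congr rfl fun p _ => Finset.sum_comm, Finset.sum_comm]
  refine Finset.sum_congr rfl fun b _ => ?_
  unfold CS
  rw [Finset.sum_mul_sum, Finset.mul_sum]
  refine Finset.sum_congr rfl fun p _ => ?_
  rw [Finset.mul_sum]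

theorem cell_same {J : V → V → ℝ} (hJ : ∀ x y, 0 ≤ J x y) (hs : ∀ x y, J x y = J y x)
    (h0 : ∀ x, J x x = 0) {K : ℕ} {r : ℝ} (hr : ∀ x, ∑ y, J x y ≤ r) {s t : ℝ}
    (hs0 : 0 ≤ s) (hst : s ≤ t) (Q : ℕ → ℝ)
    (hQ : ∀ m, 0 < m → m < K → ∀ a b, qq J (m * t) a b ≤ Q m)
    (i j : Fin (K + K)) (hij : i ≠ j) (hb : (i : ℕ) < K ↔ (j : ℕ) < K) (x y : V) :
    cell J K s t i j x y ≤ r * Q (max (i : ℕ) j - min (i : ℕ) j) := by
  have ht : 0 ≤ t := hs0.trans hst
  rw [cell_eq hs h0 s t i j hij]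
  have hik := i.2
  have hjk := j.2
  have hijv : (i : ℕ) ≠ (j : ℕ) := fun h => hij (Fin.ext h)
  by_cases hi : (i : ℕ) < K
  · have hj : (j : ℕ) < K := hb.1 hi
    have e2 : ∀ a b, CS K (fun l => kk J s t i j a b (K + l)) y = 1 := by
      intro a b
      refine CS_unmarked (J := J) t y _ fun l hl => ?_
      funext x' w
      unfold kk
      rw [if_neg (by omega), if_neg (by omega)]
    simp only [e2, mul_one]
    exact pair_CS hJ hs h0 hr x hst ht (⟨i, hi⟩ : Fin K) ⟨j, hj⟩
      (fun h => hijv (by simpa using h)) Q hQ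
  · have hj : ¬ (j : ℕ) < K := fun h => hi (hb.2 h)
    have e2 : ∀ a b, CS K (kk J s t i j a b) x = 1 := by
      intro a b
      refine CS_unmarked (J := J) t x _ fun l hl => ?_
      funext x' w
      unfold kk
      rw [if_neg (by omega), if_neg (by omega)]
    have e3 : ∀ a b, CS K (fun l => kk J s t i j a b (K + l)) y =
        CS K (kk J s t ((i : ℕ) - K : ℕ) ((j : ℕ) - K : ℕ) a b) y := by
      intro a b
      refine CS_congr (fun l hl => ?_) y
      funext x' w
      unfold kk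
      have h1 : (K + l = (i : ℕ)) ↔ l = (i : ℕ) - K := by omega
      have h2 : (K + l = (j : ℕ)) ↔ l = (j : ℕ) - K := by omega
      simp only [h1, h2]
    simp only [e2, e3, one_mul]
    have h := pair_CS hJ hs h0 hr y hst ht (⟨(i : ℕ) - K, by omega⟩ : Fin K)
      ⟨(j : ℕ) - K, by omega⟩ (fun h => by
        have := congrArg Fin.val h
        simp only at this
        omega) Q hQ
    have h3 : max ((i : ℕ) - K) ((j : ℕ) - K) - min ((i : ℕ) - K) ((j : ℕ) - K) =
        max (i : ℕ) j - min (i : ℕ) j := by omega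
    simp only [h3] at h
    exact h

theorem cell_cross {J : V → V → ℝ} (hs : ∀ x y, J x y = J y x)
    (h0 : ∀ x, J x x = 0) {K : ℕ} {s t : ℝ}
    (i j : Fin (K + K)) (hij : i ≠ j) (hb : ¬ ((i : ℕ) < K ↔ (j : ℕ) < K)) (x y : V) :
    cell J K s t i j x y = ∑ a, ∑ b, J b a *
      (qq J (((min (i : ℕ) j : ℕ) : ℝ) * t + (t - s)) x b *
        qq J (((max (i : ℕ) j - K : ℕ) : ℝ) * t + (t - s)) y b) := by
  rw [cell_eq hs h0 s t i j hij]
  have hik := i.2
  have hjk := j.2
  refine Finset.sum_congr rfl fun a _ => Finset.sum_congr rfl fun b _ => ?_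
  congr 1
  by_cases hi : (i : ℕ) < K
  · have hj : ¬ (j : ℕ) < K := fun h => hb (iff_of_true hi h)
    rw [CS_one hs h0 s t x b a i hi (kk J s t i j a b) (fun l hl hl' => by
            funext x' w
            unfold kk
            rw [if_neg hl', if_neg (by omega)]) (fun x' w => by
            unfold kk
            rw [if_pos rfl]),
          CS_one hs h0 s t y b b ((j : ℕ) - K) (by omega) (fun l => kk J s t i j a b (K + l))
            (fun l hl hl' => by
              funext x' w
              unfold kk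
              rw [if_neg (by omega), if_neg (by omega)]) (fun x' w => by
              unfold kk
              rw [if_neg (by omega), if_pos (by omega)])]
    have h1 : min (i : ℕ) j = i := by omega
    have h2 : max (i : ℕ) j = j := by omega
    rw [h1, h2]
  · have hj : (j : ℕ) < K := by
      by_contra h
      exact hb (iff_of_false hi h)
    rw [CS_one hs h0 s t x b b j hj (kk J s t i j a b) (fun l hl hl' => by
            funext x' w
            unfold kk
            rw [if_neg (by omega), if_neg hl']) (fun x' w => by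
            unfold kk
            rw [if_neg (by omega), if_pos rfl]),
          CS_one hs h0 s t y b a ((i : ℕ) - K) (by omega) (fun l => kk J s t i j a b (K + l))
            (fun l hl hl' => by
              funext x' w
              unfold kk
              rw [if_neg (by omega), if_neg (by omega)]) (fun x' w => by
              unfold kk
              rw [if_pos (by omega)])]
    have h1 : min (i : ℕ) j = j := by omega
    have h2 : max (i : ℕ) j = i := by omega
    rw [h1, h2]

/-- reordering -/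
theorem cross_sum (J : V → V → ℝ) (u w : ℝ) (B : Finset V) :
    ∑ x ∈ B, ∑ y ∈ B, ∑ a, ∑ b, J b a * (qq J u x b * qq J w y b) =
      ∑ b, (∑ a, J b a) * ((∑ x ∈ B, qq J u x b) * (∑ y ∈ B, qq J w y b)) := by
  have e1 : ∀ x y, ∑ a, ∑ b, J b a * (qq J u x b * qq J w y b) =
      ∑ b, (∑ a, J b a) * (qq J u x b * qq J w y b) := by
    intro x y
    rw [Finset.sum_comm]
    exact Finset.sum_congr rfl fun b _ => by rw [Finset.sum_mul]
  simp only [e1]
  have e2 : ∀ x, ∑ y ∈ B, ∑ b, (∑ a, J b a) * (qq J u x b * qq J w y b) =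
      ∑ b, (∑ a, J b a) * (qq J u x b * ∑ y ∈ B, qq J w y b) := by
    intro x
    rw [Finset.sum_comm]
    refine Finset.sum_congr rfl fun b _ => ?_
    rw [Finset.mul_sum, Finset.mul_sum]
  simp only [e2]
  rw [Finset.sum_comm]
  refine Finset.sum_congr rfl fun b _ => ?_
  rw [← Finset.mul_sum (s := B), ← Finset.sum_mul]

theorem col_le_one {J : V → V → ℝ} (hJ : ∀ x y, 0 ≤ J x y) {u : ℝ} (hu : 0 ≤ u) (B : Finset V)
    (b : V) : ∑ x ∈ B, qq J u x b ≤ 1 := by
  rw [← qq_col J u b]
  exact Finset.sum_le_sum_of_subset_of_nonneg (Finset.subset_univ B)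
    fun x _ _ => qq_nonneg hJ hu x b

theorem row_mass (J : V → V → ℝ) (w : ℝ) (B : Finset V) :
    ∑ b, ∑ y ∈ B, qq J w y b = B.card := by
  rw [Finset.sum_comm]
  simp only [qq_row, Finset.sum_const, nsmul_eq_mul, mul_one]

theorem cross_le {J : V → V → ℝ} (hJ : ∀ x y, 0 ≤ J x y) {r : ℝ} (hr : ∀ x, ∑ y, J x y ≤ r)
    {u w : ℝ} (hu : 0 ≤ u) (hw : 0 ≤ w) (B : Finset V) {c : ℝ} (_hc : 0 ≤ c)
    (h : ∀ b, ∑ x ∈ B, qq J u x b ≤ c) :
    ∑ x ∈ B, ∑ y ∈ B, ∑ a, ∑ b, J b a * (qq J u x b * qq J w y b) ≤ r * (B.card * c) := by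
  rw [cross_sum]
  have hr0 : 0 ≤ r ∨ IsEmpty V := by
    by_cases hV : Nonempty V
    · obtain ⟨v⟩ := hV
      exact Or.inl ((Finset.sum_nonneg fun y _ => hJ v y).trans (hr v))
    · exact Or.inr (not_nonempty_iff.1 hV)
  rcases hr0 with hr0 | hV
  · calc ∑ b, (∑ a, J b a) * ((∑ x ∈ B, qq J u x b) * (∑ y ∈ B, qq J w y b))
        ≤ ∑ b, r * (c * (∑ y ∈ B, qq J w y b)) := by
          refine Finset.sum_le_sum fun b _ => ?_
          have h1 : 0 ≤ ∑ y ∈ B, qq J w y b := Finset.sum_nonneg fun y _ => qq_nonneg hJ hw y b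
          have h2 : 0 ≤ ∑ x ∈ B, qq J u x b := Finset.sum_nonneg fun y _ => qq_nonneg hJ hu y b
          exact mul_le_mul (hr b) (mul_le_mul_of_nonneg_right (h b) h1) (mul_nonneg h2 h1) hr0
      _ = r * (B.card * c) := by
          rw [← Finset.mul_sum, ← Finset.mul_sum, row_mass]
          ring
  · have hB : B = ∅ := Finset.eq_empty_of_isEmpty B
    subst hB
    simp

theorem cross_le' {J : V → V → ℝ} (hJ : ∀ x y, 0 ≤ J x y) {r : ℝ} (hr : ∀ x, ∑ y, J x y ≤ r)
    {u w : ℝ} (hu : 0 ≤ u) (hw : 0 ≤ w) (B : Finset V) {c : ℝ} (hc : 0 ≤ c)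
    (h : ∀ b, ∑ x ∈ B, qq J w x b ≤ c) :
    ∑ x ∈ B, ∑ y ∈ B, ∑ a, ∑ b, J b a * (qq J u x b * qq J w y b) ≤ r * (B.card * c) := by
  refine le_trans (le_of_eq ?_) (cross_le hJ hr hw hu B hc h)
  rw [cross_sum, cross_sum]
  exact Finset.sum_congr rfl fun b _ => by ring

/-- the bound for the meeting rate of two strands of different orbits -/
noncomputable def ec (Q : ℕ → ℝ) (r β : ℝ) (i j : ℕ) : ℝ :=
  if i = 0 then (if j = 0 then r * β else r * (β * (β * Q j))) else r * (β * (β * Q i))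

theorem cell_cross_le {J : V → V → ℝ} (hJ : ∀ x y, 0 ≤ J x y) (hs : ∀ x y, J x y = J y x)
    (h0 : ∀ x, J x x = 0) {K : ℕ} {r : ℝ} (hr : ∀ x, ∑ y, J x y ≤ r) {s t : ℝ}
    (hs0 : 0 ≤ s) (hst : s ≤ t) (Q : ℕ → ℝ) (hQ0 : ∀ m, 0 ≤ Q m)
    (hQ : ∀ m : ℕ, 0 < m → ∀ a b, qq J (m * t) a b ≤ Q m) (B : Finset V)
    (i j : Fin (K + K)) (hij : i ≠ j) (hb : ¬ ((i : ℕ) < K ↔ (j : ℕ) < K)) :
    ∑ x ∈ B, ∑ y ∈ B, cell J K s t i j x y ≤ ec Q r B.card (min (i : ℕ) j) (max (i : ℕ) j - K) := by
  have ht : 0 ≤ t := hs0.trans hst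
  have hts : 0 ≤ t - s := by linarith
  simp only [cell_cross hs h0 i j hij hb]
  obtain ⟨m, hm⟩ : ∃ m : ℕ, m = min (i : ℕ) j := ⟨_, rfl⟩
  obtain ⟨n, hn⟩ : ∃ n : ℕ, n = max (i : ℕ) j - K := ⟨_, rfl⟩
  rw [← hm, ← hn]
  have hu : (0 : ℝ) ≤ (m : ℝ) * t + (t - s) := by positivity
  have hw : (0 : ℝ) ≤ (n : ℝ) * t + (t - s) := by positivity
  have hsum : ∀ l : ℕ, 0 < l → ∀ b, ∑ x ∈ B, qq J ((l : ℝ) * t + (t - s)) x b ≤
      B.card * Q l := by
    intro l hl b
    calc ∑ x ∈ B, qq J ((l : ℝ) * t + (t - s)) x b ≤ ∑ _x ∈ B, Q l :=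
          Finset.sum_le_sum fun x _ => qq_sup hJ hs h0 hts (hQ l hl) x b
      _ = B.card * Q l := by rw [Finset.sum_const, nsmul_eq_mul]
  unfold ec
  by_cases h1 : m = 0
  · rw [if_pos h1]
    by_cases h2 : n = 0
    · rw [if_pos h2]
      have h3 := cross_le hJ hr hu hw B zero_le_one (col_le_one hJ hu B)
      rwa [mul_one] at h3
    · rw [if_neg h2]
      exact cross_le' hJ hr hu hw B (mul_nonneg (Nat.cast_nonneg _) (hQ0 n))
        (hsum n (Nat.pos_of_ne_zero h2))
  · rw [if_neg h1]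
    exact cross_le hJ hr hu hw B (mul_nonneg (Nat.cast_nonneg _) (hQ0 m))
      (hsum m (Nat.pos_of_ne_zero h1))

/-- all the pairs of strands -/
theorem total_le {K : ℕ} (Q : ℕ → ℝ) (hQ : ∀ m, 0 ≤ Q m) {r β : ℝ} (hr : 0 ≤ r) (hβ : 0 ≤ β)
    (F : Fin (K + K) → Fin (K + K) → ℝ)
    (h1 : ∀ i j : Fin (K + K), i ≠ j → ((i : ℕ) < K ↔ (j : ℕ) < K) →
      F i j ≤ β ^ 2 * (r * Q (max (i : ℕ) j - min (i : ℕ) j)))
    (h2 : ∀ i j : Fin (K + K), i ≠ j → ¬ ((i : ℕ) < K ↔ (j : ℕ) < K) →
      F i j ≤ ec Q r β (min (i : ℕ) j) (max (i : ℕ) j - K)) :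
    ∑ i : Fin (K + K), ∑ j : Fin (K + K), (if i = j then 0 else F i j) ≤
      r * (8 * β ^ 2 * (K * ∑ m ∈ Finset.Icc 1 K, Q m)) + 2 * (r * β) := by
  obtain ⟨S, hS⟩ : ∃ S : ℝ, S = ∑ m ∈ Finset.Icc 1 K, Q m := ⟨_, rfl⟩
  have hS0 : 0 ≤ S := by rw [hS]; exact Finset.sum_nonneg fun m _ => hQ m
  have hIoo : ∑ m ∈ Finset.Ioo 0 K, Q m ≤ S := by
    rw [hS]
    refine Finset.sum_le_sum_of_subset_of_nonneg ?_ fun m _ _ => hQ m
    intro m hm
    rw [Finset.mem_Ioo] at hm
    rw [Finset.mem_Icc]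
    omega
  have hb := block_le (K := K) Q (fun m _ _ => hQ m)
  have hK0 : (0 : ℝ) ≤ K := by positivity
  have hb1 : ∑ i : Fin K, ∑ j : Fin K, (if i = j then 0 else Q (max (i : ℕ) j - min (i : ℕ) j)) ≤
      2 * (K * S) := hb.trans (by
        have := mul_le_mul_of_nonneg_left hIoo hK0
        linarith)
  have hb2 := mul_le_mul_of_nonneg_left hb1 (show 0 ≤ β ^ 2 * r by positivity)
  -- the cross terms
  have hc : ∑ i : Fin K, ∑ j : Fin K, ec Q r β i j ≤ r * (2 * β ^ 2 * (K * S)) + r * β := by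
    have hcase : ∀ i j : Fin K, ec Q r β i j ≤ (if (i : ℕ) = 0 then (if (j : ℕ) = 0 then r * β else 0)
        else 0) + (if (i : ℕ) = 0 then r * β ^ 2 * (if (j : ℕ) = 0 then 0 else Q j) else 0) +
        r * β ^ 2 * (if (i : ℕ) = 0 then 0 else Q i) := by
      intro i j
      unfold ec
      by_cases hi : (i : ℕ) = 0
      · by_cases hj : (j : ℕ) = 0
        · rw [if_pos hi, if_pos hj, if_pos hi, if_pos hj, if_pos hi, if_pos hj, if_pos hi]
          linarith
        · rw [if_pos hi, if_neg hj, if_pos hi, if_neg hj, if_pos hi, if_neg hj, if_pos hi]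
          apply le_of_eq
          ring
      · rw [if_neg hi, if_neg hi, if_neg hi, if_neg hi]
        apply le_of_eq
        ring
    have hz : ∑ j : Fin K, (if (j : ℕ) = 0 then 0 else Q j) ≤ S := by
      have e : ∑ j : Fin K, (if (j : ℕ) = 0 then 0 else Q j) =
          ∑ m ∈ Finset.range K, (if m = 0 then 0 else Q m) :=
        (Finset.sum_range (fun m : ℕ => if m = 0 then 0 else Q m)).symm
      rw [e, hS]
      calc ∑ m ∈ Finset.range K, (if m = 0 then 0 else Q m)
          = ∑ m ∈ Finset.range K with ¬ m = 0, Q m := by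
            rw [Finset.sum_filter]
            refine Finset.sum_congr rfl fun m _ => ?_
            by_cases h : m = 0
            · rw [if_pos h, if_neg (not_not.2 h)]
            · rw [if_neg h, if_pos h]
        _ ≤ ∑ m ∈ Finset.Icc 1 K, Q m := by
            refine Finset.sum_le_sum_of_subset_of_nonneg ?_ fun m _ _ => hQ m
            intro m hm
            rw [Finset.mem_filter, Finset.mem_range] at hm
            rw [Finset.mem_Icc]
            omega
    have hone : ∀ c : ℝ, 0 ≤ c → ∑ i : Fin K, (if (i : ℕ) = 0 then c else 0) ≤ c := by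
      intro c hc
      have e : ∑ i : Fin K, (if (i : ℕ) = 0 then c else 0) =
          ∑ m ∈ Finset.range K, (if m = 0 then c else 0) :=
        (Finset.sum_range (fun m : ℕ => if m = 0 then c else 0)).symm
      rw [e, Finset.sum_ite_eq']
      split_ifs
      · exact le_rfl
      · exact hc
    refine (Finset.sum_le_sum fun i _ => Finset.sum_le_sum fun j _ => hcase i j).trans ?_
    simp only [Finset.sum_add_distrib]
    have a1 : ∑ i : Fin K, ∑ j : Fin K, (if (i : ℕ) = 0 then (if (j : ℕ) = 0 then r * β else 0)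
        else 0) ≤ r * β := by
      have e : ∀ i : Fin K, ∑ j : Fin K, (if (i : ℕ) = 0 then (if (j : ℕ) = 0 then r * β else 0)
        else 0) = if (i : ℕ) = 0 then ∑ j : Fin K, (if (j : ℕ) = 0 then r * β else 0) else 0 := by
        intro i
        split_ifs
        · rfl
        · exact Finset.sum_const_zero
      simp only [e]
      have h3 := hone (r * β) (by positivity)
      have h4 := hone (∑ j : Fin K, (if (j : ℕ) = 0 then r * β else 0))
        (Finset.sum_nonneg fun j _ => by split_ifs <;> positivity)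
      exact h4.trans h3
    have a2 : ∑ i : Fin K, ∑ j : Fin K, (if (i : ℕ) = 0 then
        r * β ^ 2 * (if (j : ℕ) = 0 then 0 else Q j) else 0) ≤ r * β ^ 2 * (K * S) := by
      by_cases hK : K = 0
      · subst hK
        simp
      have e : ∀ i : Fin K, ∑ j : Fin K, (if (i : ℕ) = 0 then
          r * β ^ 2 * (if (j : ℕ) = 0 then 0 else Q j) else 0) =
          if (i : ℕ) = 0 then r * β ^ 2 * ∑ j : Fin K, (if (j : ℕ) = 0 then 0 else Q j) else 0 := by
        intro i
        split_ifs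
        · rw [Finset.mul_sum]
        · exact Finset.sum_const_zero
      simp only [e]
      have hn : 0 ≤ ∑ j : Fin K, (if (j : ℕ) = 0 then 0 else Q j) :=
        Finset.sum_nonneg fun j _ => by
          split_ifs
          · exact le_rfl
          · exact hQ _
      have h4 := hone (r * β ^ 2 * ∑ j : Fin K, (if (j : ℕ) = 0 then 0 else Q j)) (by positivity)
      refine h4.trans (mul_le_mul_of_nonneg_left (hz.trans ?_) (by positivity))
      have : (1 : ℝ) ≤ K := by exact_mod_cast Nat.one_le_iff_ne_zero.2 hK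
      nlinarith
    have a3 : ∑ i : Fin K, ∑ _j : Fin K, r * β ^ 2 * (if (i : ℕ) = 0 then 0 else Q i) ≤
        r * β ^ 2 * (K * S) := by
      simp only [Finset.sum_const, Finset.card_univ, Fintype.card_fin, nsmul_eq_mul]
      rw [← Finset.mul_sum, ← Finset.mul_sum]
      have := mul_le_mul_of_nonneg_left hz hK0
      have := mul_le_mul_of_nonneg_left this (show 0 ≤ r * β ^ 2 by positivity)
      linarith
    linarith
  -- split
  rw [Fin.sum_univ_add]
  simp only [Fin.sum_univ_add, Finset.sum_add_distrib]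
  have e1 : ∑ i : Fin K, ∑ j : Fin K, (if (Fin.castAdd K i) = (Fin.castAdd K j) then (0 : ℝ) else
      F (Fin.castAdd K i) (Fin.castAdd K j)) ≤
      ∑ i : Fin K, ∑ j : Fin K, β ^ 2 * r *
        (if i = j then 0 else Q (max (i : ℕ) j - min (i : ℕ) j)) := by
    refine Finset.sum_le_sum fun i _ => Finset.sum_le_sum fun j _ => ?_
    by_cases hij : i = j
    · subst hij
      rw [if_pos rfl, if_pos rfl, mul_zero]
    · have h3 : ¬ (Fin.castAdd K i = Fin.castAdd K j) := fun h =>
        hij (Fin.castAdd_injective K K h)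
      rw [if_neg hij, if_neg h3]
      have h4 := h1 _ _ h3 (by
        simp only [Fin.val_castAdd]
        exact iff_of_true i.2 j.2)
      simp only [Fin.val_castAdd] at h4
      linarith
  have e2 : ∑ i : Fin K, ∑ j : Fin K, (if (Fin.natAdd K i) = (Fin.natAdd K j) then (0 : ℝ) else
      F (Fin.natAdd K i) (Fin.natAdd K j)) ≤
      ∑ i : Fin K, ∑ j : Fin K, β ^ 2 * r *
        (if i = j then 0 else Q (max (i : ℕ) j - min (i : ℕ) j)) := by
    refine Finset.sum_le_sum fun i _ => Finset.sum_le_sum fun j _ => ?_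
    by_cases hij : i = j
    · subst hij
      rw [if_pos rfl, if_pos rfl, mul_zero]
    · have h3 : ¬ (Fin.natAdd K i = Fin.natAdd K j) := fun h =>
        hij (Fin.natAdd_injective K K h)
      rw [if_neg hij, if_neg h3]
      have h4 := h1 _ _ h3 (by
        simp only [Fin.val_natAdd]
        exact iff_of_false (by omega) (by omega))
      simp only [Fin.val_natAdd] at h4
      have h5 : max (K + (i : ℕ)) (K + (j : ℕ)) - min (K + (i : ℕ)) (K + (j : ℕ)) =
          max (i : ℕ) j - min (i : ℕ) j := by omega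
      rw [h5] at h4
      linarith
  have hne : ∀ i j : Fin K, ¬ (Fin.castAdd K i = Fin.natAdd K j) := fun i j h => by
    have h2 := congrArg (fun z : Fin (K + K) => (z : ℕ)) h
    simp only [Fin.val_castAdd, Fin.val_natAdd] at h2
    have := i.2
    omega
  have e3 : ∑ i : Fin K, ∑ j : Fin K, (if (Fin.castAdd K i) = (Fin.natAdd K j) then (0 : ℝ) else
      F (Fin.castAdd K i) (Fin.natAdd K j)) ≤ ∑ i : Fin K, ∑ j : Fin K, ec Q r β i j := by
    refine Finset.sum_le_sum fun i _ => Finset.sum_le_sum fun j _ => ?_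
    rw [if_neg (hne i j)]
    have h4 := h2 _ _ (hne i j) (by
      simp only [Fin.val_castAdd, Fin.val_natAdd]
      exact fun h => by
        have := h.1 i.2
        omega)
    simp only [Fin.val_castAdd, Fin.val_natAdd] at h4
    have h5 : min (i : ℕ) (K + (j : ℕ)) = i := by have := i.2; omega
    have h6 : max (i : ℕ) (K + (j : ℕ)) - K = j := by have := i.2; omega
    rwa [h5, h6] at h4
  have e4 : ∑ i : Fin K, ∑ j : Fin K, (if (Fin.natAdd K i) = (Fin.castAdd K j) then (0 : ℝ) else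
      F (Fin.natAdd K i) (Fin.castAdd K j)) ≤ ∑ i : Fin K, ∑ j : Fin K, ec Q r β i j := by
    rw [Finset.sum_comm (s := (Finset.univ : Finset (Fin K))) (t := (Finset.univ : Finset (Fin K)))
      (f := fun i j : Fin K => ec Q r β i j)]
    refine Finset.sum_le_sum fun i _ => Finset.sum_le_sum fun j _ => ?_
    have h7 : ¬ (Fin.natAdd K i = Fin.castAdd K j) := fun h => hne j i h.symm
    rw [if_neg h7]
    have h4 := h2 _ _ h7 (by
      simp only [Fin.val_castAdd, Fin.val_natAdd]
      exact fun h => by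
        have := h.2 j.2
        omega)
    simp only [Fin.val_castAdd, Fin.val_natAdd] at h4
    have h5 : min (K + (i : ℕ)) (j : ℕ) = j := by have := j.2; omega
    have h6 : max (K + (i : ℕ)) (j : ℕ) - K = i := by have := j.2; omega
    rwa [h5, h6] at h4
  simp only [← Finset.mul_sum] at e1 e2
  rw [← hS]
  linarith

end Pool.Agent.Q287.SD
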