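import Pool.Agent.Q287.SD.TwoB

/-!
# Two orbits which start from a given finite set are close to two random walks
-/

set_option autoImplicit false
set_option linter.unusedSectionVars false

namespace Pool.Agent.Q287.SD

open Finset Equiv
open Pool.Agent.Y998.ST
open Pool.Agent.Y661.PD
open Pool.Agent.Y799.PD.PR2 (qq_col)
open Pool.Agent.Y815.PD.TWOG (VV_append UU_append)
open Pool.Agent.Y431.PD.CO2 (two_le not_inj)

variable {V : Type} [Fintype V] [DecidableEq V]

/-- the law of one point of the walk -/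
theorem marg1 {J : V → V → ℝ} (hs : ∀ x y, J x y = J y x) (h0 : ∀ x, J x x = 0) {K : ℕ}
    (t : ℝ) (i : Fin K) (c x : V) :
    ∑ p : Fin K → V, (if p i = c then VV J K t (pre x p) p else 0) =
      qq J ((i : ℕ) * t + t) x c := by
  obtain ⟨k, hk⟩ : ∃ k : ℕ → V → V → ℝ, k = fun l x w =>
    if l = (i : ℕ) then qq J t x c * (if w = c then 1 else 0) else qq J t x w := ⟨_, rfl⟩
  have h2 := one_special (q := qq J t) (qq_row J t) (fun x => qq J t x c)
    (fun w => if w = c then 1 else 0)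
    (by rw [Finset.sum_ite_eq', if_pos (Finset.mem_univ _)]) (i : ℕ) K k x i.2
    (fun l hl => by funext x w; rw [hk]; simp only; rw [if_neg hl])
    (fun x w => by rw [hk]; simp only [if_true])
  rw [mulVec_qq hs h0] at h2
  rw [← h2]
  unfold CS
  refine Finset.sum_congr rfl fun p _ => ?_
  by_cases h : p i = c
  · rw [if_pos h]
    unfold VV
    refine Finset.prod_congr rfl fun l _ => ?_
    rw [hk]
    simp only
    by_cases hl : (l : ℕ) = i
    · have : l = i := Fin.ext hl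
      subst this
      rw [if_pos rfl, if_pos h, mul_one, h]
    · rw [if_neg hl]
  · rw [if_neg h]
    symm
    refine Finset.prod_eq_zero (Finset.mem_univ i) ?_
    rw [hk]
    simp [h]

theorem swpB {X P ι : Type} [Fintype P] [Fintype ι] (B : Finset X)
    (f : ι → X → X → P → P → ℝ) :
    ∑ x ∈ B, ∑ y ∈ B, ∑ p, ∑ q, ∑ a, f a x y p q = ∑ a, ∑ x ∈ B, ∑ y ∈ B, ∑ p, ∑ q, f a x y p q := by
  calc ∑ x ∈ B, ∑ y ∈ B, ∑ p, ∑ q, ∑ a, f a x y p q
      = ∑ x ∈ B, ∑ y ∈ B, ∑ p, ∑ a, ∑ q, f a x y p q :=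
        Finset.sum_congr rfl fun x _ => Finset.sum_congr rfl fun y _ =>
          Finset.sum_congr rfl fun p _ => Finset.sum_comm
    _ = ∑ x ∈ B, ∑ y ∈ B, ∑ a, ∑ p, ∑ q, f a x y p q :=
        Finset.sum_congr rfl fun x _ => Finset.sum_congr rfl fun y _ => Finset.sum_comm
    _ = ∑ x ∈ B, ∑ a, ∑ y ∈ B, ∑ p, ∑ q, f a x y p q :=
        Finset.sum_congr rfl fun x _ => Finset.sum_comm
    _ = ∑ a, ∑ x ∈ B, ∑ y ∈ B, ∑ p, ∑ q, f a x y p q := Finset.sum_comm

theorem facB {X P : Type} [Fintype P] (B : Finset X) (f g : X → P → ℝ) :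
    ∑ x ∈ B, ∑ y ∈ B, ∑ p, ∑ q, f x p * g y q =
      (∑ x ∈ B, ∑ p, f x p) * (∑ y ∈ B, ∑ q, g y q) := by
  rw [Finset.sum_mul_sum]
  refine Finset.sum_congr rfl fun x _ => ?_
  refine Finset.sum_congr rfl fun y _ => ?_
  rw [Finset.sum_mul_sum]

/-- coincidences -/
theorem coB {J : V → V → ℝ} (hJ : ∀ x y, 0 ≤ J x y) (hs : ∀ x y, J x y = J y x)
    (h0 : ∀ x, J x x = 0) (K : ℕ) {t : ℝ} (ht : 0 ≤ t) (Q : ℕ → ℝ) (hQ0 : ∀ m, 0 ≤ Q m)
    (hQ : ∀ m : ℕ, 0 < m → ∀ a b, qq J (m * t) a b ≤ Q m) (B : Finset V) :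
    ∑ x ∈ B, ∑ y ∈ B, ∑ p : Fin K → V, ∑ q : Fin K → V,
      (if Function.Injective (Fin.append p q) then 0 else
        VV J K t (pre x p) p * VV J K t (pre y q) q) ≤
      3 * (B.card : ℝ) ^ 2 * (K * ∑ m ∈ Finset.Icc 1 K, Q m) := by
  obtain ⟨A, hA⟩ : ∃ A : V → (Fin K → V) → ℝ, A = fun x p => VV J K t (pre x p) p := ⟨_, rfl⟩
  have hA0 : ∀ x p, 0 ≤ A x p := by
    intro x p
    rw [hA]
    exact VV_nonneg hJ K ht _ _
  have hA1 : ∀ x, ∑ p, A x p = 1 := by
    intro x
    rw [hA]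
    exact CS_stoch (qq_row J t) K x
  obtain ⟨S, hS⟩ : ∃ S : ℝ, S = ∑ m ∈ Finset.Icc 1 K, Q m := ⟨_, rfl⟩
  have hIoo : ∑ m ∈ Finset.Ioo 0 K, Q m ≤ S := by
    rw [hS]
    refine Finset.sum_le_sum_of_subset_of_nonneg ?_ fun m _ _ => hQ0 m
    intro m hm
    rw [Finset.mem_Ioo] at hm
    rw [Finset.mem_Icc]
    omega
  obtain ⟨c, hc⟩ : ∃ c : (Fin K → V) → ℝ, c = fun p => ∑ i : Fin K, ∑ j : Fin K,
      (if i < j ∧ p i = p j then (1 : ℝ) else 0) := ⟨_, rfl⟩
  have hc0 : ∀ p, 0 ≤ c p := by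
    intro p
    rw [hc]
    refine Finset.sum_nonneg fun i _ => Finset.sum_nonneg fun j _ => ?_
    split_ifs <;> norm_num
  have hc1 : ∀ p, (∃ i j, i < j ∧ p i = p j) → 1 ≤ c p := by
    rintro p ⟨i, j, hij⟩
    rw [hc]
    have h1 : (if i < j ∧ p i = p j then (1 : ℝ) else 0) ≤ ∑ i : Fin K, ∑ j : Fin K,
        (if i < j ∧ p i = p j then (1 : ℝ) else 0) :=
      two_le (fun i j : Fin K => if i < j ∧ p i = p j then (1 : ℝ) else 0)
        (fun i j => by split_ifs <;> norm_num) i j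
    rw [if_pos hij] at h1
    exact h1
  have hcoin : ∀ x, ∑ p, c p * A x p ≤ K * S := by
    intro x
    refine le_trans ?_ ((pairs_le Q fun m _ _ => hQ0 m).trans
      (mul_le_mul_of_nonneg_left hIoo (Nat.cast_nonneg K)))
    have h1 : ∀ p, c p * A x p = ∑ i : Fin K, ∑ j : Fin K,
        (if i < j then (if p i = p j then A x p else 0) else 0) := by
      intro p
      rw [hc]
      simp only [Finset.sum_mul]
      refine Finset.sum_congr rfl fun i _ => Finset.sum_congr rfl fun j _ => ?_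
      by_cases h2 : i < j <;> by_cases h3 : p i = p j <;> simp [h2, h3]
    simp only [h1]
    rw [Finset.sum_comm]
    refine Finset.sum_le_sum fun i _ => ?_
    rw [Finset.sum_comm]
    refine Finset.sum_le_sum fun j _ => ?_
    by_cases hij : i < j
    · simp only [if_pos hij]
      rw [hA]
      exact coin_le hJ hs h0 x ht i j hij Q (fun m hm _ => hQ m hm)
    · simp only [if_neg hij]
      rw [Finset.sum_const_zero]
  have hmarg : ∀ (i : Fin K) (b x : V), ∑ p, (if p i = b then A x p else 0) =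
      qq J ((i : ℕ) * t + t) x b := by
    intro i b x
    rw [hA]
    exact marg1 hs h0 t i b x
  have hpt : ∀ x y p q, (if Function.Injective (Fin.append p q) then 0 else A x p * A y q) ≤
      (c p * A x p) * A y q + A x p * (c q * A y q) + ∑ a : Fin K × Fin K × V,
        (if p a.1 = a.2.2 then A x p else 0) * (if q a.2.1 = a.2.2 then A y q else 0) := by
    intro x y p q
    have n1 : 0 ≤ (c p * A x p) * A y q := mul_nonneg (mul_nonneg (hc0 p) (hA0 x p)) (hA0 y q)
    have n2 : 0 ≤ A x p * (c q * A y q) := mul_nonneg (hA0 x p) (mul_nonneg (hc0 q) (hA0 y q))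
    have n0 : ∀ a : Fin K × Fin K × V,
        0 ≤ (if p a.1 = a.2.2 then A x p else 0) * (if q a.2.1 = a.2.2 then A y q else 0) := by
      intro a
      refine mul_nonneg ?_ ?_
      · split_ifs
        · exact hA0 x p
        · exact le_rfl
      · split_ifs
        · exact hA0 y q
        · exact le_rfl
    have n3 : 0 ≤ ∑ a : Fin K × Fin K × V,
        (if p a.1 = a.2.2 then A x p else 0) * (if q a.2.1 = a.2.2 then A y q else 0) :=
      Finset.sum_nonneg fun a _ => n0 a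
    by_cases h : Function.Injective (Fin.append p q)
    · rw [if_pos h]
      positivity
    · rw [if_neg h]
      have n4 : 0 ≤ A x p * A y q := mul_nonneg (hA0 x p) (hA0 y q)
      rcases not_inj p q h with h1 | h1 | ⟨i, j, hij⟩
      · have h2 := hc1 p h1
        have h3 : A x p * A y q ≤ (c p * A x p) * A y q := by
          rw [mul_assoc]
          exact le_mul_of_one_le_left n4 h2
        linarith
      · have h2 := hc1 q h1
        have h3 : A x p * A y q ≤ A x p * (c q * A y q) := by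
          have : A x p * (c q * A y q) = c q * (A x p * A y q) := by ring
          rw [this]
          exact le_mul_of_one_le_left n4 h2
        linarith
      · have h3 := Finset.single_le_sum (f := fun a : Fin K × Fin K × V =>
          (if p a.1 = a.2.2 then A x p else 0) * (if q a.2.1 = a.2.2 then A y q else 0))
          (fun a _ => n0 a) (Finset.mem_univ (i, j, p i))
        simp only [if_true] at h3
        rw [if_pos hij.symm] at h3
        linarith
  have e0 : ∀ x p, VV J K t (pre x p) p = A x p := by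
    intro x p
    rw [hA]
  simp only [e0]
  obtain ⟨β, hβ⟩ : ∃ β : ℝ, β = (B.card : ℝ) := ⟨_, rfl⟩
  have hβ0 : 0 ≤ β := by rw [hβ]; exact Nat.cast_nonneg _
  have hAt : ∑ x ∈ B, ∑ p, A x p = β := by
    rw [Finset.sum_congr rfl fun x _ => hA1 x, Finset.sum_const, nsmul_eq_mul, mul_one, hβ]
  have hct : ∑ x ∈ B, ∑ p, c p * A x p ≤ β * (K * S) := by
    refine (Finset.sum_le_sum fun x _ => hcoin x).trans (le_of_eq ?_)
    rw [Finset.sum_const, nsmul_eq_mul, hβ]
  rw [← hβ, ← hS]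
  have hcr : ∑ a : Fin K × Fin K × V,
        (∑ x ∈ B, ∑ p : Fin K → V, (if p a.1 = a.2.2 then A x p else 0)) *
          (∑ y ∈ B, ∑ q : Fin K → V, (if q a.2.1 = a.2.2 then A y q else 0)) ≤
        β ^ 2 * (K * S) := by
    simp only [hmarg]
    have e5 : ∀ f : Fin K × Fin K × V → ℝ, ∑ a, f a = ∑ i : Fin K, ∑ j : Fin K, ∑ b : V, f (i, j, b) := by
      intro f
      rw [Fintype.sum_prod_type]
      exact Finset.sum_congr rfl fun i _ => Fintype.sum_prod_type _
    rw [e5]
    have h1 : ∀ i j : Fin K, ∑ b : V, (∑ x ∈ B, qq J ((i : ℕ) * t + t) x b) *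
        (∑ y ∈ B, qq J ((j : ℕ) * t + t) y b) ≤ β ^ 2 * Q ((i : ℕ) + 1) := by
      intro i j
      have hi0 : (0 : ℝ) ≤ (i : ℕ) * t + t := by positivity
      have hj0 : (0 : ℝ) ≤ (j : ℕ) * t + t := by positivity
      calc ∑ b : V, (∑ x ∈ B, qq J ((i : ℕ) * t + t) x b) *
            (∑ y ∈ B, qq J ((j : ℕ) * t + t) y b)
          ≤ ∑ b : V, (β * Q ((i : ℕ) + 1)) * (∑ y ∈ B, qq J ((j : ℕ) * t + t) y b) := by
            refine Finset.sum_le_sum fun b _ => mul_le_mul_of_nonneg_right ?_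
              (Finset.sum_nonneg fun y _ => qq_nonneg hJ hj0 y b)
            calc ∑ x ∈ B, qq J ((i : ℕ) * t + t) x b ≤ ∑ _x ∈ B, Q ((i : ℕ) + 1) := by
                  refine Finset.sum_le_sum fun x _ => ?_
                  have := hQ ((i : ℕ) + 1) (Nat.succ_pos _) x b
                  push_cast at this
                  rwa [add_mul, one_mul] at this
              _ = β * Q ((i : ℕ) + 1) := by rw [Finset.sum_const, nsmul_eq_mul, hβ]
        _ = β ^ 2 * Q ((i : ℕ) + 1) := by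
            rw [← Finset.mul_sum, row_mass, ← hβ]
            ring
    refine (Finset.sum_le_sum fun i _ => Finset.sum_le_sum fun j _ => h1 i j).trans (le_of_eq ?_)
    have h2 : ∑ i : Fin K, Q ((i : ℕ) + 1) = S := by
      rw [hS, ← Finset.sum_range (fun m : ℕ => Q (m + 1))]
      rw [Finset.range_eq_Ico, Finset.sum_Ico_add' (fun m => Q m) 0 K 1]
      refine Finset.sum_congr ?_ fun _ _ => rfl
      ext m
      rw [Finset.mem_Ico, Finset.mem_Icc]
      omega
    simp only [Finset.sum_const, Finset.card_univ, Fintype.card_fin, nsmul_eq_mul]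
    rw [← Finset.mul_sum, ← Finset.mul_sum, h2]
    ring
  calc ∑ x ∈ B, ∑ y ∈ B, ∑ p : Fin K → V, ∑ q : Fin K → V,
        (if Function.Injective (Fin.append p q) then 0 else A x p * A y q)
      ≤ ∑ x ∈ B, ∑ y ∈ B, ∑ p : Fin K → V, ∑ q : Fin K → V,
        ((c p * A x p) * A y q + A x p * (c q * A y q) + ∑ a : Fin K × Fin K × V,
        (if p a.1 = a.2.2 then A x p else 0) * (if q a.2.1 = a.2.2 then A y q else 0)) :=
        Finset.sum_le_sum fun x _ => Finset.sum_le_sum fun y _ => Finset.sum_le_sum fun p _ =>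
          Finset.sum_le_sum fun q _ => hpt x y p q
    _ = (∑ x ∈ B, ∑ p, c p * A x p) * (∑ y ∈ B, ∑ q, A y q) +
        (∑ x ∈ B, ∑ p, A x p) * (∑ y ∈ B, ∑ q, c q * A y q) + ∑ a : Fin K × Fin K × V,
        (∑ x ∈ B, ∑ p : Fin K → V, (if p a.1 = a.2.2 then A x p else 0)) *
          (∑ y ∈ B, ∑ q : Fin K → V, (if q a.2.1 = a.2.2 then A y q else 0)) := by
        simp only [Finset.sum_add_distrib]
        rw [swpB, facB, facB]
        congr 1
        refine Finset.sum_congr rfl fun a _ => ?_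
        rw [facB]
    _ ≤ (β * (K * S)) * β + β * (β * (K * S)) + β ^ 2 * (K * S) := by
        rw [hAt]
        refine add_le_add (add_le_add ?_ ?_) hcr
        · exact mul_le_mul_of_nonneg_right hct hβ0
        · exact mul_le_mul_of_nonneg_left hct hβ0
    _ = 3 * β ^ 2 * (K * S) := by ring

/-- two orbits which start in `B` -/
theorem twoB {J : V → V → ℝ} (hJ : ∀ x y, 0 ≤ J x y) (hs : ∀ x y, J x y = J y x)
    (h0 : ∀ x, J x x = 0) (K : ℕ) {r : ℝ} (hr : ∀ x, ∑ y, J x y ≤ r) (hr0 : 0 ≤ r)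
    {t : ℝ} (ht : 0 ≤ t) (Q : ℕ → ℝ) (hQ0 : ∀ m, 0 ≤ Q m)
    (hQ : ∀ m : ℕ, 0 < m → ∀ a b, qq J (m * t) a b ≤ Q m) (B : Finset V) :
    ∑ x ∈ B, ∑ y ∈ B, ∑ p : Fin K → V, ∑ q : Fin K → V,
      |stirExp J t (fun g => if (∀ i : Fin K, (g ^ ((i : ℕ) + 1)) x = p i) ∧
          (∀ i : Fin K, (g ^ ((i : ℕ) + 1)) y = q i) then 1 else 0) -
        (∏ i, hop J t (pre x p i) (p i)) * ∏ i, hop J t (pre y q i) (q i)| ≤
    2 * ((3 + 8 * r * t) * ((B.card : ℝ) ^ 2 * (K * ∑ m ∈ Finset.Icc 1 K, Q m))) +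
      4 * r * t * B.card := by
  obtain ⟨β, hβ⟩ : ∃ β : ℝ, β = (B.card : ℝ) := ⟨_, rfl⟩
  have hβ0 : 0 ≤ β := by rw [hβ]; exact Nat.cast_nonneg _
  obtain ⟨P, hP⟩ : ∃ P : ℝ, P = K * ∑ m ∈ Finset.Icc 1 K, Q m := ⟨_, rfl⟩
  obtain ⟨XX, hXX⟩ : ∃ XX : (B × B × (Fin K → V) × (Fin K → V)) → Fin (K + K) → V,
    XX = fun a => Fin.append (pre a.1.1 a.2.2.1) (pre a.2.1.1 a.2.2.2) := ⟨_, rfl⟩
  obtain ⟨ZZ, hZZ⟩ : ∃ ZZ : (B × B × (Fin K → V) × (Fin K → V)) → Fin (K + K) → V,
    ZZ = fun a => Fin.append a.2.2.1 a.2.2.2 := ⟨_, rfl⟩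
  have sum_ix : ∀ f : (B × B × (Fin K → V) × (Fin K → V)) → ℝ,
      ∑ a, f a = ∑ x : B, ∑ y : B, ∑ p, ∑ q, f (x, y, p, q) := by
    intro f
    simp only [Fintype.sum_prod_type]
  have sum_B : ∀ f : V → V → (Fin K → V) → (Fin K → V) → ℝ,
      ∑ x : B, ∑ y : B, ∑ p, ∑ q, f x.1 y.1 p q = ∑ x ∈ B, ∑ y ∈ B, ∑ p, ∑ q, f x y p q := by
    intro f
    rw [Finset.sum_coe_sort B (fun x => ∑ y : B, ∑ p, ∑ q, f x y.1 p q)]
    refine Finset.sum_congr rfl fun x _ => ?_
    exact Finset.sum_coe_sort B (fun y => ∑ p, ∑ q, f x y p q)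
  have hC : ∀ s, 0 ≤ s → s ≤ t → ∑ i : Fin (K + K), ∑ j : Fin (K + K), (if i = j then 0 else
      ∑ a : B × B × (Fin K → V) × (Fin K → V), ∑ z : Fin (K + K) → V,
        VV J (K + K) (t - s) (XX a) (Function.update z i (z j)) *
        J (z j) (z i) * VV J (K + K) s z (ZZ a)) ≤
      r * (8 * β ^ 2 * P) + 2 * (r * β) := by
    intro s hs0 hst
    rw [hP]
    refine total_le Q hQ0 hr0 hβ0 (fun i j => ∑ a : B × B × (Fin K → V) × (Fin K → V),
      ∑ z : Fin (K + K) → V, VV J (K + K) (t - s) (XX a) (Function.update z i (z j)) *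
        J (z j) (z i) * VV J (K + K) s z (ZZ a)) ?_ ?_
    · intro i j hij hb
      beta_reduce
      rw [sum_ix, hXX, hZZ]
      beta_reduce
      rw [sum_B (fun x y p q => ∑ z : Fin (K + K) → V,
        VV J (K + K) (t - s) (Fin.append (pre x p) (pre y q)) (Function.update z i (z j)) *
          J (z j) (z i) * VV J (K + K) s z (Fin.append p q))]
      have h1 : ∀ x y, ∑ p : Fin K → V, ∑ q : Fin K → V, ∑ z : Fin (K + K) → V,
        VV J (K + K) (t - s) (Fin.append (pre x p) (pre y q)) (Function.update z i (z j)) *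
          J (z j) (z i) * VV J (K + K) s z (Fin.append p q) ≤
          r * Q (max (i : ℕ) j - min (i : ℕ) j) := fun x y =>
        cell_same hJ hs h0 hr hs0 hst Q (fun m hm _ => hQ m hm) i j hij hb x y
      refine (Finset.sum_le_sum fun x _ => Finset.sum_le_sum fun y _ => h1 x y).trans (le_of_eq ?_)
      simp only [Finset.sum_const, nsmul_eq_mul]
      rw [← hβ]
      ring
    · intro i j hij hb
      beta_reduce
      rw [sum_ix, hXX, hZZ]
      beta_reduce
      rw [sum_B (fun x y p q => ∑ z : Fin (K + K) → V,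
        VV J (K + K) (t - s) (Fin.append (pre x p) (pre y q)) (Function.update z i (z j)) *
          J (z j) (z i) * VV J (K + K) s z (Fin.append p q))]
      have h1 := cell_cross_le hJ hs h0 hr hs0 hst Q hQ0 hQ B i j hij hb
      rw [← hβ] at h1
      exact h1
  obtain ⟨W, hW0, hWU, hWV, hWm⟩ := Pool.Agent.Y239.PD.KG.main V J hJ hs h0 (K + K) r hr
    (B × B × (Fin K → V) × (Fin K → V)) XX ZZ t (r * (8 * β ^ 2 * P) + 2 * (r * β)) ht hC
  have hVn : ∀ a, 0 ≤ VV J (K + K) t (XX a) (ZZ a) := fun a => VV_nonneg hJ _ ht _ _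
  have hUn : ∀ a, 0 ≤ UU J (K + K) t (XX a) (ZZ a) := fun a => UU_nonneg hJ _ ht _ _
  have hrow : ∀ x : V, ∑ p : Fin K → V, VV J K t (pre x p) p = 1 := fun x =>
    CS_stoch (q := qq J t) (qq_row J t) K x
  have hconst : ∑ _x ∈ B, ∑ _y ∈ B, (1 : ℝ) = β ^ 2 := by
    rw [Finset.sum_const, Finset.sum_const, nsmul_eq_mul, nsmul_eq_mul, ← hβ]
    ring
  have hVV : ∀ (x y : B) (p q : Fin K → V), VV J (K + K) t (XX (x, y, p, q)) (ZZ (x, y, p, q)) =
      VV J K t (pre x.1 p) p * VV J K t (pre y.1 q) q := fun x y p q => by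
    rw [hXX, hZZ]
    exact VV_append J K t (pre x.1 p) (pre y.1 q) p q
  have hUU : ∀ (x y : B) (p q : Fin K → V), UU J (K + K) t (XX (x, y, p, q)) (ZZ (x, y, p, q)) =
      stirExp J t (fun g => if (∀ i : Fin K, (g ^ ((i : ℕ) + 1)) x.1 = p i) ∧
        (∀ i : Fin K, (g ^ ((i : ℕ) + 1)) y.1 = q i) then 1 else 0) := fun x y p q => by
    rw [hXX, hZZ]
    exact UU_append J t x.1 y.1 p q
  have hVtot : ∑ a, VV J (K + K) t (XX a) (ZZ a) = β ^ 2 := by
    rw [sum_ix]
    simp only [hVV]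
    rw [sum_B (fun x y p q => VV J K t (pre x p) p * VV J K t (pre y q) q), ← hconst]
    refine Finset.sum_congr rfl fun x _ => Finset.sum_congr rfl fun y _ => ?_
    simp only [← Finset.mul_sum, hrow, mul_one]
  have hUtot : ∑ a, UU J (K + K) t (XX a) (ZZ a) = β ^ 2 := by
    rw [sum_ix]
    simp only [hUU]
    rw [sum_B (fun x y p q => stirExp J t (fun g =>
      if (∀ i : Fin K, (g ^ ((i : ℕ) + 1)) x = p i) ∧
        (∀ i : Fin K, (g ^ ((i : ℕ) + 1)) y = q i) then 1 else 0)), ← hconst]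
    refine Finset.sum_congr rfl fun x _ => Finset.sum_congr rfl fun y _ => ?_
    simp only [exp_sum]
    have h3 : (fun g : Perm V => ∑ p : Fin K → V, ∑ q : Fin K → V,
        (if (∀ i : Fin K, (g ^ ((i : ℕ) + 1)) x = p i) ∧
          (∀ i : Fin K, (g ^ ((i : ℕ) + 1)) y = q i) then (1 : ℝ) else 0)) = fun _ => 1 := by
      funext g
      rw [Finset.sum_eq_single (fun i : Fin K => (g ^ ((i : ℕ) + 1)) x)]
      · rw [Finset.sum_eq_single (fun i : Fin K => (g ^ ((i : ℕ) + 1)) y)]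
        · rw [if_pos ⟨fun i => rfl, fun i => rfl⟩]
        · intro z _ hz
          rw [if_neg]
          intro h
          apply hz
          funext i
          exact (h.2 i).symm
        · intro h; exact absurd (Finset.mem_univ _) h
      · intro z _ hz
        refine Finset.sum_eq_zero fun w _ => ?_
        rw [if_neg]
        intro h
        apply hz
        funext i
        exact (h.1 i).symm
      · intro h; exact absurd (Finset.mem_univ _) h
    rw [h3, exp_const]
  have hbad : ∑ a with ¬ Function.Injective (ZZ a), VV J (K + K) t (XX a) (ZZ a) ≤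
      3 * β ^ 2 * P := by
    rw [Finset.sum_filter, sum_ix, hP, hβ]
    refine le_trans (le_of_eq ?_) (coB hJ hs h0 K ht Q hQ0 hQ B)
    rw [← sum_B (fun x y p q => if Function.Injective (Fin.append p q) then 0 else
        VV J K t (pre x p) p * VV J K t (pre y q) q)]
    refine Finset.sum_congr rfl fun x _ => Finset.sum_congr rfl fun y _ =>
      Finset.sum_congr rfl fun p _ => Finset.sum_congr rfl fun q _ => ?_
    rw [hVV]
    have hz : ZZ (x, y, p, q) = Fin.append p q := by rw [hZZ]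
    rw [hz]
    by_cases h : Function.Injective (Fin.append p q)
    · rw [if_neg (not_not.2 h), if_pos h]
    · rw [if_pos h, if_neg h]
  have hsplit : ∑ a with Function.Injective (ZZ a), VV J (K + K) t (XX a) (ZZ a) +
      ∑ a with ¬ Function.Injective (ZZ a), VV J (K + K) t (XX a) (ZZ a) = β ^ 2 := by
    rw [← hVtot]
    exact Finset.sum_filter_add_sum_filter_not Finset.univ (fun a =>
      Function.Injective (ZZ a)) _
  have h4 : ∀ a, |UU J (K + K) t (XX a) (ZZ a) - VV J (K + K) t (XX a) (ZZ a)| ≤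
      UU J (K + K) t (XX a) (ZZ a) + VV J (K + K) t (XX a) (ZZ a) -
        2 * (if Function.Injective (ZZ a) then W a else 0) := by
    intro a
    by_cases hy : Function.Injective (ZZ a)
    · rw [if_pos hy, abs_le]
      have := hWU a hy
      have := hWV a hy
      constructor <;> linarith
    · rw [if_neg hy, abs_le]
      have := hUn a
      have := hVn a
      constructor <;> linarith
  have hsum : ∑ a, |UU J (K + K) t (XX a) (ZZ a) - VV J (K + K) t (XX a) (ZZ a)| ≤
      2 * ((3 + 8 * r * t) * (β ^ 2 * P)) + 4 * r * t * β := by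
    refine (Finset.sum_le_sum fun a _ => h4 a).trans ?_
    rw [Finset.sum_sub_distrib, Finset.sum_add_distrib, hUtot, hVtot, ← Finset.mul_sum,
      ← Finset.sum_filter]
    have h5 : 2 * ((3 + 8 * r * t) * (β ^ 2 * P)) + 4 * r * t * β =
        2 * (3 * β ^ 2 * P) + 2 * ((r * (8 * β ^ 2 * P) + 2 * (r * β)) * t) := by
      ring
    rw [h5]
    linarith
  rw [← hP, ← hβ]
  refine le_trans (le_of_eq ?_) hsum
  rw [sum_ix]
  simp only [hUU, hVV]
  rw [sum_B (fun x y p q => |stirExp J t (fun g => if (∀ i : Fin K, (g ^ ((i : ℕ) + 1)) x = p i) ∧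
        (∀ i : Fin K, (g ^ ((i : ℕ) + 1)) y = q i) then 1 else 0) -
          VV J K t (pre x p) p * VV J K t (pre y q) q|)]
  rfl

end Pool.Agent.Q287.SD
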