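import Pool.Agent.Q287.SD.Fin
import Pool.Agent.Results.MP_6c3d62_pr.TypicalCycles

/-!
# The length of typical cycles
-/

set_option autoImplicit false
set_option linter.unusedSectionVars false

namespace Pool.Agent.Q287.SD

open Finset Equiv
open Pool.Agent.Y998.ST
open Pool.Agent.Y998.LP (NN NN_nonneg law_inv tdist bfrac)
open Pool.Agent.Y998.CN (law_sum nn_trans len_conj law_conj)
open Pool.Agent.Q295.TP
open Pool.Agent.TH268.PD (top Cyc cyOf pdm)

/-- the sum of the first `m` values, cut off -/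
noncomputable def fl (m : ℕ) (u : Fin m → ℝ) : ℝ := ∑ i, max 0 (min 1 (u i))

theorem fl_cont (m : ℕ) : Continuous (fl m) := by
  unfold fl
  fun_prop

theorem fl_abs (m : ℕ) (u : Fin m → ℝ) : |fl m u| ≤ m := by
  unfold fl
  have h1 : ∀ x : ℝ, max 0 (min 1 x) ≤ 1 := fun x => max_le zero_le_one (min_le_left _ _)
  rw [abs_of_nonneg (Finset.sum_nonneg fun i _ => le_max_left _ _)]
  refine (Finset.sum_le_sum fun i _ => h1 (u i)).trans (le_of_eq ?_)
  rw [Finset.sum_const, Finset.card_univ, Fintype.card_fin, nsmul_eq_mul, mul_one]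

section gen

variable {V : Type} [Fintype V] [DecidableEq V]

theorem bf_sum (W : Finset V) (hW : 0 < W.card) (g : Perm V) [Fintype (Cyc g)] :
    ∑ γ : Cyc g, bfrac W g γ = 1 := by
  classical
  simp only [bfrac_eq]
  rw [← Finset.sum_div, Finset.sum_comm]
  have h1 : ∀ x : V, ∑ γ : Cyc g, (if cyOf g x = γ then (1 : ℝ) else 0) = 1 := by
    intro x
    rw [Finset.sum_ite_eq, if_pos (Finset.mem_univ _)]
  rw [Finset.sum_congr rfl fun x _ => h1 x, Finset.sum_const, nsmul_eq_mul, mul_one]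
  have : (W.card : ℝ) ≠ 0 := by exact_mod_cast hW.ne'
  exact div_self this

theorem fl_top (W : Finset V) (g : Perm V) (m : ℕ) : fl m (fun i => top (bfrac W g) i) =
    ∑ i ∈ range m, top (bfrac W g) i := by
  have : Finite (Cyc g) := Quotient.finite _
  unfold fl
  rw [Finset.sum_range]
  refine Finset.sum_congr rfl fun i _ => ?_
  have h0 := Pool.Agent.TH268.PD.top_nonneg _ (Pool.Agent.Y998.LQ.bfrac_nonneg W g) i
  have h1 := Pool.Agent.TH268.PD.top_le_one _ (Pool.Agent.Y998.LQ.bfrac_nonneg W g)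
    (Pool.Agent.Y998.LQ.bfrac_le_one W g) i
  rw [min_eq_right h1, max_eq_right h0]

/-- the part of the small fractions -/
noncomputable def sp (W : Finset V) (θ : ℝ) (g : Perm V) : ℝ :=
  (∑ v ∈ W, if bfrac W g (cyOf g v) ≤ θ then (1 : ℝ) else 0) / W.card

theorem sp_eq (W : Finset V) (θ : ℝ) (g : Perm V) [Fintype (Cyc g)] :
    sp W θ g = ∑ γ : Cyc g, (if bfrac W g γ ≤ θ then bfrac W g γ else 0) := by
  classical
  unfold sp
  have h1 : ∀ γ : Cyc g, (if bfrac W g γ ≤ θ then bfrac W g γ else 0) =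
      (∑ v ∈ W, (if cyOf g v = γ then (if bfrac W g γ ≤ θ then (1 : ℝ) else 0) else 0)) /
        W.card := by
    intro γ
    by_cases h : bfrac W g γ ≤ θ
    · simp only [if_pos h]
      exact bfrac_eq W g γ
    · simp only [if_neg h, ite_self, Finset.sum_const_zero, zero_div]
  simp only [h1]
  rw [← Finset.sum_div, Finset.sum_comm]
  congr 1
  refine Finset.sum_congr rfl fun v _ => ?_
  rw [Finset.sum_ite_eq, if_pos (Finset.mem_univ _)]

theorem sp_le (W : Finset V) (hW : 0 < W.card) {θ : ℝ} (hθ : 0 ≤ θ) (g : Perm V) (m : ℕ) :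
    sp W θ g ≤ m * θ + (1 - fl m (fun i => top (bfrac W g) i)) := by
  have : Finite (Cyc g) := Quotient.finite _
  have := Fintype.ofFinite (Cyc g)
  have hn := Pool.Agent.TH268.PD.top_nonneg _ (Pool.Agent.Y998.LQ.bfrac_nonneg W g)
  rw [sp_eq, fl_top, ← top_range (bfrac W g) (fun x => if x ≤ θ then x else 0) (by simp)
    (m + Fintype.card (Cyc g)) (by omega), Finset.sum_range_add]
  have h2 := top_range (bfrac W g) (fun x => x) rfl (m + Fintype.card (Cyc g)) (by omega)
  rw [Finset.sum_range_add, bf_sum W hW] at h2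
  have h3 : ∑ i ∈ range m, (if top (bfrac W g) i ≤ θ then top (bfrac W g) i else 0) ≤ m * θ := by
    have : ∀ i ∈ range m, (if top (bfrac W g) i ≤ θ then top (bfrac W g) i else 0) ≤ θ := by
      intro i _
      split_ifs with h
      · exact h
      · exact hθ
    refine (Finset.sum_le_sum this).trans (le_of_eq ?_)
    rw [Finset.sum_const, Finset.card_range, nsmul_eq_mul]
  have h4 : ∑ i ∈ range (Fintype.card (Cyc g)),
      (if top (bfrac W g) (m + i) ≤ θ then top (bfrac W g) (m + i) else 0) ≤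
      ∑ i ∈ range (Fintype.card (Cyc g)), top (bfrac W g) (m + i) := by
    refine Finset.sum_le_sum fun i _ => ?_
    split_ifs
    · exact le_rfl
    · exact hn _
  linarith

theorem le_sp (W : Finset V) (hW : 0 < W.card) (g : Perm V) (m : ℕ) :
    1 - fl m (fun i => top (bfrac W g) i) ≤ sp W (1 / ((m : ℝ) + 1)) g := by
  have : Finite (Cyc g) := Quotient.finite _
  have := Fintype.ofFinite (Cyc g)
  have hu := Pool.Agent.Y998.LQ.bfrac_nonneg W g
  have hn := Pool.Agent.TH268.PD.top_nonneg _ hu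
  have h2 := top_range (bfrac W g) (fun x => x) rfl (m + Fintype.card (Cyc g)) (by omega)
  rw [Finset.sum_range_add, bf_sum W hW] at h2
  have htm : ∀ j, top (bfrac W g) (m + j) ≤ 1 / ((m : ℝ) + 1) := by
    intro j
    refine (top_anti' _ hu m j).trans ?_
    rw [le_div_iff₀ (by positivity)]
    have h2 := top_range (bfrac W g) (fun x => x) rfl (m + 1 + Fintype.card (Cyc g)) (by omega)
    rw [Finset.sum_range_add, bf_sum W hW] at h2
    have h3 : 0 ≤ ∑ i ∈ range (Fintype.card (Cyc g)), top (bfrac W g) (m + 1 + i) :=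
      Finset.sum_nonneg fun i _ => hn _
    have h5 : ∑ _i ∈ range (m + 1), top (bfrac W g) m ≤ ∑ i ∈ range (m + 1), top (bfrac W g) i := by
      refine Finset.sum_le_sum fun i hi => ?_
      rw [Finset.mem_range] at hi
      obtain ⟨j, hj⟩ := Nat.exists_eq_add_of_le (show i ≤ m by omega)
      rw [hj]
      exact top_anti' _ hu i j
    rw [Finset.sum_const, Finset.card_range, nsmul_eq_mul] at h5
    push_cast at h5
    linarith
  rw [sp_eq, fl_top, ← top_range (bfrac W g)
    (fun x => if x ≤ 1 / ((m : ℝ) + 1) then x else 0) (by simp)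
    (m + Fintype.card (Cyc g)) (by omega), Finset.sum_range_add]
  have h3 : 0 ≤ ∑ i ∈ range m,
      (if top (bfrac W g) i ≤ 1 / ((m : ℝ) + 1) then top (bfrac W g) i else 0) := by
    refine Finset.sum_nonneg fun i _ => ?_
    split_ifs
    · exact hn _
    · exact le_rfl
  have h4 : ∑ i ∈ range (Fintype.card (Cyc g)),
      (if top (bfrac W g) (m + i) ≤ 1 / ((m : ℝ) + 1) then top (bfrac W g) (m + i) else 0) =
      ∑ i ∈ range (Fintype.card (Cyc g)), top (bfrac W g) (m + i) :=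
    Finset.sum_congr rfl fun i _ => by rw [if_pos (htm i)]
  linarith

theorem len_ge (W : Finset V) (hW : 0 < W.card) (g : Perm V) (v : V) :
    bfrac W g (cyOf g v) * W.card ≤ cycleLen g v := by
  have hWR : (0 : ℝ) < W.card := by exact_mod_cast hW
  unfold bfrac
  rw [div_mul_cancel₀ _ hWR.ne']
  unfold cycleLen
  have h1 : Nat.card {w : V // w ∈ W ∧ cyOf g w = cyOf g v} ≤
      Nat.card {w : V // g.SameCycle v w} := by
    refine Nat.card_le_card_of_injective (fun w => ⟨w.1, ((cy_iff g w.1 v).1 w.2.2).symm⟩) ?_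
    intro a b hab
    exact Subtype.ext (congrArg (fun z : {w : V // g.SameCycle v w} => z.1) hab)
  exact_mod_cast h1

theorem len_eq (g : Perm V) (v : V) :
    bfrac univ g (cyOf g v) * Fintype.card V = cycleLen g v := by
  haveI : Nonempty V := ⟨v⟩
  have hWR : (0 : ℝ) < (univ : Finset V).card := by exact_mod_cast Finset.card_pos.2 ⟨v, by simp⟩
  unfold bfrac
  rw [← Finset.card_univ, div_mul_cancel₀ _ hWR.ne']
  unfold cycleLen
  have h1 : Nat.card {w : V // w ∈ univ ∧ cyOf g w = cyOf g v} =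
      Nat.card {w : V // g.SameCycle v w} := by
    refine Nat.card_congr (Equiv.subtypeEquivRight fun w => ?_)
    rw [cy_iff]
    constructor
    · rintro ⟨_, h⟩
      exact h.symm
    · intro h
      exact ⟨Finset.mem_univ _, h.symm⟩
  exact_mod_cast h1

end gen

section tor

variable {d L : ℕ} [NeZero L]

theorem len_inv (t x : ℝ) (v w : Fin d → ZMod L) :
    stirExp (nnRate d L) t (fun g => if (cycleLen g v : ℝ) ≤ x then 1 else 0) =
      stirExp (nnRate d L) t (fun g => if (cycleLen g w : ℝ) ≤ x then 1 else 0) := by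
  unfold stirExp
  rw [← Equiv.sum_comp (MulAut.conj (Equiv.addRight (v - w))).toEquiv]
  refine Finset.sum_congr rfl fun g _ => ?_
  have e1 : (MulAut.conj (Equiv.addRight (v - w))).toEquiv g =
    Equiv.addRight (v - w) * g * (Equiv.addRight (v - w))⁻¹ := rfl
  rw [e1, law_conj (Equiv.addRight (v - w)) (fun a b => nn_trans a b (v - w))]
  have e2 : Equiv.addRight (v - w) w = v := by
    change w + (v - w) = v
    abel
  have e3 := len_conj (Equiv.addRight (v - w)) g w
  rw [e2] at e3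
  beta_reduce
  rw [e3]

/-- typical cycles are long if a set is cut in macroscopic pieces -/
theorem len_le {t : ℝ} (ht : 0 ≤ t) (W : Finset (Fin d → ZMod L)) (hW : 0 < W.card) {θ : ℝ}
    (hθ : 0 ≤ θ) (v : Fin d → ZMod L) (m : ℕ) :
    stirExp (nnRate d L) t (fun g => if (cycleLen g v : ℝ) ≤ θ * W.card then 1 else 0) ≤
      m * θ + (1 - stirExp (nnRate d L) t (fun g => fl m (fun i => top (bfrac W g) i))) := by
  have hWR : (0 : ℝ) < W.card := by exact_mod_cast hW
  have h1 : stirExp (nnRate d L) t (fun g => if (cycleLen g v : ℝ) ≤ θ * W.card then 1 else 0) =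
      stirExp (nnRate d L) t (fun g => (∑ w ∈ W,
        if (cycleLen g w : ℝ) ≤ θ * W.card then (1 : ℝ) else 0) / W.card) := by
    have e1 : stirExp (nnRate d L) t (fun g => (∑ w ∈ W,
        if (cycleLen g w : ℝ) ≤ θ * W.card then (1 : ℝ) else 0) / W.card) =
        (1 / (W.card : ℝ)) * ∑ w ∈ W, stirExp (nnRate d L) t
          (fun g => if (cycleLen g w : ℝ) ≤ θ * W.card then 1 else 0) := by
      rw [exp_sum, ← Pool.Agent.Q295.BD.e_mul]
      congr 1
      funext g
      ring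
    rw [e1, Finset.sum_congr rfl fun w _ => len_inv t (θ * W.card) w v, Finset.sum_const,
      nsmul_eq_mul]
    field_simp
  rw [h1]
  have h2 : ∀ g : Perm (Fin d → ZMod L), (∑ w ∈ W,
      if (cycleLen g w : ℝ) ≤ θ * W.card then (1 : ℝ) else 0) / W.card ≤
      (m * θ + 1) + (-1) * fl m (fun i => top (bfrac W g) i) := by
    intro g
    have h3 := sp_le W hW hθ g m
    refine le_trans ?_ (h3.trans (le_of_eq (by ring)))
    unfold sp
    refine div_le_div_of_nonneg_right (Finset.sum_le_sum fun w _ => ?_) hWR.le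
    by_cases hw : (cycleLen g w : ℝ) ≤ θ * W.card
    · rw [if_pos hw, if_pos]
      have := len_ge W hW g w
      exact le_of_mul_le_mul_right (this.trans hw) hWR
    · rw [if_neg hw]
      split_ifs <;> norm_num
  refine (exp_mono nn_nonneg ht h2).trans (le_of_eq ?_)
  rw [Pool.Agent.Q295.BD.e_add, exp_const, Pool.Agent.Q295.BD.e_mul]
  ring

end tor

/-- the Poisson-Dirichlet sequence has sum one -/
theorem pdm_fl {δ : ℝ} (hδ : 0 < δ) : ∃ m : ℕ, 1 - δ ≤ pdm (fl m) := by
  obtain ⟨C, hC, hlen⟩ := Pool.Agent.Results.MP_6c3d62_pr.TypicalCycles.result 1 le_rfl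
  obtain ⟨m, hm⟩ := exists_nat_gt ((2 * C / δ) ^ 4)
  refine ⟨m, ?_⟩
  obtain ⟨A, hA, hPD⟩ := ((Pool.Agent.Results.MP_b817cf_pr.LocalPoissonDirichlet.result 1
    le_rfl).2 m (fl m) (fl_cont m) m (fl_abs m) (δ / 2) (by positivity)).2
  obtain ⟨L, hL⟩ := exists_nat_gt (max A 3)
  have hLA : A ≤ L := ((le_max_left _ _).trans_lt hL).le
  have hL3R : (3 : ℝ) < L := (le_max_right _ _).trans_lt hL
  have hL3 : 3 ≤ L := by exact_mod_cast hL3R.le
  haveI : NeZero L := ⟨by omega⟩
  obtain ⟨t, ht⟩ : ∃ t : ℝ, t = (A + 1) * (L : ℝ) ^ 2 := ⟨_, rfl⟩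
  have hAt : A * (L : ℝ) ^ 2 ≤ t := by rw [ht]; nlinarith [sq_nonneg (L : ℝ)]
  have hLt : (L : ℝ) ^ 2 ≤ t := by
    rw [ht]
    have : 0 ≤ A * (L : ℝ) ^ 2 := by positivity
    linarith
  have ht0 : 0 < t := lt_of_lt_of_le (by positivity) hLt
  have h1 := hPD L hLA t hAt
  have h2 : stirExp (nnRate 1 L) t (fun g => fl m (fun i : Fin m =>
      Pool.Agent.Results.MP_b817cf_pr.LocalPoissonDirichlet.cycleFrac g i)) =
      stirExp (nnRate 1 L) t (fun g => fl m (fun i => top (bfrac univ g) i)) := by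
    simp only [Pool.Agent.Results.MP_b817cf_pr.LocalPoissonDirichlet.frac_eq]
  rw [h2, Pool.Agent.Results.MP_b817cf_pr.LocalPoissonDirichlet.pd_eq] at h1
  have hUp : 0 < (univ : Finset (Fin 1 → ZMod L)).card := Finset.card_pos.2 Finset.univ_nonempty
  have hcard : (Fintype.card (Fin 1 → ZMod L) : ℝ) = L := by
    rw [Fintype.card_fun, ZMod.card, Fintype.card_fin, pow_one]
  have h3 : 1 - stirExp (nnRate 1 L) t (fun g => fl m (fun i => top (bfrac univ g) i)) ≤
      stirExp (nnRate 1 L) t (fun g => sp univ (1 / ((m : ℝ) + 1)) g) := by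
    have h4 := exp_mono (nn_nonneg (d := 1) (L := L)) ht0.le
      (F := fun g => 1 + (-1) * fl m (fun i => top (bfrac univ g) i))
      (G := fun g => sp univ (1 / ((m : ℝ) + 1)) g) (fun g => by
        have := le_sp (univ : Finset (Fin 1 → ZMod L)) hUp g m
        linarith)
    rw [Pool.Agent.Q295.BD.e_add, exp_const, Pool.Agent.Q295.BD.e_mul] at h4
    linarith
  have h4 : stirExp (nnRate 1 L) t (fun g => sp univ (1 / ((m : ℝ) + 1)) g) ≤ δ / 2 := by
    have h5 : stirExp (nnRate 1 L) t (fun g => sp univ (1 / ((m : ℝ) + 1)) g) =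
        (1 / (Fintype.card (Fin 1 → ZMod L) : ℝ)) * ∑ v : Fin 1 → ZMod L,
          stirExp (nnRate 1 L) t (fun g => if (cycleLen g v : ℝ) ≤
            1 / ((m : ℝ) + 1) * Fintype.card (Fin 1 → ZMod L) then 1 else 0) := by
      rw [exp_sum, ← Pool.Agent.Q295.BD.e_mul]
      congr 1
      funext g
      unfold sp
      rw [Finset.card_univ, div_eq_mul_one_div, mul_comm]
      congr 1
      refine Finset.sum_congr rfl fun v _ => ?_
      have hN : (0 : ℝ) < Fintype.card (Fin 1 → ZMod L) := by rw [hcard]; linarith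
      have e1 : bfrac univ g (cyOf g v) ≤ 1 / ((m : ℝ) + 1) ↔ (cycleLen g v : ℝ) ≤
          1 / ((m : ℝ) + 1) * Fintype.card (Fin 1 → ZMod L) := by
        rw [← len_eq]
        constructor
        · intro h
          exact mul_le_mul_of_nonneg_right h hN.le
        · intro h
          exact le_of_mul_le_mul_right h hN
      simp only [e1]
    rw [h5, hcard]
    have h6 : ∀ v ∈ (Finset.univ : Finset (Fin 1 → ZMod L)),
        stirExp (nnRate 1 L) t (fun g => if (cycleLen g v : ℝ) ≤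
            1 / ((m : ℝ) + 1) * L then 1 else 0) ≤ δ / 2 := by
      intro v _
      have h7 := hlen L hL3 t ht0 v ⌊1 / ((m : ℝ) + 1) * L⌋₊
      have e1 : stirExp (nnRate 1 L) t (fun g => if (cycleLen g v : ℝ) ≤
            1 / ((m : ℝ) + 1) * L then 1 else 0) =
          stirExp (nnRate 1 L) t (fun g => if cycleLen g v ≤ ⌊1 / ((m : ℝ) + 1) * L⌋₊
            then 1 else 0) := by
        congr 1
        funext g
        have : (cycleLen g v : ℝ) ≤ 1 / ((m : ℝ) + 1) * L ↔
            cycleLen g v ≤ ⌊1 / ((m : ℝ) + 1) * L⌋₊ := (Nat.le_floor_iff (by positivity)).symm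
        simp only [this]
      rw [e1]
      refine h7.trans ?_
      have e2 : t ^ max (((1 : ℕ) : ℝ) / 2) (((1 : ℕ) : ℝ) - 1) = Real.sqrt t := by
        rw [Real.sqrt_eq_rpow]
        congr 1
        norm_num
      have e3 : (L : ℝ) ≤ Real.sqrt t := Real.le_sqrt_of_sq_le hLt
      rw [e2, pow_one, min_eq_right e3]
      have e4 : ((⌊1 / ((m : ℝ) + 1) * L⌋₊ : ℕ) : ℝ) / L ≤ 1 / ((m : ℝ) + 1) := by
        rw [div_le_iff₀ (by linarith)]
        exact Nat.floor_le (by positivity)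
      have e5 : (((⌊1 / ((m : ℝ) + 1) * L⌋₊ : ℕ) : ℝ) / L) ^ (1 / (((1 : ℕ) : ℝ) + 3)) ≤
          (1 / ((m : ℝ) + 1)) ^ (1 / 4 : ℝ) := by
        have : (1 / (((1 : ℕ) : ℝ) + 3)) = (1 / 4 : ℝ) := by norm_num
        rw [this]
        exact Real.rpow_le_rpow (by positivity) e4 (by norm_num)
      have e6 : (1 / ((m : ℝ) + 1)) ^ (1 / 4 : ℝ) ≤ δ / (2 * C) := by
        have f1 : (1 / ((m : ℝ) + 1)) ≤ (δ / (2 * C)) ^ 4 := by
          rw [div_le_iff₀ (by positivity)]
          have f2 : (2 * C / δ) ^ 4 ≤ (m : ℝ) + 1 := by linarith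
          have f3 : (δ / (2 * C)) ^ 4 * (2 * C / δ) ^ 4 = 1 := by
            rw [← mul_pow]
            have : δ / (2 * C) * (2 * C / δ) = 1 := by field_simp
            rw [this, one_pow]
          have := mul_le_mul_of_nonneg_left f2 (show 0 ≤ (δ / (2 * C)) ^ 4 by positivity)
          linarith
        have f2 := Real.rpow_le_rpow (by positivity) f1 (show (0 : ℝ) ≤ 1 / 4 by norm_num)
        refine f2.trans (le_of_eq ?_)
        rw [← Real.rpow_natCast (δ / (2 * C)) 4, ← Real.rpow_mul (by positivity)]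
        norm_num
      calc C * (((⌊1 / ((m : ℝ) + 1) * L⌋₊ : ℕ) : ℝ) / L) ^ (1 / (((1 : ℕ) : ℝ) + 3))
          ≤ C * (δ / (2 * C)) := mul_le_mul_of_nonneg_left (e5.trans e6) hC.le
        _ = δ / 2 := by field_simp
    have h7 := Finset.sum_le_sum h6
    rw [Finset.sum_const, Finset.card_univ, nsmul_eq_mul, hcard] at h7
    have h8 : (0 : ℝ) < L := by linarith
    refine (mul_le_mul_of_nonneg_left h7 (by positivity)).trans (le_of_eq ?_)
    field_simp
  rw [abs_le] at h1
  linarith [h1.1, h1.2]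

/-- the length of typical cycles -/
theorem tor_len {d : ℕ} (hd : 3 ≤ d) {ε : ℝ} (hε : 0 < ε) {δ : ℝ} (hδ : 0 < δ) :
    ∃ θ : ℝ, 0 < θ ∧ ∃ t₀ : ℝ, 1 ≤ t₀ ∧ ∀ t : ℝ, t₀ ≤ t → ∀ (L : ℕ) [NeZero L], 3 ≤ L →
      ∀ v : Fin d → ZMod L, stirExp (nnRate d L) t (fun g =>
        if (cycleLen g v : ℝ) ≤ θ * min (t ^ ((d : ℝ) / 4 - ε)) L ^ d then 1 else 0) ≤ δ := by
  have hd0 : (3 : ℝ) ≤ d := by exact_mod_cast hd
  obtain ⟨ε₀, hε₀⟩ : ∃ ε₀ : ℝ, ε₀ = min ε (1 / 8) := ⟨_, rfl⟩
  have h0 : 0 < ε₀ := by rw [hε₀]; exact lt_min hε (by norm_num)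
  have h01 : ε₀ ≤ ε := by rw [hε₀]; exact min_le_left _ _
  have h02 : ε₀ ≤ 1 / 8 := by rw [hε₀]; exact min_le_right _ _
  obtain ⟨m, hm⟩ := pdm_fl (show 0 < δ / 4 by positivity)
  obtain ⟨t₀, ht₀, N₀, h1⟩ := tor_set hd h0 m (fl m) (fl_cont m) m (fl_abs m)
    (show 0 < δ / 4 by positivity)
  obtain ⟨t₁, ht₁, h3⟩ := small_pow (e := (d : ℝ) / 4 - ε₀) (by linarith) (d * (N₀ + 1)) one_pos
  obtain ⟨θ', hθ'⟩ : ∃ θ' : ℝ, θ' = min (δ / (4 * (m + 1))) (1 / (2 * (N₀ + 1))) := ⟨_, rfl⟩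
  have hθ'0 : 0 < θ' := by rw [hθ']; exact lt_min (by positivity) (by positivity)
  have hθ'1 : θ' ≤ δ / (4 * (m + 1)) := by rw [hθ']; exact min_le_left _ _
  have hθ'2 : θ' ≤ 1 / (2 * (N₀ + 1)) := by rw [hθ']; exact min_le_right _ _
  have hmθ : m * θ' ≤ δ / 4 := by
    rw [le_div_iff₀ (by positivity)] at hθ'1
    nlinarith
  refine ⟨θ' / (2 * d) ^ d, by positivity, max t₀ t₁, ht₀.trans (le_max_left _ _), ?_⟩
  intro t ht L _ hL v
  have hta : t₀ ≤ t := (le_max_left _ _).trans ht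
  have htb : t₁ ≤ t := (le_max_right _ _).trans ht
  have ht1 : 1 ≤ t := ht₀.trans hta
  have ht0 : 0 < t := by linarith
  have hL0 : (0 : ℝ) < L := by exact_mod_cast (show 0 < L by omega)
  obtain ⟨X, hX⟩ : ∃ X : ℝ, X = t ^ ((d : ℝ) / 4 - ε₀) := ⟨_, rfl⟩
  have hX0 : 0 < X := by rw [hX]; exact Real.rpow_pos_of_pos ht0 _
  have hXN : d * ((N₀ : ℝ) + 1) ≤ X := by
    have h4 := h3 t htb
    rw [Real.rpow_neg ht0.le, ← hX, mul_inv_le_iff₀ hX0, one_mul] at h4
    exact h4
  have hXX : t ^ ((d : ℝ) / 4 - ε) ≤ X := by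
    rw [hX]
    exact Real.rpow_le_rpow_of_exponent_le ht1 (by linarith)
  have hpw : 0 < t ^ ((d : ℝ) / 4 - ε) := Real.rpow_pos_of_pos ht0 _
  -- it is enough to find a set
  have key : ∀ W : Finset (Fin d → ZMod L), N₀ ≤ W.card → 0 < W.card →
      (∀ x ∈ W, ∀ y ∈ W, (tdist x y : ℝ) ≤ X) →
      min (t ^ ((d : ℝ) / 4 - ε)) L ^ d / (2 * d) ^ d ≤ W.card →
      stirExp (nnRate d L) t (fun g =>
        if (cycleLen g v : ℝ) ≤ θ' / (2 * d) ^ d * min (t ^ ((d : ℝ) / 4 - ε)) L ^ d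
          then 1 else 0) ≤ δ := by
    intro W hW hWp hWd hWc
    have h4 := h1 t hta L hL W hW (fun x hx y hy => by rw [← hX]; exact hWd x hx y hy)
    have h5 := len_le ht0.le W hWp hθ'0.le v m
    have h6 : stirExp (nnRate d L) t (fun g =>
        if (cycleLen g v : ℝ) ≤ θ' / (2 * d) ^ d * min (t ^ ((d : ℝ) / 4 - ε)) L ^ d
          then 1 else 0) ≤
        stirExp (nnRate d L) t (fun g => if (cycleLen g v : ℝ) ≤ θ' * W.card then 1 else 0) := by
      refine exp_mono nn_nonneg ht0.le fun g => ?_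
      have e1 : θ' / (2 * (d : ℝ)) ^ d * min (t ^ ((d : ℝ) / 4 - ε)) L ^ d ≤ θ' * W.card := by
        calc θ' / (2 * (d : ℝ)) ^ d * min (t ^ ((d : ℝ) / 4 - ε)) L ^ d
            = θ' * (min (t ^ ((d : ℝ) / 4 - ε)) L ^ d / (2 * d) ^ d) := by ring
          _ ≤ θ' * W.card := mul_le_mul_of_nonneg_left hWc hθ'0.le
      by_cases h : (cycleLen g v : ℝ) ≤ θ' / (2 * d) ^ d * min (t ^ ((d : ℝ) / 4 - ε)) L ^ d
      · rw [if_pos h, if_pos (h.trans e1)]
      · rw [if_neg h]
        split_ifs <;> norm_num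
    rw [abs_le] at h4
    linarith [h4.1, h4.2]
  obtain ⟨R, hR⟩ : ∃ R : ℕ, R = ⌊X / d⌋₊ := ⟨_, rfl⟩
  have hXd : (N₀ : ℝ) + 1 ≤ X / d := by
    rw [le_div_iff₀ (by linarith)]
    linarith
  have hRX : (R : ℝ) ≤ X / d := by rw [hR]; exact Nat.floor_le (by positivity)
  have hRN : N₀ + 1 ≤ R := by
    rw [hR]
    exact Nat.le_floor (by push_cast; exact hXd)
  have hXR : X ≤ 2 * d * R := by
    have h4 := Nat.lt_floor_add_one (X / (d : ℝ))
    rw [← hR] at h4
    have h5 : (1 : ℝ) ≤ R := by exact_mod_cast (show 1 ≤ R by omega)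
    have h6 : X / (d : ℝ) ≤ 2 * R := by linarith
    rw [div_le_iff₀ (by linarith)] at h6
    linarith
  have hdR : (d : ℝ) * R ≤ X := by
    rw [le_div_iff₀ (by linarith)] at hRX
    linarith
  by_cases hRL : R ≤ L
  · obtain ⟨W, hvW, hWc, hWd⟩ := exists_box (d := d) (show 1 ≤ R by omega) hRL v
    refine key W ?_ ?_ ?_ ?_
    · rw [hWc]
      exact (by omega : N₀ ≤ R).trans (Nat.le_self_pow (by omega) R)
    · rw [hWc]
      exact pow_pos (by omega) d
    · intro x hx y hy
      have : (tdist x y : ℝ) ≤ d * R := by exact_mod_cast hWd x hx y hy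
      linarith
    · rw [hWc, ← div_pow]
      push_cast
      refine pow_le_pow_left₀ (by positivity) ?_ d
      rw [div_le_iff₀ (by positivity)]
      refine (min_le_left _ _).trans (hXX.trans ?_)
      linarith
  · push Not at hRL
    have hcard : ((univ : Finset (Fin d → ZMod L)).card : ℝ) = (L : ℝ) ^ d := by
      rw [Finset.card_univ, Fintype.card_fun, ZMod.card, Fintype.card_fin]
      push_cast
      rfl
    have hmin : min (t ^ ((d : ℝ) / 4 - ε)) L ^ d / (2 * (d : ℝ)) ^ d ≤ (L : ℝ) ^ d := by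
      rw [← div_pow]
      refine pow_le_pow_left₀ (by positivity) ?_ d
      rw [div_le_iff₀ (by positivity)]
      refine (min_le_right _ _).trans ?_
      nlinarith
    by_cases hN : N₀ ≤ (univ : Finset (Fin d → ZMod L)).card
    · refine key univ hN (Finset.card_pos.2 Finset.univ_nonempty) ?_ ?_
      · intro x _ y _
        refine (Pool.Agent.Q295.BD.tdist_le x y).trans ?_
        have : (L : ℝ) ≤ R := by exact_mod_cast hRL.le
        have := mul_le_mul_of_nonneg_left this (show (0 : ℝ) ≤ d by linarith)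
        linarith
      · rw [hcard]
        exact hmin
    · push Not at hN
      have h4 : ∀ g : Perm (Fin d → ZMod L), ¬ ((cycleLen g v : ℝ) ≤
          θ' / (2 * d) ^ d * min (t ^ ((d : ℝ) / 4 - ε)) L ^ d) := by
        intro g hg
        have h5 : (1 : ℝ) ≤ cycleLen g v := by
          have : 0 < cycleLen g v := by
            unfold cycleLen
            exact Nat.card_pos_iff.2 ⟨⟨⟨v, Perm.SameCycle.refl g v⟩⟩, inferInstance⟩
          exact_mod_cast this
        have h6 : θ' / (2 * (d : ℝ)) ^ d * min (t ^ ((d : ℝ) / 4 - ε)) L ^ d ≤ θ' * L ^ d := by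
          calc θ' / (2 * (d : ℝ)) ^ d * min (t ^ ((d : ℝ) / 4 - ε)) L ^ d
              = θ' * (min (t ^ ((d : ℝ) / 4 - ε)) L ^ d / (2 * d) ^ d) := by ring
            _ ≤ θ' * L ^ d := mul_le_mul_of_nonneg_left hmin hθ'0.le
        have h7 : (L : ℝ) ^ d < N₀ := by
          rw [← hcard]
          exact_mod_cast hN
        have h8 : θ' * (L : ℝ) ^ d ≤ 1 / (2 * (N₀ + 1)) * N₀ :=
          mul_le_mul hθ'2 h7.le (by positivity) (by positivity)
        have h9 : 1 / (2 * ((N₀ : ℝ) + 1)) * N₀ ≤ 1 / 2 := by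
          rw [one_div_mul_eq_div, div_le_div_iff₀ (by positivity) (by norm_num)]
          have : (0 : ℝ) ≤ N₀ := Nat.cast_nonneg _
          linarith
        linarith
      simp only [h4, if_false]
      rw [exp_const]
      exact hδ.le

end Pool.Agent.Q287.SD
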